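import Pool.Agent.MP_dd438b_an.Std

set_option autoImplicit false
open Polynomial

namespace Pool.Agent.MP_dd438b_an

variable {φ : Fn} {q4 h q2 q1 : ℝ[X]}

/-- normalised case B -/
theorem PData.lag_normal {ε : ℝ} (P : PData φ (X ^ 2) (X * (C ε - X)) q2 q1) : Std0 φ := by
  refine ⟨P.posDef.one, ?_⟩
  obtain ⟨α, β, γ, hq2⟩ : ∃ α β γ : ℝ, q2 = C α * X ^ 2 + C β * X + C γ :=
    ⟨_, _, _, eq_quadratic_of_degree_le_two (natDegree_le_iff_degree_le.mp P.d2)⟩
  obtain ⟨δ, ζ, hq1⟩ : ∃ δ ζ : ℝ, q1 = C δ * X + C ζ :=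
    ⟨_, _, eq_X_add_C_of_natDegree_le_one P.d1⟩
  -- the polynomial identity
  obtain ⟨R2, hR2⟩ : ∃ R2 : ℝ, R2 = 1 - α := ⟨_, rfl⟩
  obtain ⟨R1, hR1⟩ : ∃ R1 : ℝ, R1 = -(2 * ε + β) := ⟨_, rfl⟩
  obtain ⟨R0, hR0⟩ : ∃ R0 : ℝ, R0 = ε * (ε - 1) - γ := ⟨_, rfl⟩
  have two : (C 2 : ℝ[X]) = 2 := rfl
  have hdh : derivative (X * (C ε - X) : ℝ[X]) = C ε - 2 * X := by
    rw [derivative_mul, derivative_X, derivative_sub, derivative_C, derivative_X]; ring
  have hd4 : derivative (X ^ 2 : ℝ[X]) = 2 * X := by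
    rw [derivative_X_pow']; simp [two]
  have hN : NN (X ^ 2) (X * (C ε - X)) q2 = X ^ 2 * (C R2 * X ^ 2 + C R1 * X + C R0) := by
    unfold NN
    rw [hdh, hd4, hq2, hR2, hR1, hR0]
    simp only [C_add, C_mul, C_sub, C_neg, map_one, two]
    ring
  have hid : (C R2 * X ^ 2 + C R1 * X + C R0) * (C (2 - ε) + X)
      = X * (C (2 * R2) * X + C R1 + C δ * X + C ζ) := by
    have hf := P.data.f
    rw [hN, hd4] at hf
    have hdR : derivative (X ^ 2 * (C R2 * X ^ 2 + C R1 * X + C R0) : ℝ[X])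
        = 2 * X * (C R2 * X ^ 2 + C R1 * X + C R0) + X ^ 2 * (C (2 * R2) * X + C R1) := by
      rw [derivative_mul, hd4]
      simp only [derivative_add, derivative_mul, derivative_C, hd4, derivative_X, C_mul, two]
      ring
    rw [hdR, hq1] at hf
    have h3 : X ^ 3 * ((C R2 * X ^ 2 + C R1 * X + C R0) * (C (2 - ε) + X))
      = X ^ 3 * (X * (C (2 * R2) * X + C R1 + C δ * X + C ζ)) := by
      rw [show (C (2 - ε) : ℝ[X]) = 2 - C ε by rw [C_sub, two]]
      linear_combination hf
    exact mul_left_cancel₀ (pow_ne_zero 3 X_ne_zero) h3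
  have ev : ∀ x : ℝ, (R2 * x ^ 2 + R1 * x + R0) * (2 - ε + x) = x * (2 * R2 * x + R1 + δ * x + ζ) := by
    intro x
    have := congrArg (eval x) hid
    simpa using this
  have c0 : R0 * (2 - ε) = 0 := by have := ev 0; linarith
  have c3 : R2 = 0 := by
    have h1 := ev 1; have h2 := ev (-1); have h3 := ev 2; have h0 := ev 0; have h4 := ev (-2)
    nlinarith
  have c2 : R1 = δ := by
    have h1 := ev 1; have h2 := ev (-1); have h0 := ev 0
    rw [c3] at h1 h2
    linarith
  have c1 : R0 + (1 - ε) * R1 = ζ := by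
    have h1 := ev 1; have h2 := ev (-1); have h0 := ev 0
    rw [c3] at h1 h2
    linarith
  -- moments
  have rec1 : ∀ n : ℕ, (n + ε) * φ.ev (X ^ (n + 1)) = φ.ev (X ^ (n + 2)) := by
    intro n
    have h1 := P.P1 (X ^ n)
    rcases n with _ | n
    · simp only [pow_zero, derivative_one, mul_zero, zero_add, mul_one] at h1
      rw [show (X * (C ε - X) : ℝ[X]) = C ε * X ^ (0 + 1) - X ^ (0 + 2) by ring, map_sub,
        ev_C_mul] at h1
      simp only [Nat.cast_zero, zero_add]
      simp only [zero_add] at h1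
      linarith
    · rw [derivative_X_pow', show (X ^ 2 * (C ((n + 1 : ℕ) : ℝ) * X ^ (n + 1 - 1))
          + X * (C ε - X) * X ^ (n + 1) : ℝ[X]) = C ((n + 1 : ℕ) : ℝ) * X ^ (n + 1 + 1)
          + C ε * X ^ (n + 1 + 1) - X ^ (n + 1 + 2) by rw [Nat.add_sub_cancel]; ring,
        map_sub, map_add, ev_C_mul, ev_C_mul] at h1
      linarith
  have m0 := P.posDef.one
  have m2 := P.posDef.even 1
  have r0 := rec1 0
  have r1 := rec1 1
  simp only [Nat.cast_zero, zero_add, Nat.cast_one] at r0 r1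
  norm_num at m2 r0 r1
  set M0 := φ.ev 1 with hM0
  set M1 := φ.ev X with hM1
  set M2 := φ.ev (X ^ 2) with hM2
  have hε0 : ε ≠ 0 := by
    rintro rfl
    rw [zero_mul] at r0; linarith
  have hM1' : M1 ≠ 0 := by
    rintro h0
    rw [h0, mul_zero] at r0; linarith
  -- the P2 equations
  have p1 : δ * M1 + ζ * M0 = 0 := by
    have h1 := P.P2 1
    rw [hq1, derivative_one, derivative_zero, mul_zero, mul_zero, zero_add, zero_add, mul_one,
      map_add, ev_C_mul, ← mul_one (C ζ), ev_C_mul] at h1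
    exact h1
  have p2 : α * M2 + β * M1 + γ * M0 + δ * M2 + ζ * M1 = 0 := by
    have h1 := P.P2 X
    rw [hq1, hq2, derivative_X, derivative_one, mul_zero, zero_add, mul_one,
      show (C α * X ^ 2 + C β * X + C γ + (C δ * X + C ζ) * X : ℝ[X])
        = C α * X ^ 2 + C β * X + C γ * 1 + C δ * X ^ 2 + C ζ * X by ring] at h1
    simp only [map_add, ev_C_mul] at h1
    exact h1
  by_cases hc : M1 = (ε - 1) * M0
  · -- Laguerre
    refine Or.inr (Or.inl ⟨ε - 2, ?_, ?_⟩)
    · have cs := P.posDef.cs_mon 0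
      norm_num at cs
      rw [← hM0, ← hM1, ← hM2] at cs
      have h1 : M1 * (M1 - ε * M0) < 0 := by nlinarith
      have h2 : (ε - 1) * M0 * (- M0) < 0 := by
        rw [← hc]
        have : M1 - ε * M0 = - M0 := by linarith
        rw [this] at h1; exact h1
      have h3 : 0 < (ε - 1) * (M0 * M0) := by nlinarith
      have h4 := (pos_iff_pos_of_mul_pos h3).mpr (by positivity)
      linarith
    · intro g
      obtain ⟨k, s, rfl⟩ := exists_X_mul g
      have h1 := P.P1 k
      rw [derivative_add, derivative_mul, derivative_X, derivative_C,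
        show (X * (1 * k + X * derivative k + 0) + (C (ε - 2 + 1) - X) * (X * k + C s) : ℝ[X])
          = (X ^ 2 * derivative k + X * (C ε - X) * k) + (C (s * (ε - 1)) * 1 - C s * X) by
            rw [show ε - 2 + 1 = ε - 1 by ring, C_mul, C_sub]; simp only [map_one]; ring,
        map_add, h1, map_sub, ev_C_mul, ev_C_mul, ← hM0, ← hM1, hc]
      ring
  · -- Laguerre type
    have e1 : ε * (M1 - (ε - 1) * M0) = R0 * (M1 - M0) := by
      have h2 : α = 1 := by linarith
      have h3 : β = -(2 * ε) - δ := by linarith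
      have h4 : γ = ε * (ε - 1) - R0 := by linarith
      rw [← c2] at p1 p2 h3
      rw [← c1, h2, h3, h4, ← r0] at p2
      linarith
    have hR0' : R0 ≠ 0 := by
      intro h0
      rw [h0, zero_mul] at e1
      rcases mul_eq_zero.mp e1 with h1 | h1
      · exact hε0 h1
      · exact hc (by linarith)
    have hε2 : ε = 2 := by
      rcases mul_eq_zero.mp c0 with h1 | h1
      · exact absurd h1 hR0'
      · linarith
    subst hε2
    have hM01 : M1 - M0 ≠ 0 := by
      intro h0
      apply hc; linarith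
    have hR02 : R0 = 2 := by
      have h1 : (2 - R0) * (M1 - M0) = 0 := by linarith
      rcases mul_eq_zero.mp h1 with h2 | h2
      · linarith
      · exact absurd h2 hM01
    have hζ : ζ = 2 - δ := by rw [← c1, c2, hR02]; ring
    have hδM : δ * (M0 - M1) = 2 * M0 := by rw [hζ] at p1; linarith
    have hM1pos : 0 < M1 := by linarith
    -- δ ≥ 0 by positivity of ψ
    have hδ : 0 ≤ δ := by
      by_contra hneg
      push Not at hneg
      obtain ⟨n, hn⟩ := exists_nat_gt (2 / (-δ))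
      have hn' : 2 < n * (-δ) := by
        rwa [div_lt_iff₀ (by linarith)] at hn
      have h1 := P.psi (X ^ (n + 1))
      have hr1 := rec1 (2 * n + 1)
      have hr2 := rec1 (2 * n + 2)
      have hpos := P.posDef.even (n + 1)
      rw [show 2 * (n + 1) = 2 * n + 1 + 1 by ring] at hpos
      rw [← pow_add, derivative_X_pow', hq2,
        show (X * (C 2 - X) * (C (((n + 1 + (n + 1) : ℕ)) : ℝ) * X ^ (n + 1 + (n + 1) - 1))
          + (C α * X ^ 2 + C β * X + C γ) * X ^ (n + 1 + (n + 1)) : ℝ[X])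
          = C (((n + 1 + (n + 1) : ℕ)) : ℝ) * (C 2 * X ^ (2 * n + 1 + 1) - X ^ (2 * n + 1 + 2))
          + C α * X ^ (2 * n + 2 + 2) + C β * X ^ (2 * n + 1 + 2) + C γ * X ^ (2 * n + 1 + 1) by
            rw [show n + 1 + (n + 1) - 1 = 2 * n + 1 by omega]; ring] at h1
      simp only [map_add, map_sub, ev_C_mul] at h1
      rw [show 2 * n + 1 + 2 = 2 * n + 2 + 1 by ring] at h1 hr1
      have h2 : α = 1 := by linarith
      have h3 : β = -4 - δ := by linarith
      have h4 : γ = 0 := by linarith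
      rw [← hr2, ← hr1, h2, h3, h4] at h1
      push_cast at h1
      set A := φ.ev (X ^ (2 * n + 1 + 1)) with hA
      have h5 : 0 ≤ A * (2 + δ * (2 * n + 3)) := by linarith
      have h6 : 2 + δ * (2 * n + 3) < 0 := by
        have : (0:ℝ) ≤ n := by positivity
        nlinarith
      have h7 := mul_neg_of_pos_of_neg hpos h6
      linarith
    have hM : 0 < M0 - M1 := by
      have h1 : 0 < δ * (M0 - M1) := by linarith
      rcases lt_or_eq_of_le hδ with h2 | h2
      · exact (pos_iff_pos_of_mul_pos h1).mp h2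
      · rw [← h2, zero_mul] at h1; exact absurd h1 (lt_irrefl _)
    set Λ : Fn := φ.ev - (M0 - M1) • (Polynomial.leval 0 : ℝ[X] →ₗ[ℝ] ℝ) with hΛ
    have hΛe : ∀ g : ℝ[X], Λ.ev g = φ.ev g - (M0 - M1) * g.eval 0 := fun g => rfl
    refine Or.inr (Or.inr (Or.inr (Or.inr (Or.inl ⟨Λ, M0 - M1, hM, ?_, ?_, ?_⟩))))
    · rw [hΛe]; simp; linarith
    · intro g
      rw [hΛe]
      obtain ⟨k, s, rfl⟩ := exists_X_mul g
      have h1 := P.P1 k
      rw [derivative_add, derivative_mul, derivative_X, derivative_C,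
        show (X * (1 * k + X * derivative k + 0) + (1 - X) * (X * k + C s) : ℝ[X])
          = (X ^ 2 * derivative k + X * (C 2 - X) * k) + (C s * 1 - C s * X) by
            rw [two]; ring,
        map_add, h1, map_sub, ev_C_mul, ev_C_mul, ← hM0, ← hM1]
      simp
      ring
    · intro g
      rw [hΛe]; ring

/-- case B: `q4 = c X^2` -/
theorem PData.case_X2 (P : PData φ q4 h q2 q1) {c : ℝ} (hc : q4 = C c * X ^ 2) : Std φ := by
  have hcne : c ≠ 0 := by
    rintro rfl
    exact P.ne (by rw [hc]; simp)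
  have hc0 : 0 < c := by
    have h1 := P.eta 1
    have h2 : φ.ev (q4 * (1 * 1)) = c * φ.ev (X ^ (2 * 1)) := by
      rw [hc, ← ev_C_mul]; congr 1; ring
    rw [h2] at h1
    have h3 := P.posDef.even 1
    rcases lt_or_gt_of_ne hcne with h5 | h5
    · nlinarith
    · exact h5
  have hq4d : q4.natDegree = 2 := by
    rw [hc, natDegree_C_mul hcne, natDegree_X_pow]
  have hhd : h.natDegree ≤ 2 := by
    by_contra hcon
    push Not at hcon
    apply P.degree_lemma
    · omega
    · omega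
  obtain ⟨h1, hh⟩ := P.prime_dvd_h (r := C c) prime_X (by rw [hc]; ring)
  have hd1 : h1.natDegree ≤ 1 := by
    by_cases h0 : h1 = 0
    · simp [h0]
    · rw [hh, natDegree_mul X_ne_zero h0, natDegree_X] at hhd
      omega
  obtain ⟨κ, ε, hκ⟩ : ∃ κ ε : ℝ, h1 = C κ * X + C ε :=
    ⟨_, _, eq_X_add_C_of_natDegree_le_one hd1⟩
  have two : (C 2 : ℝ[X]) = 2 := rfl
  by_cases hk : κ = 0
  · exfalso
    subst hk
    have ha := P.data.a
    have h2 : h - derivative q4 = C c * (C ((ε - 2 * c) / c) * X ^ 1) := by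
      have e2 : (C c * C ((ε - 2 * c) / c) : ℝ[X]) = C ε - 2 * C c := by
        rw [← C_mul, show c * ((ε - 2 * c) / c) = ε - 2 * c by field_simp, C_sub, C_mul, two]
      rw [← mul_assoc, e2, hh, hκ, hc, derivative_C_mul, derivative_X_pow']
      simp [two]; ring
    rw [h2, hc, mul_smul, mul_smul] at ha
    have h3 := congrArg (fun v : Fn => (C c⁻¹ : ℝ[X]) • v) ha
    simp only [← mul_smul, ← mul_assoc] at h3
    rw [← C_mul, inv_mul_cancel₀ hcne, map_one, one_mul, one_mul] at h3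
    obtain ⟨N, hN⟩ := pow_torsion (m := 1) h3
    exact pow_ne_zero N X_ne_zero (P.data.tf _ hN)
  · set a : ℝ := -c / κ with ha
    have ha0 : a ≠ 0 := by rw [ha]; exact div_ne_zero (neg_ne_zero.mpr hcne) hk
    have P1 := P.pull ha0 0
    have P2 := P1.scale (k := a ^ 2 / c) (by positivity)
    apply Std.of_pull0 ha0 (b := 0)
    refine PData.lag_normal (ε := ε / c) (P2.congr ?_ ?_ rfl rfl)
    · rw [hc]
      simp only [lin, mul_comp, C_comp, X_comp, pow_comp, map_zero, add_zero]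
      rw [mul_pow, ← C_pow, ← mul_assoc, ← mul_assoc, ← mul_assoc, ← C_mul, ← C_mul, ← C_mul]
      rw [show a ^ 2 / c * (a ^ 4)⁻¹ * c * a ^ 2 = 1 by field_simp]
      simp
    · rw [hh, hκ]
      simp only [lin, add_comp, mul_comp, C_comp, X_comp, map_zero, add_zero]
      have e1 : (C (a ^ 2 / c) * C (a ^ 3)⁻¹ * C a * C ε : ℝ[X]) = C (ε / c) := by
        rw [← C_mul, ← C_mul, ← C_mul]; congr 1; field_simp
      have e2 : (C (a ^ 2 / c) * C (a ^ 3)⁻¹ * C a * C κ * C a : ℝ[X]) = -1 := by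
        rw [← C_mul, ← C_mul, ← C_mul, ← C_mul]
        rw [show a ^ 2 / c * (a ^ 3)⁻¹ * a * κ * a = a * κ / c by field_simp,
          show a * κ / c = -1 by rw [ha]; field_simp]
        simp
      rw [← e1]
      linear_combination (X ^ 2) * e2

end Pool.Agent.MP_dd438b_an
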