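import Pool.Agent.MP_dd438b_an.CaseB

set_option autoImplicit false
open Polynomial

namespace Pool.Agent.MP_dd438b_an

variable {φ : Fn} {q4 h q2 q1 : ℝ[X]}

/-- the evaluation functional -/
noncomputable def δ (a : ℝ) : Fn := (Polynomial.leval a : ℝ[X] →ₗ[ℝ] ℝ)

@[simp] theorem ev_δ (a : ℝ) (g : ℝ[X]) : (δ a).ev g = g.eval a := rfl

/-- `φ + c δ_a` -/
noncomputable def addδ (φ : Fn) (c a : ℝ) : Fn := φ.ev + c • (Polynomial.leval a : ℝ[X] →ₗ[ℝ] ℝ)

@[simp] theorem ev_addδ (φ : Fn) (c a : ℝ) (g : ℝ[X]) :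
    (addδ φ c a).ev g = φ.ev g + c * g.eval a := rfl

theorem PosDef.exp_gt {v : Fn} (hv : PosDef v) {s r : ℝ}
    (hT : ∀ k : ℝ[X], v.ev (X * (X - 1) * derivative (X * k) + (C s * X - C r) * (X * k)) = 0) :
    r < s := by
  have hrec : ∀ n : ℕ, (n + 1 + s) * v.ev (X ^ (n + 2)) = (n + 1 + r) * v.ev (X ^ (n + 1)) := by
    intro n
    have h1 := hT (X ^ n)
    rw [← pow_succ', derivative_X_pow', show (X * (X - 1) * (C ((n + 1 : ℕ) : ℝ) * X ^ (n + 1 - 1))
      + (C s * X - C r) * X ^ (n + 1) : ℝ[X]) = C ((n + 1 : ℕ) : ℝ) * X ^ (n + 2)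
        - C ((n + 1 : ℕ) : ℝ) * X ^ (n + 1) + C s * X ^ (n + 2) - C r * X ^ (n + 1) by
        rw [Nat.add_sub_cancel]; ring] at h1
    simp only [map_add, map_sub, ev_C_mul] at h1
    push_cast at h1
    linarith
  obtain ⟨j, hj⟩ := exists_nat_gt (max (-s) (-r))
  have hj1 : -s < j := lt_of_le_of_lt (le_max_left _ _) hj
  have hj2 : -r < j := lt_of_le_of_lt (le_max_right _ _) hj
  have r1 := hrec (2 * j + 1)
  have r2 := hrec (2 * j + 2)
  have p1 := hv.even (j + 1)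
  have p2 := hv.even (j + 2)
  have cs := hv.cs_mon (j + 1)
  rw [show 2 * (j + 1) + 1 = 2 * j + 3 by ring, show 2 * (j + 1) = 2 * j + 2 by ring,
    show 2 * j + 2 + 2 = 2 * j + 4 by ring] at cs
  rw [show 2 * (j + 1) = 2 * j + 2 by ring] at p1
  rw [show 2 * (j + 2) = 2 * j + 4 by ring] at p2
  rw [show 2 * j + 1 + 2 = 2 * j + 3 by ring, show 2 * j + 1 + 1 = 2 * j + 2 by ring] at r1
  rw [show 2 * j + 2 + 2 = 2 * j + 4 by ring, show 2 * j + 2 + 1 = 2 * j + 3 by ring] at r2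
  push_cast at r1 r2
  set A := v.ev (X ^ (2 * j + 2))
  set B := v.ev (X ^ (2 * j + 3))
  set E := v.ev (X ^ (2 * j + 4))
  have hj0 : (0:ℝ) ≤ j := by positivity
  set S1 := 2 * (j:ℝ) + 1 + 1 + s with hS1
  set R1 := 2 * (j:ℝ) + 1 + 1 + r with hR1
  have hS1p : 0 < S1 := by rw [hS1]; linarith
  have hR1p : 0 < R1 := by rw [hR1]; linarith
  have r2' : (S1 + 1) * E = (R1 + 1) * B := by rw [hS1, hR1]; linarith
  have hB : 0 < B := by
    have : 0 < S1 * B := by rw [r1]; positivity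
    exact (pos_iff_pos_of_mul_pos this).mp hS1p
  -- B^2 < A E ; multiply by S1 (S1+1)
  have h1 : S1 * (S1 + 1) * B ^ 2 < S1 * (S1 + 1) * (A * E) := by
    apply mul_lt_mul_of_pos_left cs; positivity
  have h2 : S1 * (S1 + 1) * B ^ 2 = (S1 + 1) * R1 * (A * B) := by
    have : S1 * (S1 + 1) * B ^ 2 = (S1 + 1) * (S1 * B) * B := by ring
    rw [this, r1]; ring
  have h3 : S1 * (S1 + 1) * (A * E) = S1 * (R1 + 1) * (A * B) := by
    have : S1 * (S1 + 1) * (A * E) = S1 * A * ((S1 + 1) * E) := by ring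
    rw [this, r2']; ring
  rw [h2, h3] at h1
  have hAB : 0 < A * B := mul_pos p1 hB
  have h4 := lt_of_mul_lt_mul_right h1 hAB.le
  have h5 : S1 - R1 = s - r := by rw [hS1, hR1]; ring
  nlinarith

/-- Jacobi type functionals -/
theorem PosDef.jacT {v : Fn} (hv : PosDef v) {α A : ℝ} (hA : A ≠ 0)
    (hT : ∀ G : ℝ[X], v.ev (X * (X - 1) * derivative G + (C (α + 2) * X - 1) * G) = A * G.eval 0) :
    JacT v := by
  have hα : -1 < α := by
    have := hv.exp_gt (s := α + 2) (r := 1) (by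
      intro k
      have := hT (X * k)
      simpa using this)
    linarith
  set Λ : Fn := addδ v A 0 with hΛ
  have hΛT : ∀ G : ℝ[X], Λ.ev (X * (X - 1) * derivative G + (C (α + 2) * X - 1) * G) = 0 := by
    intro G
    rw [hΛ, ev_addδ, hT]
    simp
  -- positivity of Λ 1
  have hΛ1 : 0 < Λ.ev 1 := by
    have m2 := hv.even 1
    have e1 := hΛT 1
    have e2 := hΛT X
    rw [derivative_one, mul_zero, zero_add, mul_one, map_sub, ev_C_mul] at e1
    rw [derivative_X, mul_one, show (X * (X - 1) + (C (α + 2) * X - 1) * X : ℝ[X])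
      = X ^ 2 + C (α + 2) * X ^ 2 - C 2 * X by
        rw [show (C 2 : ℝ[X]) = 2 from rfl]; ring, map_sub, map_add, ev_C_mul, ev_C_mul] at e2
    have e3 : Λ.ev (X ^ 2) = v.ev (X ^ (2 * 1)) := by rw [hΛ, ev_addδ]; simp
    rw [← e3] at m2
    have e4 : 0 < Λ.ev X := by nlinarith
    have : Λ.ev 1 = (α + 2) * Λ.ev X := by linarith
    rw [this]
    apply mul_pos (by linarith) e4
  -- moments in 1 - X
  have hrec : ∀ n : ℕ, (n + α + 1) * Λ.ev ((1 - X) ^ n) = (n + α + 2) * Λ.ev ((1 - X) ^ (n + 1)) := by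
    intro n
    have h1 := hΛT ((1 - X) ^ n)
    have hd : X * (X - 1) * derivative ((1 - X) ^ n : ℝ[X])
      = C (n : ℝ) * (1 - X) ^ n - C (n : ℝ) * (1 - X) ^ (n + 1) := by
      rw [derivative_pow]
      rcases n with _ | n
      · simp
      · simp only [derivative_sub, derivative_one, derivative_X, Nat.add_sub_cancel]
        ring
    rw [hd, show (C (n : ℝ) * (1 - X) ^ n - C (n : ℝ) * (1 - X) ^ (n + 1)
      + (C (α + 2) * X - 1) * (1 - X) ^ n : ℝ[X])
      = C (n + α + 1) * (1 - X) ^ n - C (n + α + 2) * (1 - X) ^ (n + 1) by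
        simp only [C_add, map_one]
        rw [show (C 2 : ℝ[X]) = 2 from rfl]; ring, map_sub, ev_C_mul, ev_C_mul] at h1
    linarith
  have hclosed : ∀ n : ℕ, (n + α + 1) * Λ.ev ((1 - X) ^ n) = (α + 1) * Λ.ev 1 := by
    intro n
    induction n with
    | zero => simp
    | succ n ih => rw [← ih, hrec n]; push_cast; ring
  have hM : 0 < -A := by
    rcases lt_or_gt_of_ne hA with h1 | h1
    · linarith
    · exfalso
      obtain ⟨j, hj⟩ := exists_nat_gt ((α + 1) * Λ.ev 1 / A)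
      rw [div_lt_iff₀ h1] at hj
      have h2 := hclosed (2 * j)
      have h3 := hv ((1 - X) ^ j) (by
        apply pow_ne_zero
        intro h0
        have := congrArg (eval 0) h0
        simp at this)
      rw [← pow_add, ← two_mul] at h3
      have h4 : Λ.ev ((1 - X) ^ (2 * j)) = v.ev ((1 - X) ^ (2 * j)) + A := by
        rw [hΛ, ev_addδ]; simp
      rw [h4] at h2
      push_cast at h2
      have hj0 : (0:ℝ) ≤ j := by positivity
      have h5 : (2 * j + α + 1) * (v.ev ((1 - X) ^ (2 * j)) + A) > (2 * j + α + 1) * A := by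
        apply mul_lt_mul_of_pos_left (by linarith); linarith
      have h6 : (2 * (j:ℝ) + α + 1) * A > j * A := by
        apply mul_lt_mul_of_pos_right (by linarith) h1
      linarith
  refine ⟨α, Λ, -A, hα, hM, hΛ1, ?_, ?_⟩
  · intro g
    have := hΛT g
    rw [show (X * (1 - X) * derivative g + (1 - C (α + 2) * X) * g : ℝ[X])
      = - (X * (X - 1) * derivative g + (C (α + 2) * X - 1) * g) by ring, map_neg, this, neg_zero]
  · intro g
    rw [hΛ, ev_addδ]; ring

/-- Legendre type functionals -/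
theorem PosDef.legT {v : Fn} (hv : PosDef v) {M : ℝ} (hM0 : M ≠ 0)
    (hT : ∀ G : ℝ[X], v.ev ((1 - X ^ 2) * derivative G - 2 * X * G)
      = 2 * M * (G.eval (-1) - G.eval 1)) : LegT v := by
  set Λ : Fn := addδ (addδ v (-M) (-1)) (-M) 1 with hΛ
  have hΛe : ∀ g : ℝ[X], Λ.ev g = v.ev g - M * (g.eval (-1) + g.eval 1) := by
    intro g; rw [hΛ, ev_addδ, ev_addδ]; ring
  have hΛT : ∀ G : ℝ[X], Λ.ev ((1 - X ^ 2) * derivative G - 2 * X * G) = 0 := by
    intro G
    rw [hΛe, hT]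
    simp
    ring
  have hrec : ∀ n : ℕ, (n + 3) * Λ.ev (X ^ (n + 2)) = (n + 1) * Λ.ev (X ^ n) := by
    intro n
    have h1 := hΛT (X ^ (n + 1))
    rw [derivative_X_pow', show ((1 - X ^ 2) * (C ((n + 1 : ℕ) : ℝ) * X ^ (n + 1 - 1))
      - 2 * X * X ^ (n + 1) : ℝ[X]) = C ((n + 1 : ℕ) : ℝ) * X ^ n
      - C ((n + 1 : ℕ) : ℝ) * X ^ (n + 2) - C 2 * X ^ (n + 2) by
        rw [Nat.add_sub_cancel, show (C 2 : ℝ[X]) = 2 from rfl]; ring,
      map_sub, map_sub, ev_C_mul, ev_C_mul, ev_C_mul] at h1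
    push_cast at h1
    linarith
  have hΛ1 : 0 < Λ.ev 1 := by
    have h1 := hv (1 - X ^ 2) (by
      intro h0
      have := congrArg (eval 0) h0
      simp at this)
    have h2 : Λ.ev ((1 - X ^ 2) * (1 - X ^ 2)) = v.ev ((1 - X ^ 2) * (1 - X ^ 2)) := by
      rw [hΛe]; simp
    rw [← h2, show ((1 - X ^ 2) * (1 - X ^ 2) : ℝ[X]) = 1 - C 2 * X ^ 2 + X ^ 4 by
      rw [show (C 2 : ℝ[X]) = 2 from rfl]; ring, map_add, map_sub, ev_C_mul] at h1
    have r0 := hrec 0
    have r2 := hrec 2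
    norm_num at r0 r2
    linarith
  have hclosed : ∀ j : ℕ, (2 * j + 1) * Λ.ev (X ^ (2 * j)) = Λ.ev 1 := by
    intro j
    induction j with
    | zero => simp
    | succ j ih =>
      have h1 := hrec (2 * j)
      rw [show 2 * (j + 1) = 2 * j + 2 by ring]
      push_cast at h1 ⊢
      linarith
  have hM : 0 < M := by
    rcases lt_or_gt_of_ne hM0 with h1 | h1
    · exfalso
      obtain ⟨j, hj⟩ := exists_nat_gt (Λ.ev 1 / (-M))
      rw [div_lt_iff₀ (by linarith)] at hj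
      have h2 := hclosed j
      have h3 := hv.even j
      have h4 : Λ.ev (X ^ (2 * j)) = v.ev (X ^ (2 * j)) - 2 * M := by
        rw [hΛe]; simp; ring
      rw [h4] at h2
      have hj0 : (0:ℝ) ≤ j := by positivity
      have h5 : (2 * (j:ℝ) + 1) * (v.ev (X ^ (2 * j)) - 2 * M) > (2 * j + 1) * (-2 * M) := by
        apply mul_lt_mul_of_pos_left (by linarith); linarith
      have h6 : (2 * (j:ℝ) + 1) * (-2 * M) ≥ j * (-M) := by nlinarith
      linarith
    · exact h1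
  refine ⟨Λ, M, hM, hΛ1, hΛT, ?_⟩
  intro g
  rw [hΛe]; ring

end Pool.Agent.MP_dd438b_an
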