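import Pool.Agent.MP_dd438b_an.CaseV

set_option autoImplicit false
open Polynomial

namespace Pool.Agent.MP_dd438b_an

variable {φ : Fn} {q4 h q2 q1 : ℝ[X]}

theorem decomp01 (G : ℝ[X]) : ∃ k : ℝ[X],
    G = C (G.eval 0) * (1 - X) + C (G.eval 1) * X + X * (X - 1) * k := by
  set F := G - (C (G.eval 0) * (1 - X) + C (G.eval 1) * X) with hF
  have h0 : (X - C (0:ℝ)) ∣ F := by
    rw [dvd_iff_isRoot, IsRoot.def, hF]; simp
  have h1 : (X - C (1:ℝ)) ∣ F := by
    rw [dvd_iff_isRoot, IsRoot.def, hF]; simp
  have hc : IsCoprime (X - C (0:ℝ)) (X - C (1:ℝ)) :=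
    isCoprime_X_sub_C_of_isUnit_sub (by simp)
  obtain ⟨k, hk⟩ := hc.mul_dvd h0 h1
  refine ⟨k, ?_⟩
  have : G = (C (G.eval 0) * (1 - X) + C (G.eval 1) * X) + F := by rw [hF]; ring
  rw [this, hk]
  simp

theorem two_eq : (C 2 : ℝ[X]) = 2 := rfl

/-- normalised case V -/
theorem jac_normal {u t : ℝ}
    (P : PData φ ((X * (X - 1)) ^ 2) (X * (X - 1) * (C u * X + C t)) q2 q1) : Std φ := by
  obtain ⟨α, β, γ, hq2⟩ : ∃ α β γ : ℝ, q2 = C α * X ^ 2 + C β * X + C γ :=
    ⟨_, _, _, eq_quadratic_of_degree_le_two (natDegree_le_iff_degree_le.mp P.d2)⟩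
  obtain ⟨dl, ζ, hq1⟩ : ∃ dl ζ : ℝ, q1 = C dl * X + C ζ :=
    ⟨_, _, eq_X_add_C_of_natDegree_le_one P.d1⟩
  obtain ⟨R2, hR2⟩ : ∃ R2 : ℝ, R2 = u ^ 2 - u - α := ⟨_, rfl⟩
  obtain ⟨R1, hR1⟩ : ∃ R1 : ℝ, R1 = 2 * u * t - 2 * t - β := ⟨_, rfl⟩
  obtain ⟨R0, hR0⟩ : ∃ R0 : ℝ, R0 = t ^ 2 + t - γ := ⟨_, rfl⟩
  obtain ⟨R, hR⟩ : ∃ R : ℝ[X], R = C R2 * X ^ 2 + C R1 * X + C R0 := ⟨_, rfl⟩
  obtain ⟨h1, hh1⟩ : ∃ h1 : ℝ[X], h1 = C u * X + C t := ⟨_, rfl⟩
  have hdσ : derivative (X * (X - 1) : ℝ[X]) = 2 * X - 1 := by
    rw [derivative_mul, derivative_X, derivative_sub, derivative_X, derivative_one]; ring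
  have hd4 : derivative ((X * (X - 1)) ^ 2 : ℝ[X]) = 2 * (X * (X - 1)) * (2 * X - 1) := by
    rw [pow_two, derivative_mul, hdσ]; ring
  have hdh1 : derivative h1 = C u := by
    rw [hh1]; simp
  have hdR : derivative R = C (2 * R2) * X + C R1 := by
    rw [hR, derivative_add, derivative_add, derivative_C_mul, derivative_X_pow', derivative_C_mul,
      derivative_X, derivative_C, C_mul, two_eq]
    simp [two_eq]
    ring
  rw [← hh1] at P
  have hRq : R = X * (X - 1) * C u + h1 * h1 - (2 * X - 1) * h1 - q2 := by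
    rw [hR, hh1, hq2, hR2, hR1, hR0]
    simp only [C_add, C_mul, C_sub, C_pow, two_eq]
    ring
  have hN : NN ((X * (X - 1)) ^ 2) (X * (X - 1) * h1) q2 = (X * (X - 1)) ^ 2 * R := by
    unfold NN
    rw [derivative_mul, hdσ, hd4, hdh1, hRq]
    ring
  have hσ0 : (X * (X - 1) : ℝ[X]) ≠ 0 := by
    intro h0
    have := congrArg (eval 2) h0
    norm_num at this
  have hF : R * (2 * (2 * X - 1) - h1) = X * (X - 1) * (derivative R + q1) := by
    have hf := P.data.f
    rw [hN, hd4, derivative_mul, hd4] at hf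
    apply mul_left_cancel₀ (pow_ne_zero 3 hσ0)
    linear_combination hf
  have F0 : R0 * (t + 2) = 0 := by
    have := congrArg (eval 0) hF
    rw [hR, hh1] at this
    simp at this
    rcases this with h | h
    · rw [h]; ring
    · have : t + 2 = 0 := by linarith
      rw [this]; ring
  have F1 : (R2 + R1 + R0) * (u + t - 2) = 0 := by
    have := congrArg (eval 1) hF
    rw [hR, hh1] at this
    simp at this
    rcases this with h | h
    · rw [h]; ring
    · have : u + t - 2 = 0 := by linarith
      rw [this]; ring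
  -- the functional T
  obtain ⟨T, hT⟩ : ∃ T : Fn, ∀ G : ℝ[X], T.ev G
      = φ.ev (X * (X - 1) * derivative G + (h1 - (2 * X - 1)) * G) := by
    refine ⟨(h1 - (2 * X - 1) : ℝ[X]) • φ - dd ((X * (X - 1) : ℝ[X]) • φ), fun G => ?_⟩
    rw [ev_sub, ev_smul, ev_dd, ev_smul, map_add]; ring
  have hTσ : ∀ k : ℝ[X], T.ev (X * (X - 1) * k) = 0 := by
    intro k
    rw [hT, derivative_mul, hdσ, ← P.P1 k]
    congr 1; ring
  have hTAB : ∀ G : ℝ[X], T.ev G = T.ev (1 - X) * G.eval 0 + T.ev X * G.eval 1 := by
    intro G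
    obtain ⟨k, hk⟩ := decomp01 G
    conv_lhs => rw [hk]
    rw [map_add, map_add, hTσ, ev_C_mul, ev_C_mul]; ring
  set A := T.ev (1 - X) with hA
  set B := T.ev X with hB
  have hP2 : ∀ g : ℝ[X], T.ev (h1 * derivative g) - φ.ev (R * derivative g) + φ.ev (q1 * g) = 0 := by
    intro g
    rw [hT, ← map_sub, ← map_add, ← P.P2 g, derivative_mul, hdh1, hRq]
    congr 1; ring
  have hTR : ∀ G : ℝ[X], T.ev ((h1 * (2 * X - 1) - R) * G) = 0 := by
    intro G
    have e1 := hP2 (X * (X - 1) * G)
    have e2 := hT (R * G)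
    have e3 := hTσ (h1 * derivative G)
    have e4 : T.ev (h1 * derivative (X * (X - 1) * G)) = T.ev (h1 * (2 * X - 1) * G) := by
      rw [derivative_mul, hdσ, show h1 * ((2 * X - 1) * G + X * (X - 1) * derivative G)
        = h1 * (2 * X - 1) * G + X * (X - 1) * (h1 * derivative G) by ring, map_add, e3, add_zero]
    rw [sub_mul, map_sub, ← e4, e2]
    have e5 : T.ev (h1 * derivative (X * (X - 1) * G))
        = φ.ev (R * derivative (X * (X - 1) * G)) - φ.ev (q1 * (X * (X - 1) * G)) := by linarith
    rw [e5, ← map_sub, ← map_sub]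
    have e6 : R * derivative (X * (X - 1) * G) - q1 * (X * (X - 1) * G)
        - (X * (X - 1) * derivative (R * G) + (h1 - (2 * X - 1)) * (R * G)) = 0 := by
      rw [derivative_mul, hdσ, derivative_mul]
      linear_combination G * hF
    rw [e6, map_zero]
  have hAR : A * (t + R0) = 0 := by
    have e1 := hTR (1 - X)
    rw [hTAB, hR, hh1] at e1
    simp at e1
    rcases e1 with h | h
    · rw [h]; ring
    · have : t + R0 = 0 := by linarith
      rw [this]; ring
  have hBR : B * (u + t - (R2 + R1 + R0)) = 0 := by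
    have e1 := hTR X
    rw [hTAB, hR, hh1] at e1
    simp at e1
    rcases e1 with h | h
    · rw [h]; ring
    · have : u + t - (R2 + R1 + R0) = 0 := by linarith
      rw [this]; ring
  -- exclusion of t = 0 and u + t = 0
  have ht0 : t ≠ 0 := by
    rintro rfl
    have hv := P.posDef.smul_sq (p := X) X_ne_zero
    have key : ∀ n : ℕ, (n + u) * ((X * X : ℝ[X]) • φ).ev ((X - 1) ^ (n + 1)) = 0 := by
      intro n
      have e1 := P.P1 ((X - 1) ^ n)
      rw [hh1] at e1
      rw [ev_smul]
      rcases n with _ | n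
      · simp only [pow_zero, derivative_one, mul_zero, zero_add, mul_one, map_zero, add_zero] at e1
        rw [show (X * (X - 1) * (C u * X) : ℝ[X]) = C u * (X * X * (X - 1) ^ (0 + 1)) by ring,
          ev_C_mul] at e1
        simpa using e1
      · rw [derivative_pow, derivative_sub, derivative_X, derivative_one, map_zero, add_zero,
          show ((X * (X - 1)) ^ 2 * (C ((n + 1 : ℕ) : ℝ) * (X - 1) ^ (n + 1 - 1) * (1 - 0))
            + X * (X - 1) * (C u * X) * (X - 1) ^ (n + 1) : ℝ[X])
            = C (((n + 1 : ℕ) : ℝ) + u) * (X * X * (X - 1) ^ (n + 1 + 1)) by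
              rw [Nat.add_sub_cancel, C_add]; ring, ev_C_mul] at e1
        exact e1
    have pos : ∀ j : ℕ, 0 < ((X * X : ℝ[X]) • φ).ev ((X - 1) ^ (2 * j)) := by
      intro j
      have := hv ((X - 1) ^ j) (pow_ne_zero _ (X_sub_C_ne_zero 1))
      rwa [← pow_add, ← two_mul] at this
    have k1 := key 1
    have k3 := key 3
    have p1 := pos 1
    have p2 := pos 2
    norm_num at k1 k3 p1 p2
    rcases k1 with k1 | k1
    · rcases k3 with k3 | k3
      · linarith
      · linarith
    · linarith
  have hw0 : u + t ≠ 0 := by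
    intro hut
    have htu : t = -u := by linarith
    have hv := P.posDef.smul_sq (p := X - 1) (X_sub_C_ne_zero 1)
    have key : ∀ n : ℕ, (n + u) * (((X - 1) * (X - 1) : ℝ[X]) • φ).ev (X ^ (n + 1)) = 0 := by
      intro n
      have e1 := P.P1 (X ^ n)
      rw [hh1, htu, map_neg] at e1
      rw [ev_smul]
      rcases n with _ | n
      · simp only [pow_zero, derivative_one, mul_zero, zero_add, mul_one] at e1
        rw [show (X * (X - 1) * (C u * X + -C u) : ℝ[X])
          = C u * ((X - 1) * (X - 1) * X ^ (0 + 1)) by ring, ev_C_mul] at e1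
        simpa using e1
      · rw [derivative_X_pow',
          show ((X * (X - 1)) ^ 2 * (C ((n + 1 : ℕ) : ℝ) * X ^ (n + 1 - 1))
            + X * (X - 1) * (C u * X + -C u) * X ^ (n + 1) : ℝ[X])
            = C (((n + 1 : ℕ) : ℝ) + u) * ((X - 1) * (X - 1) * X ^ (n + 1 + 1)) by
              rw [Nat.add_sub_cancel, C_add]; ring, ev_C_mul] at e1
        exact e1
    have k1 := key 1
    have k3 := key 3
    have p1 := hv.even 1
    have p2 := hv.even 2
    norm_num at k1 k3 p1 p2
    rcases k1 with k1 | k1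
    · rcases k3 with k3 | k3
      · linarith
      · linarith
    · linarith
  -- reflected functional
  have href : ∀ G : ℝ[X], (pull (-1) 1 φ).ev (X * (X - 1) * derivative G
      + (C (u - 2) * X - C (u + t - 1)) * G) = - T.ev (G.comp (lin (-1) 1)) := by
    intro G
    have hne : (-1 : ℝ) ≠ 0 := by norm_num
    obtain ⟨g, rfl⟩ := exists_comp hne 1 G
    have e0 : (g.comp (lin (-1) 1)).comp (lin (-1) 1) = g := by
      rw [comp_assoc, show (lin (-1) 1).comp (lin (-1) 1) = X by
        simp only [lin, add_comp, mul_comp, C_comp, X_comp]; simp, comp_X]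
    rw [e0, hT, ← map_neg, ← ev_pull_comp hne 1 φ, derivative_comp_lin]
    congr 1
    rw [neg_comp, add_comp, mul_comp, mul_comp, mul_comp, hh1]
    simp only [lin, add_comp, mul_comp, sub_comp, C_comp, X_comp, one_comp, C_add, C_sub, map_neg,
      map_one, ofNat_comp]
    rw [two_eq]
    ring
  have hPr : PosDef (pull (-1) 1 φ) := P.posDef.pull (by norm_num) 1
  by_cases hA0 : A = 0
  · by_cases hB0 : B = 0
    · -- classical Jacobi
      have hT0 : ∀ G : ℝ[X], T.ev G = 0 := by
        intro G; rw [hTAB, hA0, hB0]; ring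
      have hα : -1 < u + t - 2 := by
        have := P.posDef.exp_gt (s := u - 2) (r := -(t + 1)) (by
          intro k
          have e1 := hT0 (X * k)
          rw [hT, hh1] at e1
          rw [← e1]; congr 1
          simp only [C_sub, C_neg, C_add, map_one, two_eq]; ring)
        linarith
      have hβ : -1 < -t - 2 := by
        have := hPr.exp_gt (s := u - 2) (r := u + t - 1) (by
          intro k
          rw [href, hT0, neg_zero])
        linarith
      have h2 : (1 / 2 : ℝ) ≠ 0 := by norm_num
      apply Std.of_pull0 (a := 1 / 2) (b := 1 / 2) h2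
      refine ⟨(P.posDef.pull h2 _).one, Or.inr (Or.inr (Or.inl ⟨u + t - 2, -t - 2, hα, hβ, ?_⟩))⟩
      intro G
      obtain ⟨g, rfl⟩ := exists_comp h2 (1 / 2) G
      have e1 := hT0 g
      rw [hT, ← ev_pull_comp h2 (1 / 2)] at e1
      rw [derivative_comp_lin]
      have e2 : (1 - X ^ 2) * (C (1 / 2) * (derivative g).comp (lin (1 / 2) (1 / 2)))
          + (C (-t - 2 - (u + t - 2)) - C (u + t - 2 + (-t - 2) + 2) * X)
            * g.comp (lin (1 / 2) (1 / 2))
          = C (-2) * (X * (X - 1) * derivative g + (h1 - (2 * X - 1)) * g).comp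
            (lin (1 / 2) (1 / 2)) := by
        have hhalf : (C (1 / 2) * 2 : ℝ[X]) = 1 := by
          rw [← two_eq, ← C_mul]; norm_num
        rw [add_comp, mul_comp, mul_comp, mul_comp, hh1]
        simp only [lin, add_comp, mul_comp, sub_comp, C_comp, X_comp, one_comp, C_add, C_sub,
          map_neg, ofNat_comp, two_eq]
        linear_combination ((derivative g).comp (C (1/2) * X + C (1/2)) * C (1 / 2) * (X + 1) ^ 2
          + g.comp (C (1/2) * X + C (1/2)) * (X + 1) * (C u - 2)) * hhalf
      rw [e2, ev_C_mul, e1, mul_zero]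
    · -- A = 0, B ≠ 0 : Jacobi type after reflection
      have hw : R2 + R1 + R0 = u + t := by
        rcases mul_eq_zero.mp hBR with h | h
        · exact absurd h hB0
        · linarith
      have hw2 : u + t = 2 := by
        rw [hw] at F1
        rcases mul_eq_zero.mp F1 with h | h
        · exact absurd h hw0
        · linarith
      apply Std.of_pull0 (a := -1) (b := 1) (by norm_num)
      refine ⟨hPr.one, Or.inr (Or.inr (Or.inr (Or.inr (Or.inr ?_))))⟩
      apply hPr.jacT (α := u - 4) (A := -B) (neg_ne_zero.mpr hB0)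
      intro G
      have e1 := href G
      rw [hTAB, hA0, hw2] at e1
      rw [show u - 4 + 2 = u - 2 by ring]
      have e2 : (C (2 - 1) : ℝ[X]) = 1 := by norm_num
      rw [e2] at e1
      rw [e1]
      simp [lin]
  · have hR0t : R0 = - t := by
      rcases mul_eq_zero.mp hAR with h | h
      · exact absurd h hA0
      · linarith
    have ht2 : t = -2 := by
      rw [hR0t] at F0
      rcases mul_eq_zero.mp F0 with h | h
      · exact absurd (by linarith) ht0
      · linarith
    by_cases hB0 : B = 0
    · -- A ≠ 0, B = 0 : Jacobi type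
      apply Std.of_std0
      refine ⟨P.posDef.one, Or.inr (Or.inr (Or.inr (Or.inr (Or.inr ?_))))⟩
      apply P.posDef.jacT (α := u - 4) (A := A) hA0
      intro G
      have e1 := hTAB G
      rw [hB0, zero_mul, add_zero] at e1
      rw [← e1, hT, hh1, ht2]
      congr 1
      rw [show u - 4 + 2 = u - 2 by ring, C_sub, C_neg, two_eq]
      ring
    · -- Legendre type
      have hw : R2 + R1 + R0 = u + t := by
        rcases mul_eq_zero.mp hBR with h | h
        · exact absurd h hB0
        · linarith
      have hw2 : u + t = 2 := by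
        rw [hw] at F1
        rcases mul_eq_zero.mp F1 with h | h
        · exact absurd h hw0
        · linarith
      have hu : u = 4 := by linarith
      have hR0' : R0 = 2 := by linarith
      have hR1' : R1 = - R2 := by linarith
      have hh : h1 = 2 * (2 * X - 1) := by
        rw [hh1, hu, ht2, C_neg, two_eq, show (C 4 : ℝ[X]) = 4 from rfl]; ring
      have hq1' : q1 = - derivative R := by
        have e1 : X * (X - 1) * (derivative R + q1) = 0 := by
          rw [← hF, hh]; ring
        have e2 := (mul_eq_zero.mp e1).resolve_left hσ0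
        linear_combination e2
      have hTG : ∀ G : ℝ[X], T.ev G = φ.ev (derivative (X * (X - 1) * G)) := by
        intro G
        rw [hT, hh, derivative_mul, hdσ]; congr 1; ring
      have hT1 : φ.ev (2 * X - 1) = A + B := by
        have e1 := hTG 1
        rw [hTAB, mul_one, hdσ] at e1
        simp only [eval_one, mul_one] at e1
        linarith
      have e0 := hP2 1
      rw [derivative_one, mul_zero, mul_zero, map_zero, map_zero, sub_zero, zero_add, mul_one,
        hq1', map_neg, hdR, hR1', show (C (2 * R2) * X + C (-R2) : ℝ[X]) = C R2 * (2 * X - 1) by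
          rw [C_mul, C_neg, two_eq]; ring, ev_C_mul, hT1, neg_eq_zero] at e0
      have hAB : A + B = 0 := by
        rcases mul_eq_zero.mp e0 with h | h
        · exfalso
          have hR2' : R = C 2 := by
            rw [hR, hR1', h, hR0']; simp
          have e1 := hP2 X
          rw [derivative_X, mul_one, mul_one, hq1', hR2', derivative_C, neg_zero, zero_mul,
            map_zero, add_zero, ← mul_one (C 2), ev_C_mul, hTAB, hh] at e1
          simp at e1
          have e2 := hTAB (C (1 / 30) * (6 * X ^ 3 - 9 * X ^ 2 + X + 1))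
          rw [hTG] at e2
          have e3 : derivative (X * (X - 1) * (C (1 / 30) * (6 * X ^ 3 - 9 * X ^ 2 + X + 1)) : ℝ[X])
              = (X * (X - 1)) * (X * (X - 1)) - C (1 / 30) * 1 := by
            have e4 : (X * (X - 1) * (C (1 / 30) * (6 * X ^ 3 - 9 * X ^ 2 + X + 1)) : ℝ[X])
              = C (1 / 30) * (C 6 * X ^ 5 - C 15 * X ^ 4 + C 10 * X ^ 3 - X) := by
              rw [show (C 6 : ℝ[X]) = 6 from rfl, show (C 15 : ℝ[X]) = 15 from rfl,
                show (C 10 : ℝ[X]) = 10 from rfl]; ring
            rw [e4, derivative_C_mul]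
            simp only [derivative_sub, derivative_add, derivative_C_mul, derivative_X_pow',
              derivative_X]
            have e5 : (C (1 / 30) * 30 : ℝ[X]) = 1 := by
              rw [show (30 : ℝ[X]) = C 30 from rfl, ← C_mul]; norm_num
            push_cast
            rw [show (C 6 : ℝ[X]) = 6 from rfl, show (C 15 : ℝ[X]) = 15 from rfl,
                show (C 10 : ℝ[X]) = 10 from rfl, show (C 5 : ℝ[X]) = 5 from rfl,
                show (C 4 : ℝ[X]) = 4 from rfl, show (C 3 : ℝ[X]) = 3 from rfl]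
            norm_num
            linear_combination (X ^ 4 - 2 * X ^ 3 + X ^ 2) * e5
          rw [e3, map_sub, ev_C_mul] at e2
          simp at e2
          have e6 := P.posDef (X * (X - 1)) hσ0
          linarith
        · exact h
      have h2 : (1 / 2 : ℝ) ≠ 0 := by norm_num
      apply Std.of_pull0 (a := 1 / 2) (b := 1 / 2) h2
      refine ⟨(P.posDef.pull h2 _).one, Or.inr (Or.inr (Or.inr (Or.inl ?_)))⟩
      apply (P.posDef.pull h2 _).legT hB0
      intro G
      obtain ⟨g, rfl⟩ := exists_comp h2 (1 / 2) G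
      have e1 := hTAB g
      rw [hTG, ← ev_pull_comp h2 (1 / 2) φ] at e1
      rw [derivative_comp_lin]
      have e2 : (1 - X ^ 2) * (C (1 / 2) * (derivative g).comp (lin (1 / 2) (1 / 2)))
          - 2 * X * g.comp (lin (1 / 2) (1 / 2))
          = C (-2) * (derivative (X * (X - 1) * g)).comp (lin (1 / 2) (1 / 2)) := by
        have hhalf : (C (1 / 2) * 2 : ℝ[X]) = 1 := by
          rw [← two_eq, ← C_mul]; norm_num
        rw [derivative_mul, hdσ, add_comp, mul_comp, mul_comp, mul_comp]
        simp only [lin, add_comp, mul_comp, sub_comp, C_comp, X_comp, one_comp, C_neg,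
          ofNat_comp, two_eq]
        linear_combination ((derivative g).comp (C (1/2) * X + C (1/2)) * C (1 / 2) * (X + 1) ^ 2
          + 2 * g.comp (C (1/2) * X + C (1/2)) * (X + 1)) * hhalf
      rw [e2, ev_C_mul, e1, eval_comp, eval_comp]
      have hA' : A = - B := by linarith
      rw [hA']
      simp [lin]
      norm_num
      ring

end Pool.Agent.MP_dd438b_an
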