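import Pool.Agent.MP_dd438b_an.PData

set_option autoImplicit false
open Polynomial

namespace Pool.Agent.MP_dd438b_an

variable {φ : Fn} {q4 h q2 q1 : ℝ[X]}

/-- a prime whose square divides `q4` divides `h` -/
theorem PData.prime_dvd_h (P : PData φ q4 h q2 q1) {p : ℝ[X]} (hp : Prime p) {r : ℝ[X]}
    (hr : q4 = p * p * r) : p ∣ h := by
  have hf := P.data.f
  have hd : derivative q4 = p * (2 * derivative p * r + p * derivative r) := by
    rw [hr, derivative_mul, derivative_mul]; ring
  set k := 2 * derivative p * r + p * derivative r with hk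
  have hN : NN q4 h q2 = p * (p * r * (derivative h - q2)) + h * (h - p * k) := by
    unfold NN; rw [hd]; nth_rewrite 1 [hr]; nth_rewrite 1 [hr]; ring
  apply hp.dvd_of_dvd_pow (n := 3)
  refine ⟨p * r * (derivative h - q2) * (2 * (p * k) - h) + 2 * k * h ^ 2
    - h * k * (2 * (p * k) - h) - p * r * (derivative (NN q4 h q2) + q4 * q1), ?_⟩
  rw [hd] at hf
  have hf2 : NN q4 h q2 * (2 * (p * k) - h)
      = p * p * r * (derivative (NN q4 h q2) + q4 * q1) := by
    rw [hf]; nth_rewrite 1 [hr]; ring
  set M := derivative (NN q4 h q2) + q4 * q1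
  rw [hN] at hf2
  linear_combination -hf2

/-- if `X^3` divides `q4` then `X^2` divides `h` -/
theorem PData.X2_dvd_h (P : PData φ q4 h q2 q1) {r : ℝ[X]}
    (hr : q4 = X ^ 3 * r) : X ^ 2 ∣ h := by
  obtain ⟨h1, hh1⟩ := P.prime_dvd_h (r := X * r) prime_X (by rw [hr]; ring)
  have hf := P.data.f
  have hd : derivative q4 = X ^ 2 * (3 * r + X * derivative r) := by
    rw [hr, derivative_mul, derivative_X_pow]
    simp only [Nat.add_one_sub_one, Nat.cast_ofNat]
    have : (C 3 : ℝ[X]) = 3 := rfl
    rw [this]; ring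
  set k := 3 * r + X * derivative r with hk
  set A := derivative h - q2 with hA
  have hN : NN q4 h q2 = X ^ 2 * (X * r * A + h1 * (h1 - X * k)) := by
    unfold NN; rw [hd]
    have : q4 * derivative h + h * (h - X ^ 2 * k) - q4 * q2 = q4 * A + h * (h - X ^ 2 * k) := by
      rw [hA]; ring
    rw [this, hr, hh1]; ring
  set N2 := X * r * A + h1 * (h1 - X * k) with hN2
  have hdN : derivative (NN q4 h q2) = X * (2 * N2 + X * derivative N2) := by
    rw [hN, derivative_mul, derivative_X_pow]
    simp only [Nat.add_one_sub_one, Nat.cast_ofNat]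
    have : (C 2 : ℝ[X]) = 2 := rfl
    rw [this]; ring
  rw [hdN, hN, hd] at hf
  have h3 : X ^ 3 * (N2 * (2 * X * k - h1)) = X ^ 3 * (X * r * (2 * N2 + X * derivative N2
      + X ^ 2 * r * q1)) := by
    calc X ^ 3 * (N2 * (2 * X * k - h1)) = X ^ 2 * N2 * (2 * (X ^ 2 * k) - X * h1) := by ring
      _ = X ^ 2 * N2 * (2 * (X ^ 2 * k) - h) := by rw [hh1]
      _ = _ := hf
      _ = _ := by rw [hr]; ring
  have h4 := mul_left_cancel₀ (pow_ne_zero 3 X_ne_zero) h3
  have h5 : X ∣ h1 := by
    apply prime_X.dvd_of_dvd_pow (n := 3)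
    refine ⟨r * A * (2 * X * k - h1) + 2 * k * h1 ^ 2 - h1 * k * (2 * X * k - h1)
      - r * (2 * N2 + X * derivative N2 + X ^ 2 * r * q1), ?_⟩
    set M := 2 * N2 + X * derivative N2 + X ^ 2 * r * q1
    rw [hN2] at h4
    linear_combination -h4
  obtain ⟨t, ht⟩ := h5
  exact ⟨t, by rw [hh1, ht]; ring⟩

/-- the degree lemma at infinity -/
theorem PData.degree_lemma (P : PData φ q4 h q2 q1) (h1 : q4.natDegree ≤ h.natDegree)
    (h2 : q4.natDegree + 3 ≤ 2 * h.natDegree) : False := by
  have hf := P.data.f
  set d := q4.natDegree with hd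
  set k := h.natDegree with hk
  have hk0 : 2 ≤ k := by omega
  have hh0 : h ≠ 0 := by
    rintro rfl
    simp at hk; omega
  have hdq : (derivative q4).natDegree < k := by
    have := natDegree_derivative_le q4
    omega
  have e1 : (h - derivative q4).natDegree = k := by
    rw [natDegree_sub_eq_left_of_natDegree_lt]
    omega
  have e2 : (h - derivative q4) ≠ 0 := by
    intro h0; rw [h0] at e1; simp at e1; omega
  have e3 : (h * (h - derivative q4)).natDegree = 2 * k := by
    rw [natDegree_mul hh0 e2, e1]; omega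
  have e4 : (q4 * (derivative h - q2)).natDegree < 2 * k := by
    have a1 := natDegree_derivative_le h
    have a2 := P.d2
    have a3 := natDegree_sub_le (derivative h) q2
    have a4 : (q4 * (derivative h - q2)).natDegree ≤ d + (derivative h - q2).natDegree :=
      natDegree_mul_le
    have a5 : max (derivative h).natDegree q2.natDegree ≤ max (k - 1) 2 := max_le_max a1 a2
    have a6 : (derivative h - q2).natDegree ≤ max (k - 1) 2 := a3.trans a5
    rcases le_total (k - 1) 2 with h5 | h5
    · rw [max_eq_right h5] at a6; omega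
    · rw [max_eq_left h5] at a6; omega
  have hN : NN q4 h q2 = q4 * (derivative h - q2) + h * (h - derivative q4) := by
    unfold NN; ring
  have e5 : (NN q4 h q2).natDegree = 2 * k := by
    rw [hN, natDegree_add_eq_right_of_natDegree_lt (by rw [e3]; exact e4), e3]
  have e6 : NN q4 h q2 ≠ 0 := by
    intro h0; rw [h0] at e5; simp at e5; omega
  have e7 : (2 * derivative q4 - h).natDegree = k := by
    rw [natDegree_sub_eq_right_of_natDegree_lt]
    calc (2 * derivative q4).natDegree = (C 2 * derivative q4).natDegree := rfl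
      _ ≤ (derivative q4).natDegree := natDegree_C_mul_le _ _
      _ < k := hdq
  have e8 : (2 * derivative q4 - h) ≠ 0 := by
    intro h0; rw [h0] at e7; simp at e7; omega
  have e9 : (NN q4 h q2 * (2 * derivative q4 - h)).natDegree = 3 * k := by
    rw [natDegree_mul e6 e8, e5, e7]; omega
  have e10 : (q4 * (derivative (NN q4 h q2) + q4 * q1)).natDegree < 3 * k := by
    have a1 := natDegree_derivative_le (NN q4 h q2)
    have a2 := P.d1
    have a3 : (q4 * q1).natDegree ≤ d + q1.natDegree := natDegree_mul_le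
    have a4 := natDegree_add_le (derivative (NN q4 h q2)) (q4 * q1)
    have a5 : (q4 * (derivative (NN q4 h q2) + q4 * q1)).natDegree
      ≤ d + (derivative (NN q4 h q2) + q4 * q1).natDegree := natDegree_mul_le
    have a6 : (derivative (NN q4 h q2) + q4 * q1).natDegree ≤ max (2 * k - 1) (d + 1) := by
      refine a4.trans (max_le_max (by omega) (by omega))
    rcases le_total (2 * k - 1) (d + 1) with h5 | h5
    · rw [max_eq_right h5] at a6; omega
    · rw [max_eq_left h5] at a6; omega
  rw [hf] at e9
  omega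

theorem natDegree_le_zero_C {p : ℝ[X]} (hp : p.natDegree ≤ 0) : p = C (p.coeff 0) :=
  eq_C_of_natDegree_le_zero hp

/-- case I: `q4` squarefree of positive degree is impossible -/
theorem PData.case_squarefree (P : PData φ q4 h q2 q1) (hs : Squarefree q4)
    (hd : 1 ≤ q4.natDegree) : False := by
  have hdeg : h.natDegree ≤ q4.natDegree := by
    by_contra hcon
    push Not at hcon
    apply P.degree_lemma hcon.le
    omega
  obtain ⟨U0, U1, Um, S, w, hU, tf, hw, hS, -⟩ :=
    P.data.gauge (U := q4) (Q := 1) (by ring) hs isCoprime_one_right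
  have hS2 : q4 * S = h - derivative q4 - U0 * Um * derivative U1 + U0 * U1 * derivative Um := by
    rw [hU] at *; linear_combination hS
  have hne : U0 * U1 * Um ≠ 0 := hU ▸ P.ne
  have hUm0 : Um ≠ 0 := right_ne_zero_of_mul hne
  have h010 : U0 * U1 ≠ 0 := left_ne_zero_of_mul hne
  have h00 : U0 ≠ 0 := left_ne_zero_of_mul h010
  have h10 : U1 ≠ 0 := right_ne_zero_of_mul h010
  have hdU : q4.natDegree = U0.natDegree + U1.natDegree + Um.natDegree := by
    rw [hU, natDegree_mul h010 hUm0, natDegree_mul h00 h10]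
  have b1 : (derivative q4).natDegree ≤ q4.natDegree :=
    (natDegree_derivative_le q4).trans (by omega)
  have b2 : (U0 * Um * derivative U1).natDegree ≤ q4.natDegree := by
    have := natDegree_derivative_le U1
    have h1 : (U0 * Um * derivative U1).natDegree ≤ (U0 * Um).natDegree
      + (derivative U1).natDegree := natDegree_mul_le
    have h2 : (U0 * Um).natDegree ≤ U0.natDegree + Um.natDegree := natDegree_mul_le
    omega
  have b3 : (U0 * U1 * derivative Um).natDegree ≤ q4.natDegree := by
    have := natDegree_derivative_le Um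
    have h1 : (U0 * U1 * derivative Um).natDegree ≤ (U0 * U1).natDegree
      + (derivative Um).natDegree := natDegree_mul_le
    have h2 : (U0 * U1).natDegree ≤ U0.natDegree + U1.natDegree := natDegree_mul_le
    omega
  have b4 : (q4 * S).natDegree ≤ q4.natDegree := by
    rw [hS2]
    refine (natDegree_add_le _ _).trans (max_le ?_ b3)
    refine (natDegree_sub_le _ _).trans (max_le ?_ b2)
    exact (natDegree_sub_le _ _).trans (max_le hdeg b1)
  have b5 : S.natDegree ≤ 0 := by
    by_cases hS0 : S = 0
    · simp [hS0]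
    · rw [natDegree_mul P.ne hS0] at b4; omega
  have b6 : w = 0 := by
    apply exp_zero (κ := S.coeff 0)
    rw [← natDegree_le_zero_C b5, ← hw, one_smul]
  have := tf 1 (by rw [b6, smul_zero])
  exact one_ne_zero this

/-- cases II and III: `q4 = X^m r` with `m = 2, 3`, `r` squarefree and prime to `X`,
and small degree of `h`. -/
theorem PData.case_Xm (P : PData φ q4 h q2 q1) {m : ℕ} {r : ℝ[X]} (hr : q4 = X ^ (m + 2) * r)
    (hs : Squarefree r) (hc : IsCoprime r X) (hdeg : h.natDegree < q4.natDegree)
    (hh : X ^ (m + 1) ∣ h) : False := by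
  obtain ⟨U0, U1, Um, S, w, hU, tf, hw, hS, -⟩ :=
    P.data.gauge (U := r) (Q := X ^ (m + 2)) (by rw [hr]; ring) hs hc.pow_right
  have hS2 : r * S = h - derivative q4 - U0 * Um * X ^ (m + 2) * derivative U1
      + U0 * U1 * X ^ (m + 2) * derivative Um := by
    rw [hU]; linear_combination hS
  have hne : U0 * U1 * Um ≠ 0 := hU ▸ hs.ne_zero
  have hUm0 : Um ≠ 0 := right_ne_zero_of_mul hne
  have h010 : U0 * U1 ≠ 0 := left_ne_zero_of_mul hne
  have h00 : U0 ≠ 0 := left_ne_zero_of_mul h010
  have h10 : U1 ≠ 0 := right_ne_zero_of_mul h010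
  have hdU : r.natDegree = U0.natDegree + U1.natDegree + Um.natDegree := by
    rw [hU, natDegree_mul h010 hUm0, natDegree_mul h00 h10]
  have hdq : q4.natDegree = m + 2 + r.natDegree := by
    rw [hr, natDegree_mul (pow_ne_zero _ X_ne_zero) hs.ne_zero, natDegree_X_pow]
  have hXm : (X ^ (m + 2) : ℝ[X]).natDegree = m + 2 := natDegree_X_pow _
  have b1 : (derivative q4).natDegree ≤ q4.natDegree - 1 := natDegree_derivative_le q4
  have key : ∀ A B : ℝ[X], (U0 * A * X ^ (m + 2) * derivative B).natDegree
      ≤ U0.natDegree + A.natDegree + (m + 2) + (B.natDegree - 1) := by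
    intro A B
    have := natDegree_derivative_le B
    have h1 : (U0 * A * X ^ (m + 2) * derivative B).natDegree
      ≤ (U0 * A * X ^ (m + 2)).natDegree + (derivative B).natDegree := natDegree_mul_le
    have h2 : (U0 * A * X ^ (m + 2)).natDegree ≤ (U0 * A).natDegree
      + (X ^ (m + 2) : ℝ[X]).natDegree := natDegree_mul_le
    have h3 : (U0 * A).natDegree ≤ U0.natDegree + A.natDegree := natDegree_mul_le
    omega
  have key2 : ∀ A B : ℝ[X], r.natDegree = U0.natDegree + A.natDegree + B.natDegree →
      (U0 * A * X ^ (m + 2) * derivative B).natDegree ≤ q4.natDegree - 1 := by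
    intro A B hAB
    by_cases hB : B.natDegree = 0
    · have : derivative B = 0 := by
        rw [eq_C_of_natDegree_eq_zero hB, derivative_C]
      rw [this, mul_zero, natDegree_zero]
      exact Nat.zero_le _
    · have := key A B
      omega
  have b2 := key2 Um U1 (by omega)
  have b3 := key2 U1 Um (by omega)
  have b4 : (r * S).natDegree ≤ q4.natDegree - 1 := by
    rw [hS2]
    refine (natDegree_add_le _ _).trans (max_le ?_ b3)
    refine (natDegree_sub_le _ _).trans (max_le ?_ b2)
    exact (natDegree_sub_le _ _).trans (max_le (by omega) b1)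
  have b5 : X ^ (m + 1) ∣ S := by
    have hd : X ^ (m + 1) ∣ derivative q4 := by
      rw [hr, derivative_mul, derivative_X_pow]
      simp only [Nat.add_one_sub_one]
      exact ⟨C ((m + 2 : ℕ) : ℝ) * r + X * derivative r, by ring⟩
    have h1 : X ^ (m + 1) ∣ r * S := by
      rw [hS2]
      refine dvd_add (dvd_sub (dvd_sub hh hd) ?_) ?_
      · exact ⟨U0 * Um * X * derivative U1, by ring⟩
      · exact ⟨U0 * U1 * X * derivative Um, by ring⟩
    exact hc.symm.pow_left.dvd_of_dvd_mul_left h1
  obtain ⟨T, hT⟩ := b5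
  have b6 : T.natDegree ≤ 0 := by
    by_cases hT0 : T = 0
    · simp [hT0]
    · rw [hT, natDegree_mul hs.ne_zero (mul_ne_zero (pow_ne_zero _ X_ne_zero) hT0),
        natDegree_mul (pow_ne_zero _ X_ne_zero) hT0, natDegree_X_pow] at b4
      omega
  obtain ⟨N, hN⟩ := pow_torsion (w := w) (κ := T.coeff 0) (m := m + 1) (by
    rw [← natDegree_le_zero_C b6, hw, hT, mul_comm])
  exact pow_ne_zero N X_ne_zero (tf _ hN)

end Pool.Agent.MP_dd438b_an
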