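import Pool.Agent.MP_dd438b_an.Cases

set_option autoImplicit false
open Polynomial

namespace Pool.Agent.MP_dd438b_an

variable {φ : Fn} {q4 h q2 q1 : ℝ[X]}

/-- positive definite functionals -/
def PosDef (v : Fn) : Prop := ∀ g : ℝ[X], g ≠ 0 → 0 < v.ev (g * g)

theorem PosDef.smul_sq {v : Fn} (hv : PosDef v) {p : ℝ[X]} (hp : p ≠ 0) :
    PosDef ((p * p) • v) := by
  intro g hg
  rw [ev_smul, show p * p * (g * g) = (p * g) * (p * g) by ring]
  exact hv _ (mul_ne_zero hp hg)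

theorem PosDef.cs {v : Fn} (hv : PosDef v) (f g : ℝ[X]) (hg : g ≠ 0)
    (hne : ∀ s t : ℝ, C s * f - C t * g = 0 → s = 0) :
    v.ev (f * g) ^ 2 < v.ev (f * f) * v.ev (g * g) := by
  have h1 := hv g hg
  set a := v.ev (g * g) with ha
  set b := v.ev (f * g) with hb
  have h2 : C a * f - C b * g ≠ 0 := fun h0 => h1.ne' (hne a b h0)
  have h3 := hv _ h2
  have h4 : (C a * f - C b * g) * (C a * f - C b * g)
      = C (a ^ 2) * (f * f) - C (2 * a * b) * (f * g) + C (b ^ 2) * (g * g) := by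
    simp only [C_mul, C_pow]
    have : (C 2 : ℝ[X]) = 2 := rfl
    rw [this]; ring
  rw [h4, map_add, map_sub, ev_C_mul, ev_C_mul, ev_C_mul, ← ha, ← hb] at h3
  have h5 : 0 < a * (v.ev (f * f) * a - b ^ 2) := by nlinarith
  have h6 := (pos_iff_pos_of_mul_pos h5).mp h1
  linarith

theorem PosDef.even {v : Fn} (hv : PosDef v) (j : ℕ) : 0 < v.ev (X ^ (2 * j)) := by
  have := hv (X ^ j) (pow_ne_zero _ X_ne_zero)
  rwa [← pow_add, ← two_mul] at this

theorem PosDef.cs_mon {v : Fn} (hv : PosDef v) (j : ℕ) :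
    v.ev (X ^ (2 * j + 1)) ^ 2 < v.ev (X ^ (2 * j)) * v.ev (X ^ (2 * j + 2)) := by
  have := hv.cs (X ^ j) (X ^ (j + 1)) (pow_ne_zero _ X_ne_zero) (by
    intro s t hst
    have h1 := congrArg (fun p => coeff p j) hst
    simpa using h1)
  rw [← pow_add, ← pow_add, ← pow_add] at this
  rw [show j + (j + 1) = 2 * j + 1 by ring, show j + j = 2 * j by ring,
    show j + 1 + (j + 1) = 2 * j + 2 by ring] at this
  exact this

theorem PData.posDef (P : PData φ q4 h q2 q1) : PosDef φ := P.pos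

theorem derivative_X_pow' (n : ℕ) : derivative (X ^ n : ℝ[X]) = C (n : ℝ) * X ^ (n - 1) :=
  derivative_X_pow n

/-- case IV: `q4 = c X^4` is impossible -/
theorem PData.case_X4 (P : PData φ q4 h q2 q1) {c : ℝ} (hc : q4 = C c * X ^ 4) : False := by
  have hc0 : 0 < c := by
    have h1 := P.eta 1
    have h2 : φ.ev (q4 * (1 * 1)) = c * φ.ev (X ^ (2 * 2)) := by
      rw [hc, ← ev_C_mul]; congr 1; ring
    rw [h2] at h1
    have h3 := P.posDef.even 2
    have h4 : c ≠ 0 := by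
      rintro rfl
      exact P.ne (by rw [hc]; simp)
    rcases lt_or_gt_of_ne h4 with h5 | h5
    · nlinarith
    · exact h5
  obtain ⟨h1, hh⟩ := P.X2_dvd_h (r := C c * X) (by rw [hc]; ring)
  have hd1 : h1.natDegree ≤ 1 := by
    by_cases h0 : h1 = 0
    · simp [h0]
    · have := P.d3
      rw [hh, natDegree_mul (pow_ne_zero _ X_ne_zero) h0, natDegree_X_pow] at this
      omega
  obtain ⟨v, u, huv⟩ : ∃ v u : ℝ, h1 = C v * X + C u :=
    ⟨_, _, eq_X_add_C_of_natDegree_le_one hd1⟩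
  have hrec : ∀ n : ℕ, (c * n + v) * φ.ev (X ^ (n + 3)) = - u * φ.ev (X ^ (n + 2)) := by
    intro n
    have h2 := P.P1 (X ^ (n + 1))
    have h3 := P.P1 (X ^ n)
    rcases n with _ | n
    · simp only [pow_zero, derivative_one, mul_zero, zero_add, mul_one] at h3
      rw [hh, huv, show X ^ 2 * (C v * X + C u) = C v * X ^ 3 + C u * X ^ 2 by ring, map_add,
        ev_C_mul, ev_C_mul] at h3
      push_cast; linarith
    · rw [derivative_X_pow', hc, hh, huv,
        show C c * X ^ 4 * (C ((n + 1 : ℕ) : ℝ) * X ^ (n + 1 - 1))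
          + X ^ 2 * (C v * X + C u) * X ^ (n + 1)
          = C c * (C ((n + 1 : ℕ) : ℝ) * X ^ (n + 1 + 3)) + C v * X ^ (n + 1 + 3)
            + C u * X ^ (n + 1 + 2) by rw [Nat.add_sub_cancel]; ring,
        map_add, map_add, ev_C_mul, ev_C_mul, ev_C_mul, ev_C_mul] at h3
      linarith
  obtain ⟨j, hj⟩ := exists_nat_gt (-v / c)
  have hj' : 0 < c * (2 * j : ℕ) + v := by
    rw [div_lt_iff₀ hc0] at hj
    push_cast
    have : (0:ℝ) ≤ j := by positivity
    nlinarith
  have r1 := hrec (2 * j)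
  have r2 := hrec (2 * j + 1)
  have p1 := P.posDef.even (j + 1)
  have p2 := P.posDef.even (j + 2)
  have cs := P.posDef.cs_mon (j + 1)
  rw [show 2 * (j + 1) + 1 = 2 * j + 3 by ring, show 2 * (j + 1) = 2 * j + 2 by ring,
    show 2 * j + 2 + 2 = 2 * j + 4 by ring] at cs
  rw [show 2 * (j + 1) = 2 * j + 2 by ring] at p1
  rw [show 2 * (j + 2) = 2 * j + 4 by ring] at p2
  rw [show 2 * j + 1 + 3 = 2 * j + 4 by ring, show 2 * j + 1 + 2 = 2 * j + 3 by ring] at r2
  set K := c * (2 * j : ℕ) + v with hK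
  have hK2 : c * ((2 * j + 1 : ℕ) : ℝ) + v = K + c := by rw [hK]; push_cast; ring
  rw [hK2] at r2
  set A := φ.ev (X ^ (2 * j + 2))
  set B := φ.ev (X ^ (2 * j + 3))
  set E := φ.ev (X ^ (2 * j + 4))
  -- K B = -u A, (K + c) E = -u B
  have e1 : K * B ^ 2 = (K + c) * (A * E) := by
    have : K * B * B = (K + c) * E * A := by
      rw [r1, r2]; ring
    linarith
  have e2 : 0 < A * E := mul_pos p1 p2
  nlinarith [mul_lt_mul_of_pos_left cs hj']

/-- positive definite functional with `v((X^2+B) G' + (K X + T) G) = 0` is impossible -/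
theorem PosDef.no_complex {v : Fn} (hv : PosDef v) {B K T : ℝ} (hB : 0 < B)
    (heq : ∀ G : ℝ[X], v.ev ((X ^ 2 + C B) * derivative G + (C K * X + C T) * G) = 0) : False := by
  have hrec : ∀ n : ℕ, (n + 1 + K) * v.ev (X ^ (n + 2)) + (n + 1) * B * v.ev (X ^ n)
      + T * v.ev (X ^ (n + 1)) = 0 := by
    intro n
    have h1 := heq (X ^ (n + 1))
    rw [derivative_X_pow', show (X ^ 2 + C B) * (C ((n + 1 : ℕ) : ℝ) * X ^ (n + 1 - 1))
      + (C K * X + C T) * X ^ (n + 1) = C ((n + 1 : ℕ) : ℝ) * X ^ (n + 2)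
        + C ((n + 1 : ℕ) : ℝ) * (C B * X ^ n) + C K * X ^ (n + 2) + C T * X ^ (n + 1) by
          rw [Nat.add_sub_cancel]; ring] at h1
    simp only [map_add, ev_C_mul] at h1
    push_cast at h1
    linarith
  obtain ⟨j, hj⟩ := exists_nat_gt (max (-K) (T ^ 2 / (4 * B)))
  have hj1 : -K < j := lt_of_le_of_lt (le_max_left _ _) hj
  have hj2 : T ^ 2 / (4 * B) < j := lt_of_le_of_lt (le_max_right _ _) hj
  rw [div_lt_iff₀ (by positivity)] at hj2
  have r := hrec (2 * j)
  have p1 := hv.even j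
  have p2 := hv.even (j + 1)
  have cs := hv.cs_mon j
  rw [show 2 * (j + 1) = 2 * j + 2 by ring] at p2
  push_cast at r
  set A := v.ev (X ^ (2 * j + 2))
  set b := v.ev (X ^ (2 * j + 1))
  set D := v.ev (X ^ (2 * j))
  have hj0 : (0:ℝ) ≤ j := by positivity
  set K1 := (2 * (j:ℝ) + 1 + K) with hK1
  set N1 := (2 * (j:ℝ) + 1) * B with hN1
  have hK1' : 1 ≤ K1 := by rw [hK1]; linarith
  have hN1' : T ^ 2 < 4 * N1 := by rw [hN1]; nlinarith
  have e1 : (K1 * A + N1 * D) ^ 2 = T ^ 2 * b ^ 2 := by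
    have : K1 * A + N1 * D = - (T * b) := by linarith
    rw [this]; ring
  have e2 : 4 * K1 * N1 * (A * D) ≤ (K1 * A + N1 * D) ^ 2 := by nlinarith [sq_nonneg (K1 * A - N1 * D)]
  have hAD : 0 < D * A := mul_pos p1 p2
  have hN0 : 0 < N1 := by rw [hN1]; positivity
  have e3 : T ^ 2 * b ^ 2 ≤ T ^ 2 * (D * A) := by
    apply mul_le_mul_of_nonneg_left cs.le (sq_nonneg _)
  have e4 : T ^ 2 * (D * A) < 4 * N1 * (D * A) := by
    apply mul_lt_mul_of_pos_right hN1' hAD
  have e5 : 4 * N1 * (D * A) ≤ 4 * K1 * N1 * (A * D) := by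
    have : 0 ≤ (K1 - 1) * (4 * N1 * (D * A)) := by
      apply mul_nonneg (by linarith); positivity
    nlinarith
  linarith

/-- case VI: `q4 = c p^2` with `p` an irreducible quadratic is impossible -/
theorem PData.case_quad (P : PData φ q4 h q2 q1) {p : ℝ[X]} (hp : Irreducible p)
    (hd : p.natDegree = 2) {c : ℝ} (hr : q4 = p * p * C c) : False := by
  have hp0 : p ≠ 0 := hp.ne_zero
  have hdeg : p.degree = 2 := by rw [degree_eq_natDegree hp0, hd]; rfl
  obtain ⟨p2, p1, p0, hpe⟩ : ∃ p2 p1 p0 : ℝ, p = C p2 * X ^ 2 + C p1 * X + C p0 :=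
    ⟨_, _, _, eq_quadratic_of_degree_le_two hdeg.le⟩
  have hp2 : p2 ≠ 0 := by
    rintro rfl
    have : p.natDegree ≤ 1 := by
      rw [hpe]; simp only [map_zero, zero_mul, zero_add]; exact natDegree_linear_le
    omega
  have hdisc : p1 ^ 2 - 4 * p2 * p0 < 0 := by
    by_contra hcon
    push Not at hcon
    have hroot : IsRoot p ((-p1 + Real.sqrt (p1 ^ 2 - 4 * p2 * p0)) / (2 * p2)) := by
      rw [IsRoot.def, hpe]
      simp only [eval_add, eval_mul, eval_C, eval_pow, eval_X]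
      have hs := Real.sq_sqrt hcon
      set S := Real.sqrt (p1 ^ 2 - 4 * p2 * p0) with hS
      have e0 : p2 * ((-p1 + S) / (2 * p2)) ^ 2 + p1 * ((-p1 + S) / (2 * p2)) + p0
        = (S ^ 2 - (p1 ^ 2 - 4 * p2 * p0)) / (4 * p2) := by
        field_simp; ring
      rw [e0, hs]; ring
    have := degree_eq_one_of_irreducible_of_root hp hroot
    rw [this] at hdeg
    exact absurd hdeg (by decide)
  have hc0 : c ≠ 0 := by
    rintro rfl
    exact P.ne (by rw [hr]; simp)
  obtain ⟨h1, hh⟩ := P.prime_dvd_h hp.prime hr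
  have hd1 : h1.natDegree ≤ 1 := by
    by_cases h0 : h1 = 0
    · simp [h0]
    · have := P.d3
      rw [hh, natDegree_mul hp0 h0, hd] at this
      omega
  set b : ℝ := -p1 / (2 * p2) with hb
  have P' := P.pull one_ne_zero b
  set B : ℝ := (4 * p2 * p0 - p1 ^ 2) / (4 * p2 ^ 2) with hB
  have hB0 : 0 < B := by
    rw [hB]; apply div_pos; linarith; positivity
  have hpc : p.comp (lin 1 b) = C p2 * (X ^ 2 + C B) := by
    rw [hpe]
    simp only [lin, add_comp, mul_comp, C_comp, X_comp, pow_comp]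
    have e1 : p0 = p2 * B + p2 * b ^ 2 := by rw [hB, hb]; field_simp; ring
    have e2 : p1 = - 2 * p2 * b := by rw [hb]; field_simp
    rw [e1, e2]
    simp only [C_add, C_mul, C_pow, C_neg, map_one]
    have : (C 2 : ℝ[X]) = 2 := rfl
    rw [this]; ring
  obtain ⟨u, t, hut⟩ : ∃ u t : ℝ, C p2 * h1.comp (lin 1 b) = C u * X + C t :=
    ⟨_, _, eq_X_add_C_of_natDegree_le_one ((natDegree_comp_lin_le _ _ _ _).trans hd1)⟩
  set k : ℝ := c * p2 ^ 2 with hk
  have hk0 : k ≠ 0 := mul_ne_zero hc0 (pow_ne_zero _ hp2)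
  have hpb : (X ^ 2 + C B : ℝ[X]) ≠ 0 := by
    intro h0
    have := congrArg (fun r => coeff r 2) h0
    simp at this
  have hv : PosDef (((X ^ 2 + C B) * (X ^ 2 + C B)) • (Pool.Agent.MP_dd438b_an.pull 1 b φ)) :=
    PosDef.smul_sq P'.posDef hpb
  apply hv.no_complex hB0 (K := 2 + u / k) (T := t / k)
  intro G
  have h2 := P'.P1 ((X ^ 2 + C B) * G)
  have e1 : C (1 ^ 4)⁻¹ * q4.comp (lin 1 b) = C k * (X ^ 2 + C B) ^ 2 := by
    rw [hr, mul_comp, mul_comp, hpc, C_comp, hk]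
    simp only [C_mul, C_pow, one_pow, inv_one, map_one, one_mul]
    ring
  have e2 : C (1 ^ 3)⁻¹ * h.comp (lin 1 b) = (X ^ 2 + C B) * (C u * X + C t) := by
    rw [hh, mul_comp, hpc, ← hut]
    simp only [one_pow, inv_one, map_one, one_mul]
    ring
  have e3 : derivative ((X ^ 2 + C B) * G) = 2 * X * G + (X ^ 2 + C B) * derivative G := by
    rw [derivative_mul, derivative_add, derivative_X_pow', derivative_C]
    have : (C ((2:ℕ) : ℝ) : ℝ[X]) = 2 := rfl
    rw [this]; ring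
  rw [e1, e2, e3] at h2
  rw [ev_smul]
  have e4 : C k * (X ^ 2 + C B) ^ 2 * (2 * X * G + (X ^ 2 + C B) * derivative G)
      + (X ^ 2 + C B) * (C u * X + C t) * ((X ^ 2 + C B) * G)
      = C k * ((X ^ 2 + C B) * (X ^ 2 + C B) * ((X ^ 2 + C B) * derivative G
        + (C (2 + u / k) * X + C (t / k)) * G)) := by
    have e5 : (C k * C (u / k) : ℝ[X]) = C u := by rw [← C_mul]; congr 1; field_simp
    have e6 : (C k * C (t / k) : ℝ[X]) = C t := by rw [← C_mul]; congr 1; field_simp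
    rw [← e5, ← e6, C_add]
    have : (C 2 : ℝ[X]) = 2 := rfl
    rw [this]; ring
  rw [e4, ev_C_mul] at h2
  exact (mul_eq_zero.mp h2).resolve_left hk0

end Pool.Agent.MP_dd438b_an
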