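import Pool.Agent.MP_dd438b_an.CaseV2

set_option autoImplicit false
open Polynomial

namespace Pool.Agent.MP_dd438b_an

variable {φ : Fn} {q4 h q2 q1 : ℝ[X]}

theorem exists_irreducible_sq {r : ℝ[X]} (hr : r ≠ 0) (hs : ¬ Squarefree r) :
    ∃ p k : ℝ[X], Irreducible p ∧ r = p * p * k := by
  rw [squarefree_iff_irreducible_sq_not_dvd_of_ne_zero hr] at hs
  push Not at hs
  obtain ⟨p, hp, k, hk⟩ := hs
  exact ⟨p, k, hp, hk⟩

theorem natDegree_irreducible_le {p : ℝ[X]} (hp : Irreducible p) : p.natDegree ≤ 2 :=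
  natDegree_le_of_degree_le hp.degree_le_two

theorem natDegree_irreducible_pos {p : ℝ[X]} (hp : Irreducible p) : 1 ≤ p.natDegree :=
  hp.natDegree_pos

theorem natDegree_sq_mul {p k : ℝ[X]} (hp : p ≠ 0) (hk : k ≠ 0) :
    (p * p * k).natDegree = 2 * p.natDegree + k.natDegree := by
  rw [natDegree_mul (mul_ne_zero hp hp) hk, natDegree_mul hp hp]; ring

theorem squarefree_of_natDegree_le_one {r : ℝ[X]} (hr : r ≠ 0) (hd : r.natDegree ≤ 1) :
    Squarefree r := by
  by_contra hs
  obtain ⟨p, k, hp, hk⟩ := exists_irreducible_sq hr hs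
  have hk0 : k ≠ 0 := by rintro rfl; simp at hk; exact hr hk
  have := natDegree_irreducible_pos hp
  rw [hk, natDegree_sq_mul hp.ne_zero hk0] at hd
  omega

theorem exists_root_of_natDegree_one {p : ℝ[X]} (hd : p.natDegree = 1) :
    ∃ s a : ℝ, s ≠ 0 ∧ p = C s * (X - C a) := by
  have h1 := eq_X_add_C_of_natDegree_le_one hd.le
  have h2 : p.coeff 1 ≠ 0 := by
    intro h0
    rw [h0] at h1
    rw [h1] at hd
    simp at hd
  refine ⟨p.coeff 1, -(p.coeff 0) / p.coeff 1, h2, ?_⟩
  conv_lhs => rw [h1]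
  rw [mul_sub, ← C_mul, show p.coeff 1 * (-(p.coeff 0) / p.coeff 1) = -(p.coeff 0) by field_simp,
    C_neg]
  ring

theorem isCoprime_X {r : ℝ[X]} (h : ¬ X ∣ r) : IsCoprime r X :=
  ((irreducible_X.coprime_iff_not_dvd).mpr h).symm

/-- degree bound for `h` when `q4` has degree 3 or 4 -/
theorem PData.h_lt (P : PData φ q4 h q2 q1) (h3 : 3 ≤ q4.natDegree) :
    h.natDegree < q4.natDegree := by
  by_contra hcon
  push Not at hcon
  have := P.d3
  apply P.degree_lemma
  · omega
  · omega

theorem classify_V {c b : ℝ} (hb : b ≠ 0)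
    (P : PData φ (X ^ 2 * (C c * (X - C b) ^ 2)) h q2 q1) : Std φ := by
  have P1 := P.pull hb 0
  have e4 : C (b ^ 4)⁻¹ * (X ^ 2 * (C c * (X - C b) ^ 2) : ℝ[X]).comp (lin b 0)
      = C c * (X * (X - 1)) ^ 2 := by
    simp only [lin, add_comp, mul_comp, sub_comp, C_comp, X_comp, pow_comp, map_zero, add_zero]
    have : (C (b ^ 4)⁻¹ * C b ^ 4 : ℝ[X]) = 1 := by
      rw [← C_pow, ← C_mul, inv_mul_cancel₀ (pow_ne_zero 4 hb), map_one]
    linear_combination (C c * X ^ 2 * (X - 1) ^ 2) * this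
  rw [e4] at P1
  apply Std.of_pull hb (b := 0)
  have hσ0 : (X * (X - 1) : ℝ[X]) ≠ 0 := mul_ne_zero X_ne_zero (X_sub_C_ne_zero 1)
  have hc0 : c ≠ 0 := by
    rintro rfl
    exact P1.ne (by simp)
  have hc : 0 < c := by
    have h1 := P1.eta 1
    rw [one_mul, mul_one, ev_C_mul, pow_two] at h1
    have h2 := P1.posDef _ hσ0
    rcases lt_or_gt_of_ne hc0 with h3 | h3
    · nlinarith
    · exact h3
  have P2 := P1.scale (k := c⁻¹) (by positivity)
  rw [← mul_assoc, ← C_mul, inv_mul_cancel₀ hc0, map_one, one_mul] at P2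
  have hX1 : Prime (X - 1 : ℝ[X]) := prime_X_sub_C 1
  obtain ⟨k1, hk1⟩ := P2.prime_dvd_h (r := (X - 1) ^ 2) prime_X (by ring)
  obtain ⟨k2, hk2⟩ := P2.prime_dvd_h (r := X ^ 2) hX1 (by ring)
  have hcop : IsCoprime (X : ℝ[X]) (X - 1) := by
    have := isCoprime_X_sub_C_of_isUnit_sub (R := ℝ) (a := 0) (b := 1) (by simp)
    simpa using this
  obtain ⟨h1, hh1⟩ := hcop.mul_dvd ⟨k1, hk1⟩ ⟨k2, hk2⟩
  have hd1 : h1.natDegree ≤ 1 := by
    by_cases h0 : h1 = 0
    · simp [h0]
    · have := P2.d3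
      have hσ2 : (X * (X - 1) : ℝ[X]).natDegree = 2 := by
        have e1 : (X * (X - 1) : ℝ[X]) = X * (X - C 1) := by simp
        rw [e1, natDegree_mul X_ne_zero (X_sub_C_ne_zero 1), natDegree_X, natDegree_X_sub_C]
      rw [hh1, natDegree_mul hσ0 h0, hσ2] at this
      omega
  obtain ⟨u, t, hut⟩ : ∃ u t : ℝ, h1 = C u * X + C t :=
    ⟨_, _, eq_X_add_C_of_natDegree_le_one hd1⟩
  rw [hh1, hut] at P2
  exact jac_normal P2

theorem classify_X2 {r : ℝ[X]} (P : PData φ (X ^ 2 * r) h q2 q1) : Std φ := by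
  have hr0 : r ≠ 0 := right_ne_zero_of_mul P.ne
  have hdeg : (X ^ 2 * r : ℝ[X]).natDegree = 2 + r.natDegree := by
    rw [natDegree_mul (pow_ne_zero _ X_ne_zero) hr0, natDegree_X_pow]
  have hd4 := P.d4
  by_cases hXr : X ∣ r
  · exfalso
    obtain ⟨r1, rfl⟩ := hXr
    have hr1 : r1 ≠ 0 := right_ne_zero_of_mul hr0
    have hdr : (X * r1 : ℝ[X]).natDegree = 1 + r1.natDegree := by
      rw [natDegree_mul X_ne_zero hr1, natDegree_X]
    by_cases hXr1 : X ∣ r1
    · obtain ⟨r2, rfl⟩ := hXr1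
      have hr2 : r2 ≠ 0 := right_ne_zero_of_mul hr1
      have hdr2 : (X * r2 : ℝ[X]).natDegree = 1 + r2.natDegree := by
        rw [natDegree_mul X_ne_zero hr2, natDegree_X]
      have h0 : r2.natDegree ≤ 0 := by omega
      apply P.case_X4 (c := r2.coeff 0)
      conv_lhs => rw [natDegree_le_zero_C h0]
      ring
    · apply P.case_Xm (m := 1) (r := r1) (by ring)
        (squarefree_of_natDegree_le_one hr1 (by omega)) (isCoprime_X hXr1)
        (P.h_lt (by omega)) (P.X2_dvd_h (r := r1) (by ring))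
  · have hc := isCoprime_X hXr
    by_cases hr : r.natDegree = 0
    · apply P.case_X2 (c := r.coeff 0)
      rw [mul_comm]
      congr 1
      exact natDegree_le_zero_C hr.le
    · by_cases hs : Squarefree r
      · exfalso
        apply P.case_Xm (m := 0) (r := r) (by ring) hs hc (P.h_lt (by omega))
        rw [zero_add, pow_one]
        exact P.prime_dvd_h (r := r) prime_X (by ring)
      · obtain ⟨p, k, hp, hk⟩ := exists_irreducible_sq hr0 hs
        have hk0 : k ≠ 0 := by rintro rfl; simp at hk; exact hr0 hk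
        have hdk := natDegree_sq_mul hp.ne_zero hk0
        rw [← hk] at hdk
        have hp1 := natDegree_irreducible_pos hp
        have hp1' : p.natDegree = 1 := by omega
        have hk1 : k.natDegree ≤ 0 := by omega
        obtain ⟨s, b, hs0, hpb⟩ := exists_root_of_natDegree_one hp1'
        have hrb : r = C (s ^ 2 * k.coeff 0) * (X - C b) ^ 2 := by
          rw [hk, hpb]
          conv_lhs => rw [natDegree_le_zero_C hk1]
          rw [C_mul, C_pow]; ring
        have hb : b ≠ 0 := by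
          rintro rfl
          apply hXr
          rw [hrb]
          exact ⟨C (s ^ 2 * k.coeff 0) * X, by simp; ring⟩
        rw [hrb] at P
        exact classify_V hb P

/-- the classification theorem -/
theorem PData.classify (P : PData φ q4 h q2 q1) : Std φ := by
  by_cases hs : Squarefree q4
  · by_cases hd : q4.natDegree = 0
    · exact P.case_const (natDegree_le_zero_C hd.le)
    · exact absurd (P.case_squarefree hs (by omega)) id
  · obtain ⟨p, r, hp, hr⟩ := exists_irreducible_sq P.ne hs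
    have hr0 : r ≠ 0 := by rintro rfl; simp at hr; exact P.ne hr
    have hdr := natDegree_sq_mul hp.ne_zero hr0
    rw [← hr] at hdr
    have hp1 := natDegree_irreducible_pos hp
    have hp2 := natDegree_irreducible_le hp
    have hd4 := P.d4
    by_cases hpd : p.natDegree = 2
    · exfalso
      apply P.case_quad hp hpd (c := r.coeff 0)
      rw [hr]
      congr 1
      exact natDegree_le_zero_C (by omega)
    · obtain ⟨s, a, hs0, hpa⟩ := exists_root_of_natDegree_one (p := p) (by omega)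
      have P1 := P.pull one_ne_zero a
      have e4 : C ((1:ℝ) ^ 4)⁻¹ * q4.comp (lin 1 a)
          = X ^ 2 * (C (s ^ 2) * r.comp (lin 1 a)) := by
        rw [hr, hpa]
        simp only [lin, add_comp, mul_comp, sub_comp, C_comp, X_comp, pow_comp, map_one, one_mul,
          one_pow, inv_one, C_pow]
        ring
      rw [e4] at P1
      exact Std.of_pull one_ne_zero (classify_X2 P1)

end Pool.Agent.MP_dd438b_an
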