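import Pool.Agent.MP_dd438b_an.Classify

set_option autoImplicit false
open Polynomial MeasureTheory

namespace Pool.Agent.MP_dd438b_an

theorem integrable_poly {μ : Measure ℝ} (hμ : ∀ k : ℕ, Integrable (fun x : ℝ => x ^ k) μ)
    (g : ℝ[X]) : Integrable (fun x => g.eval x) μ := by
  have : (fun x => g.eval x) = fun x => ∑ i ∈ Finset.range (g.natDegree + 1), g.coeff i * x ^ i := by
    funext x; exact eval_eq_sum_range x
  rw [this]
  exact integrable_finsetSum _ fun i _ => (hμ i).const_mul _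

/-- the moment functional of a measure -/
noncomputable def ofMeas (μ : Measure ℝ) (hμ : ∀ k : ℕ, Integrable (fun x : ℝ => x ^ k) μ) : Fn :=
  ({ toFun := fun g => ∫ x, g.eval x ∂μ
     map_add' := fun f g => by
      simp only [eval_add]
      exact integral_add (integrable_poly hμ f) (integrable_poly hμ g)
     map_smul' := fun c g => by
      simp only [eval_smul, smul_eq_mul, RingHom.id_apply]
      exact integral_const_mul c _ } : ℝ[X] →ₗ[ℝ] ℝ)

theorem ev_ofMeas (μ : Measure ℝ) (hμ : ∀ k : ℕ, Integrable (fun x : ℝ => x ^ k) μ) (g : ℝ[X]) :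
    (ofMeas μ hμ).ev g = ∫ x, g.eval x ∂μ := rfl

theorem ofMeas_nonneg (μ : Measure ℝ) (hμ : ∀ k : ℕ, Integrable (fun x : ℝ => x ^ k) μ)
    (g : ℝ[X]) : 0 ≤ (ofMeas μ hμ).ev (g * g) := by
  rw [ev_ofMeas]
  apply integral_nonneg
  intro x
  simp only [eval_mul, Pi.zero_apply]
  exact mul_self_nonneg _

theorem ofMeas_posDef (μ : Measure ℝ) (hμ : ∀ k : ℕ, Integrable (fun x : ℝ => x ^ k) μ)
    (hinf : ∀ s : Finset ℝ, μ ((↑s : Set ℝ)ᶜ) ≠ 0) : PosDef (ofMeas μ hμ) := by
  intro g hg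
  apply lt_of_le_of_ne (ofMeas_nonneg μ hμ g)
  intro h0
  rw [ev_ofMeas] at h0
  have h1 : (fun x => (g * g).eval x) =ᵐ[μ] 0 := by
    rw [← integral_eq_zero_iff_of_nonneg _ (integrable_poly hμ _)]
    · exact h0.symm
    · intro x
      simp only [eval_mul, Pi.zero_apply]
      exact mul_self_nonneg _
  have h2 : μ {x | ¬ ((g * g).eval x = 0)} = 0 := by
    have := h1
    rw [Filter.EventuallyEq, ae_iff] at this
    exact this
  apply hinf g.roots.toFinset
  apply measure_mono_null _ h2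
  intro x hx
  simp only [Set.mem_compl_iff, Finset.mem_coe, Multiset.mem_toFinset] at hx
  rw [mem_roots hg] at hx
  simp only [Set.mem_ofPred_eq, eval_mul, mul_self_eq_zero]
  exact hx

theorem ofMeas_one_pos (μ : Measure ℝ) (hμ : ∀ k : ℕ, Integrable (fun x : ℝ => x ^ k) μ)
    (h0 : μ ≠ 0) : 0 < (ofMeas μ hμ).ev 1 := by
  rw [ev_ofMeas]
  simp only [eval_one]
  have hfin : IsFiniteMeasure μ := by
    have := hμ 0
    simp only [pow_zero] at this
    exact (integrable_const_iff_isFiniteMeasure one_ne_zero).mp this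
  rw [integral_const, smul_eq_mul, mul_one]
  rw [Measure.real, ENNReal.toReal_pos_iff]
  exact ⟨(Measure.measure_univ_pos.mpr h0), measure_lt_top _ _⟩

section Derive

variable {p : ℕ → ℝ[X]} (hp : ∀ n : ℕ, (p n).degree = ((n : ℕ) : WithBot ℕ))

include hp in
theorem reduce (n : ℕ) (f : ℝ[X]) (hf : f.degree < ((n + 1 : ℕ) : WithBot ℕ)) :
    ∃ c : ℝ, (f - C c * p n).degree < ((n : ℕ) : WithBot ℕ) := by
  have h1 : (p n).coeff n ≠ 0 := by
    have h2 := hp n
    have h3 : (p n) ≠ 0 := by rintro h0; rw [h0] at h2; simp at h2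
    rw [degree_eq_natDegree h3] at h2
    have h4 : (p n).natDegree = n := by exact_mod_cast h2
    have h5 := leadingCoeff_ne_zero.mpr h3
    rwa [leadingCoeff, h4] at h5
  refine ⟨f.coeff n / (p n).coeff n, ?_⟩
  rw [degree_lt_iff_coeff_zero] at hf ⊢
  intro m hm
  rw [coeff_sub, coeff_C_mul]
  rcases Nat.eq_or_lt_of_le hm with h2 | h2
  · rw [← h2]; field_simp; ring
  · have h3 : (p n).coeff m = 0 := by
      apply coeff_eq_zero_of_degree_lt
      rw [hp n]
      exact_mod_cast h2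
    rw [hf m h2, h3, mul_zero, sub_zero]

include hp in
theorem fn_zero (v : Fn) (hv : ∀ n, v.ev (p n) = 0) : v = 0 := by
  have key : ∀ n : ℕ, ∀ f : ℝ[X], f.degree < ((n : ℕ) : WithBot ℕ) → v.ev f = 0 := by
    intro n
    induction n with
    | zero =>
      intro f hf
      have : f = 0 := by
        rw [← degree_eq_bot]
        rw [Nat.cast_zero, Nat.WithBot.lt_zero_iff] at hf
        exact hf
      rw [this, map_zero]
    | succ n ih =>
      intro f hf
      obtain ⟨c, hc⟩ := reduce hp n f hf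
      have h1 := ih _ hc
      rw [map_sub, ev_C_mul, hv, mul_zero, sub_zero] at h1
      exact h1
  apply Fn.ext'
  intro f
  apply key (f.natDegree + 1)
  calc f.degree ≤ f.natDegree := degree_le_natDegree
    _ < _ := by exact_mod_cast Nat.lt_succ_self _

/-- the Sobolev part of the inner product -/
noncomputable def BB (Ψ H : Fn) (f g : ℝ[X]) : ℝ :=
  Ψ.ev (derivative f * derivative g) + H.ev (derivative (derivative f) * derivative (derivative g))

include hp in
theorem exists_L {Φ Ψ H : Fn} (o1 : ∀ n m : ℕ, n ≠ m → Φ.ev (p n * p m) = 0)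
    (n1 : ∀ n : ℕ, Φ.ev (p n * p n) ≠ 0)
    (o2 : ∀ n m : ℕ, n ≠ m → BB Ψ H (p n) (p m) = 0) :
    ∀ n : ℕ, ∀ f : ℝ[X], f.degree < ((n : ℕ) : WithBot ℕ) →
      ∃ F : ℝ[X], F.degree < ((n : ℕ) : WithBot ℕ) ∧ ∀ g, Φ.ev (F * g) = BB Ψ H f g := by
  intro n
  induction n with
  | zero =>
    intro f hf
    have : f = 0 := by
      rw [← degree_eq_bot]
      rw [Nat.cast_zero, Nat.WithBot.lt_zero_iff] at hf
      exact hf
    refine ⟨0, ?_, ?_⟩
    · rw [degree_zero]; exact WithBot.bot_lt_coe _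
    · intro g; rw [this, BB]; simp
  | succ n ih =>
    intro f hf
    obtain ⟨c, hc⟩ := reduce hp n f hf
    obtain ⟨F, hF1, hF2⟩ := ih _ hc
    set μ := BB Ψ H (p n) (p n) / Φ.ev (p n * p n) with hμ
    refine ⟨F + C (c * μ) * p n, ?_, ?_⟩
    · apply lt_of_le_of_lt (degree_add_le _ _)
      apply max_lt
      · apply lt_trans hF1; exact_mod_cast Nat.lt_succ_self _
      · have h1 : (C (c * μ) * p n).degree ≤ (p n).degree := by
          calc (C (c * μ) * p n).degree ≤ (C (c * μ)).degree + (p n).degree := degree_mul_le _ _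
            _ ≤ 0 + (p n).degree := add_le_add_left degree_C_le _
            _ = (p n).degree := zero_add _
        apply lt_of_le_of_lt h1
        rw [hp n]; exact_mod_cast Nat.lt_succ_self _
    · -- the defect functional
      obtain ⟨D, hD⟩ : ∃ D : Fn, ∀ g, D.ev g = μ * Φ.ev (p n * g) - BB Ψ H (p n) g := by
        refine ⟨C μ • ((p n) • Φ) + dd ((derivative (p n)) • Ψ)
          - dd (dd ((derivative (derivative (p n))) • H)), fun g => ?_⟩
        simp only [ev_sub, ev_add, ev_smul, ev_dd, BB]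
        rw [show p n * (C μ * g) = C μ * (p n * g) by ring, ev_C_mul]
        ring
      have hD0 : D = 0 := by
        apply fn_zero hp
        intro m
        rw [hD]
        by_cases hnm : n = m
        · subst hnm
          rw [hμ]; field_simp [n1 n]; ring
        · rw [o1 n m hnm, o2 n m hnm]; ring
      intro g
      have h1 := hF2 g
      have h2 : μ * Φ.ev (p n * g) = BB Ψ H (p n) g := by
        have := hD g
        rw [hD0, ev_zero] at this
        linarith
      rw [add_mul, map_add, h1, mul_assoc, ev_C_mul, mul_assoc, h2]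
      simp only [BB]
      simp only [derivative_C_mul, sub_mul, map_sub, mul_assoc, ev_C_mul]
      ring

theorem natDegree_le_of_degree_lt' {f : ℝ[X]} {n : ℕ} (h : f.degree < ((n + 1 : ℕ) : WithBot ℕ)) :
    f.natDegree ≤ n := by
  rw [natDegree_le_iff_degree_le]
  by_cases hf : f = 0
  · rw [hf, degree_zero]; exact bot_le
  · rw [degree_eq_natDegree hf] at h ⊢
    have : f.natDegree < n + 1 := by exact_mod_cast h
    exact_mod_cast Nat.lt_succ_iff.mp this

include hp in
theorem toPData {Φ Ψ H : Fn} (pos : PosDef Φ) (o1 : ∀ n m : ℕ, n ≠ m → Φ.ev (p n * p m) = 0)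
    (o2 : ∀ n m : ℕ, n ≠ m → BB Ψ H (p n) (p m) = 0)
    (hH : ∀ g : ℝ[X], 0 ≤ H.ev (g * g)) (hH1 : 0 < H.ev 1) (hΨ : ∀ g : ℝ[X], 0 ≤ Ψ.ev (g * g)) :
    ∃ q4 h q2 q1 : ℝ[X], PData Φ q4 h q2 q1 := by
  have n1 : ∀ n : ℕ, Φ.ev (p n * p n) ≠ 0 := by
    intro n
    apply (pos _ _).ne'
    intro h0
    have := hp n
    rw [h0] at this
    simp at this
  have L := exists_L hp o1 n1 o2
  have hm : ∀ (c : ℝ) (k : ℕ), (C c * X ^ k : ℝ[X]).degree < ((k + 1 : ℕ) : WithBot ℕ) := by
    intro c k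
    apply lt_of_le_of_lt (degree_C_mul_X_pow_le k c)
    exact_mod_cast Nat.lt_succ_self _
  obtain ⟨F1, d1, e1⟩ := L 2 (C 1 * X ^ 1) (hm 1 1)
  obtain ⟨F2, d2, e2⟩ := L 3 (C (1 / 2) * X ^ 2) (hm _ 2)
  obtain ⟨F3, d3, e3⟩ := L 4 (C (1 / 6) * X ^ 3) (hm _ 3)
  obtain ⟨F4, d4, e4⟩ := L 5 (C (1 / 24) * X ^ 4) (hm _ 4)
  have d1' := natDegree_le_of_degree_lt' d1
  have d2' := natDegree_le_of_degree_lt' d2
  have d3' := natDegree_le_of_degree_lt' d3
  have d4' := natDegree_le_of_degree_lt' d4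
  -- explicit right-hand sides
  have r1 : ∀ g, Φ.ev (F1 * g) = Ψ.ev (derivative g) := by
    intro g
    rw [e1 g, BB]
    simp
  have r2 : ∀ g, Φ.ev (F2 * g) = Ψ.ev (X * derivative g) + H.ev (derivative (derivative g)) := by
    intro g
    rw [e2 g, BB, derivative_C_mul, derivative_X_pow', ← mul_assoc, ← C_mul]
    norm_num
  have r3 : ∀ g, Φ.ev (F3 * g) = (1 / 2) * Ψ.ev (X ^ 2 * derivative g)
      + H.ev (X * derivative (derivative g)) := by
    intro g
    rw [e3 g, BB, derivative_C_mul, derivative_X_pow', ← mul_assoc, ← C_mul,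
      show ((1:ℝ) / 6 * ((3 : ℕ) : ℝ)) = 1 / 2 by norm_num, show 3 - 1 = 2 from rfl,
      derivative_C_mul, derivative_X_pow', ← mul_assoc (C (1/2)) , ← C_mul, mul_assoc (C (1/2)),
      ev_C_mul]
    norm_num
  have r4 : ∀ g, Φ.ev (F4 * g) = (1 / 6) * Ψ.ev (X ^ 3 * derivative g)
      + (1 / 2) * H.ev (X ^ 2 * derivative (derivative g)) := by
    intro g
    rw [e4 g, BB, derivative_C_mul, derivative_X_pow', ← mul_assoc, ← C_mul,
      show ((1:ℝ) / 24 * ((4 : ℕ) : ℝ)) = 1 / 6 by norm_num, show 4 - 1 = 3 from rfl,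
      derivative_C_mul, derivative_X_pow', ← mul_assoc (C (1/6)), ← C_mul,
      show ((1:ℝ) / 6 * ((3 : ℕ) : ℝ)) = 1 / 2 by norm_num, show 3 - 1 = 2 from rfl,
      mul_assoc (C (1/6)), mul_assoc (C (1/2)), ev_C_mul, ev_C_mul]
  obtain ⟨q2, hq2⟩ : ∃ q2 : ℝ[X], q2 = F2 - X * F1 := ⟨_, rfl⟩
  obtain ⟨h, hh⟩ : ∃ h : ℝ[X], h = C (1 / 2) * (F3 - X * q2 - C (1 / 2) * (X ^ 2 * F1)) := ⟨_, rfl⟩
  obtain ⟨q4, hq4⟩ : ∃ q4 : ℝ[X], q4 = F4 - C (1 / 6) * (X ^ 3 * F1) - C (1 / 2) * (X ^ 2 * q2)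
    - C 2 * (X * h) := ⟨_, rfl⟩
  -- H(g'') = Φ(q2 g) + Ψ(g)
  have s2 : ∀ g, H.ev (derivative (derivative g)) = Φ.ev (q2 * g) + Ψ.ev g := by
    intro g
    have a1 := r2 g
    have a2 := r1 (X * g)
    rw [derivative_mul, derivative_X, one_mul, map_add] at a2
    rw [hq2, sub_mul, map_sub, a1, show X * F1 * g = F1 * (X * g) by ring, a2]
    ring
  -- H(g') = - Φ(h g)
  have s3 : ∀ g, H.ev (derivative g) = - Φ.ev (h * g) := by
    intro g
    have a1 := r3 g
    have a2 := s2 (X * g)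
    have a3 : derivative (derivative (X * g)) = X * derivative (derivative g)
        + C 2 * derivative g := by
      rw [derivative_mul, derivative_X, one_mul, derivative_add, derivative_mul, derivative_X,
        two_eq]; ring
    rw [a3, map_add, ev_C_mul] at a2
    have a4 := r1 (X ^ 2 * g)
    rw [derivative_mul, derivative_X_pow', show (C ((2 : ℕ) : ℝ) * X ^ (2 - 1) * g
      + X ^ 2 * derivative g : ℝ[X]) = C 2 * (X * g) + X ^ 2 * derivative g by
        simp; ring, map_add, ev_C_mul] at a4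
    rw [hh, show C (1 / 2) * (F3 - X * q2 - C (1 / 2) * (X ^ 2 * F1)) * g
      = C (1 / 2) * (F3 * g - q2 * (X * g) - C (1 / 2) * (F1 * (X ^ 2 * g))) by ring]
    simp only [ev_C_mul, map_sub]
    linarith
  -- H(g) = Φ(q4 g)
  have s4 : ∀ g, H.ev g = Φ.ev (q4 * g) := by
    intro g
    have a1 := r4 g
    have a2 := s2 (X ^ 2 * g)
    have b1 : derivative (X ^ 2 * g) = C 2 * (X * g) + X ^ 2 * derivative g := by
      rw [derivative_mul, derivative_X_pow']; simp; ring
    have a3 : derivative (derivative (X ^ 2 * g)) = X ^ 2 * derivative (derivative g)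
        + C 4 * derivative (X * g) - C 2 * g := by
      rw [b1, derivative_add, derivative_C_mul, derivative_mul, derivative_mul,
        derivative_X, derivative_X_pow', show (C 4 : ℝ[X]) = 4 from rfl]
      simp only [Nat.cast_ofNat, two_eq]
      ring
    rw [a3, map_sub, map_add, ev_C_mul, ev_C_mul, s3] at a2
    have a4 := r1 (X ^ 3 * g)
    rw [derivative_mul, derivative_X_pow', show (C ((3 : ℕ) : ℝ) * X ^ (3 - 1) * g
      + X ^ 3 * derivative g : ℝ[X]) = C 3 * (X ^ 2 * g) + X ^ 3 * derivative g by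
        simp; ring, map_add, ev_C_mul] at a4
    rw [hq4, show (F4 - C (1 / 6) * (X ^ 3 * F1) - C (1 / 2) * (X ^ 2 * q2)
      - C 2 * (X * h)) * g = F4 * g - C (1 / 6) * (F1 * (X ^ 3 * g)) - C (1 / 2) * (q2 * (X ^ 2 * g))
      - C 2 * (h * (X * g)) by ring]
    simp only [ev_C_mul, map_sub]
    linarith
  have s5 : ∀ g, Ψ.ev g = - Φ.ev (h * derivative g + q2 * g) := by
    intro g
    have a1 := s2 g
    have a2 := s3 (derivative g)
    rw [map_add]
    linarith
  have c1 : F1.natDegree ≤ 1 := d1'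
  have cX : ∀ (k : ℕ) (F : ℝ[X]), (X ^ k * F).natDegree ≤ k + F.natDegree := by
    intro k F
    refine natDegree_mul_le.trans ?_
    rw [natDegree_X_pow]
  have cX1 : ∀ (F : ℝ[X]), (X * F).natDegree ≤ 1 + F.natDegree := by
    intro F
    refine natDegree_mul_le.trans ?_
    rw [natDegree_X]
  have c2 : q2.natDegree ≤ 2 := by
    rw [hq2]
    refine (natDegree_sub_le _ _).trans (max_le d2' ?_)
    have := cX1 F1
    omega
  have c3 : h.natDegree ≤ 3 := by
    rw [hh]
    refine (natDegree_C_mul_le _ _).trans ?_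
    refine (natDegree_sub_le _ _).trans (max_le ((natDegree_sub_le _ _).trans (max_le d3' ?_)) ?_)
    · have := cX1 q2; omega
    · refine (natDegree_C_mul_le _ _).trans ?_
      have := cX 2 F1; omega
  have c4 : q4.natDegree ≤ 4 := by
    rw [hq4]
    refine (natDegree_sub_le _ _).trans (max_le ((natDegree_sub_le _ _).trans (max_le
      ((natDegree_sub_le _ _).trans (max_le d4' ?_)) ?_)) ?_)
    · refine (natDegree_C_mul_le _ _).trans ?_
      have := cX 3 F1; omega
    · refine (natDegree_C_mul_le _ _).trans ?_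
      have := cX 2 q2; omega
    · refine (natDegree_C_mul_le _ _).trans ?_
      have := cX1 h; omega
  refine ⟨q4, h, q2, F1, ⟨pos, ?_, ?_, c4, c3, c2, c1, ?_, ?_, ?_⟩⟩
  · intro g
    have := s3 g
    rw [s4] at this
    rw [map_add]; linarith
  · intro g
    have a1 := s5 (derivative g)
    have a2 := r1 g
    rw [map_add, map_add]
    rw [map_add] at a1
    linarith
  · rintro h0
    rw [s4, h0] at hH1
    simp at hH1
  · intro g
    rw [← s4]; exact hH g
  · intro g
    rw [← s5]; exact hΨ g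

end Derive

end Pool.Agent.MP_dd438b_an
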