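import Pool.Agent.MP_dd438b_an.Main

set_option autoImplicit false
open MeasureTheory Polynomial

namespace Pool.Agent.MP_dd438b_an

theorem main_thm :
  ∀ (φ ψ η : MeasureTheory.Measure ℝ) (p : ℕ → Polynomial ℝ),
    (∀ k : ℕ, MeasureTheory.Integrable (fun x : ℝ => x ^ k) φ) →
    (∀ k : ℕ, MeasureTheory.Integrable (fun x : ℝ => x ^ k) ψ) →
    (∀ k : ℕ, MeasureTheory.Integrable (fun x : ℝ => x ^ k) η) →
    (∀ s : Finset ℝ, φ ((↑s : Set ℝ)ᶜ) ≠ 0) →
    η ≠ 0 →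
    (∀ n : ℕ, (p n).degree = ((n : ℕ) : WithBot ℕ)) →
    (∀ n m : ℕ, n ≠ m → ∫ x, (p n).eval x * (p m).eval x ∂φ = 0) →
    (∀ n : ℕ, ∫ x, (p n).eval x * (p n).eval x ∂φ ≠ 0) →
    (∀ n m : ℕ, n ≠ m →
      (∫ x, (p n).eval x * (p m).eval x ∂φ)
        + (∫ x, (Polynomial.derivative (p n)).eval x
              * (Polynomial.derivative (p m)).eval x ∂ψ)
        + (∫ x, (Polynomial.derivative (Polynomial.derivative (p n))).eval x
              * (Polynomial.derivative (Polynomial.derivative (p m))).eval x ∂η) = 0) →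
    (∀ n : ℕ,
      (∫ x, (p n).eval x * (p n).eval x ∂φ)
        + (∫ x, (Polynomial.derivative (p n)).eval x
              * (Polynomial.derivative (p n)).eval x ∂ψ)
        + (∫ x, (Polynomial.derivative (Polynomial.derivative (p n))).eval x
              * (Polynomial.derivative (Polynomial.derivative (p n))).eval x ∂η) ≠ 0) →
    ∃ μ : MeasureTheory.Measure ℝ,
      ((∃ α β : ℝ, -1 < α ∧ -1 < β ∧
          μ = MeasureTheory.volume.withDensity (fun x : ℝ => ENNReal.ofReal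
            ((Set.Icc (-1 : ℝ) 1).indicator (fun y : ℝ => (1 - y) ^ α * (1 + y) ^ β) x)))
        ∨ (∃ α : ℝ, -1 < α ∧
          μ = MeasureTheory.volume.withDensity (fun x : ℝ => ENNReal.ofReal
            ((Set.Ioi (0 : ℝ)).indicator (fun y : ℝ => y ^ α * Real.exp (-y)) x)))
        ∨ (μ = MeasureTheory.volume.withDensity (fun x : ℝ => ENNReal.ofReal
            (Real.exp (-(x ^ 2)))))
        ∨ (∃ A : ℝ, 0 < A ∧
          μ = MeasureTheory.volume.restrict (Set.Icc (-1 : ℝ) 1)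
            + ENNReal.ofReal (1 / A) • (MeasureTheory.Measure.dirac (-1 : ℝ)
                + MeasureTheory.Measure.dirac (1 : ℝ)))
        ∨ (∃ R : ℝ, 0 < R ∧
          μ = MeasureTheory.volume.withDensity (fun x : ℝ => ENNReal.ofReal
            ((Set.Ioi (0 : ℝ)).indicator (fun y : ℝ => Real.exp (-y)) x))
            + ENNReal.ofReal (1 / R) • MeasureTheory.Measure.dirac (0 : ℝ))
        ∨ (∃ α M : ℝ, -1 < α ∧ 0 < M ∧
          μ = MeasureTheory.volume.withDensity (fun x : ℝ => ENNReal.ofReal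
            ((Set.Ico (0 : ℝ) 1).indicator (fun y : ℝ => (1 - y) ^ α) x))
            + ENNReal.ofReal (1 / M) • MeasureTheory.Measure.dirac (0 : ℝ)))
      ∧ ∃ a b : ℝ, a ≠ 0 ∧
        (∀ n : ℕ, ((p n).comp (Polynomial.C a * Polynomial.X + Polynomial.C b)).degree
            = ((n : ℕ) : WithBot ℕ)) ∧
        (∀ n m : ℕ, n ≠ m →
          ∫ x, ((p n).comp (Polynomial.C a * Polynomial.X + Polynomial.C b)).eval x
            * ((p m).comp (Polynomial.C a * Polynomial.X + Polynomial.C b)).eval x ∂μ = 0) ∧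
        (∀ n : ℕ,
          ∫ x, ((p n).comp (Polynomial.C a * Polynomial.X + Polynomial.C b)).eval x
            * ((p n).comp (Polynomial.C a * Polynomial.X + Polynomial.C b)).eval x ∂μ ≠ 0) := by
  intro φ ψ η p hφ hψ hη hinf hη0 hp ho1 hn1 ho2 hn2
  -- the functionals
  have hpos := ofMeas_posDef φ hφ hinf
  have o1 : ∀ n m : ℕ, n ≠ m → (ofMeas φ hφ).ev (p n * p m) = 0 := by
    intro n m hnm
    rw [ev_ofMeas]
    simp only [eval_mul]
    exact ho1 n m hnm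
  have n1 : ∀ n : ℕ, (ofMeas φ hφ).ev (p n * p n) ≠ 0 := by
    intro n
    rw [ev_ofMeas]
    simp only [eval_mul]
    exact hn1 n
  have o2 : ∀ n m : ℕ, n ≠ m → BB (ofMeas ψ hψ) (ofMeas η hη) (p n) (p m) = 0 := by
    intro n m hnm
    have h1 := ho2 n m hnm
    rw [ho1 n m hnm, zero_add] at h1
    rw [BB, ev_ofMeas, ev_ofMeas]
    simp only [eval_mul]
    exact h1
  obtain ⟨q4, h, q2, q1, P⟩ := toPData hp hpos o1 o2 (ofMeas_nonneg η hη)
    (ofMeas_one_pos η hη hη0) (ofMeas_nonneg ψ hψ)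
  obtain ⟨a, b, φ', ha, hφ', h1, hcases⟩ := P.classify
  rcases hcases with hH | ⟨α, hα, hL⟩ | ⟨α, β, hα, hβ, hJ⟩ | ⟨Λ, M, hM, hΛ1, hΛ, hd⟩
    | ⟨Λ, M, hM, hΛ1, hΛ, hd⟩ | ⟨α, Λ, M, hα, hM, hΛ1, hΛ, hd⟩
  · -- Hermite
    have eH : ∀ g : ℝ[X], (1 * derivative g + (-(2 * X)) * g : ℝ[X]) = derivative g - 2 * X * g := by
      intro g; ring
    have hu := uniq 1 (-(2 * X)) (v := φ') (w := ofMeas μH μH_int)
      (fun v hv h0 => zero_herm (fun g => by rw [← eH]; exact hv g) h0)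
      (fun g => by rw [eH]; exact hH g)
      (fun g => by rw [eH]; exact μH_pearson g) h1.ne'
    refine ⟨μH, Or.inr (Or.inr (Or.inl rfl)), ?_⟩
    exact final hp o1 n1 ha hφ' (div_ne_zero μH_pos.ne' h1.ne') hu
  · -- Laguerre
    have hu := uniq X (C (α + 1) - X) (v := φ') (w := ofMeas (μL α) (μL_int hα))
      (fun v hv h0 => zero_lag hv h0) hL (μL_pearson hα) h1.ne'
    refine ⟨μL α, Or.inr (Or.inl ⟨α, hα, rfl⟩), ?_⟩
    exact final hp o1 n1 ha hφ' (div_ne_zero (μL_pos hα).ne' h1.ne') hu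
  · -- Jacobi
    have hu := uniq (1 - X ^ 2) (C (β - α) - C (α + β + 2) * X) (v := φ')
      (w := ofMeas (μJ α β) (μJ_int hα hβ))
      (fun v hv h0 => zero_jac hα hβ hv h0) hJ (μJ_pearson hα hβ) h1.ne'
    refine ⟨μJ α β, Or.inl ⟨α, β, hα, hβ, rfl⟩, ?_⟩
    exact final hp o1 n1 ha hφ' (div_ne_zero (μJ_pos hα hβ).ne' h1.ne') hu
  · -- Legendre type
    have eL : ∀ g : ℝ[X], ((1 - X ^ 2) * derivative g + (-(2 * X)) * g : ℝ[X])
        = (1 - X ^ 2) * derivative g - 2 * X * g := by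
      intro g; ring
    have hu := uniq (1 - X ^ 2) (-(2 * X)) (v := Λ) (w := ofMeas μU μU_int)
      (fun v hv h0 => zero_leg (fun g => by rw [← eL]; exact hv g) h0)
      (fun g => by rw [eL]; exact hΛ g)
      (fun g => by rw [eL]; exact μU_pearson g) hΛ1.ne'
    set c := (ofMeas μU μU_int).ev 1 / Λ.ev 1 with hc
    have hc0 : 0 < c := div_pos μU_pos hΛ1
    have hA : 0 < 1 / (c * M) := by positivity
    refine ⟨μU + ENNReal.ofReal (1 / (1 / (c * M))) • (Measure.dirac (-1 : ℝ)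
      + Measure.dirac (1 : ℝ)), Or.inr (Or.inr (Or.inr (Or.inl ⟨_, hA, rfl⟩))), ?_⟩
    apply final hp o1 n1 ha hφ' hc0.ne'
    intro g
    rw [dirac_sum2 μU_int hA, hu, hd, one_div_one_div]
    ring
  · -- Laguerre type
    have h0 : (-1:ℝ) < 0 := by norm_num
    have e1 : (C ((0:ℝ) + 1) : ℝ[X]) = 1 := by simp
    have hu := uniq X (C ((0:ℝ) + 1) - X) (v := Λ) (w := ofMeas (μL 0) (μL_int h0))
      (fun v hv h0 => zero_lag hv h0)
      (fun g => by rw [e1]; exact hΛ g) (μL_pearson h0) hΛ1.ne'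
    set c := (ofMeas (μL 0) (μL_int h0)).ev 1 / Λ.ev 1 with hc
    have hc0 : 0 < c := div_pos (μL_pos h0) hΛ1
    have hA : 0 < 1 / (c * M) := by positivity
    refine ⟨μL 0 + ENNReal.ofReal (1 / (1 / (c * M))) • Measure.dirac (0 : ℝ),
      Or.inr (Or.inr (Or.inr (Or.inr (Or.inl ⟨_, hA, ?_⟩)))), ?_⟩
    · simp only [μL, Real.rpow_zero, one_mul]
    · apply final hp o1 n1 ha hφ' hc0.ne'
      intro g
      rw [dirac_sum (μL_int h0) hA, hu, hd, one_div_one_div]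
      ring
  · -- Jacobi type
    have hu := uniq (X * (1 - X)) (1 - C (α + 2) * X) (v := Λ)
      (w := ofMeas (μK α) (μK_int hα))
      (fun v hv h0 => zero_jacK hα hv h0) hΛ (μK_pearson hα) hΛ1.ne'
    set c := (ofMeas (μK α) (μK_int hα)).ev 1 / Λ.ev 1 with hc
    have hc0 : 0 < c := div_pos (μK_pos hα) hΛ1
    have hA : 0 < 1 / (c * M) := by positivity
    refine ⟨μK α + ENNReal.ofReal (1 / (1 / (c * M))) • Measure.dirac (0 : ℝ),
      Or.inr (Or.inr (Or.inr (Or.inr (Or.inr ⟨α, _, hα, hA, rfl⟩)))), ?_⟩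
    apply final hp o1 n1 ha hφ' hc0.ne'
    intro g
    rw [dirac_sum (μK_int hα) hA, hu, hd, one_div_one_div]
    ring

end Pool.Agent.MP_dd438b_an
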