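import Mathlib

set_option autoImplicit false
open Polynomial

namespace Pool.Agent.MP_dd438b_an

/-- Linear functionals on real polynomials. -/
def Fn : Type := ℝ[X] →ₗ[ℝ] ℝ

noncomputable instance : AddCommGroup Fn := inferInstanceAs (AddCommGroup (ℝ[X] →ₗ[ℝ] ℝ))

/-- evaluation of a functional -/
def Fn.ev (v : Fn) : ℝ[X] →ₗ[ℝ] ℝ := v

theorem Fn.ext' {v w : Fn} (h : ∀ f, v.ev f = w.ev f) : v = w := LinearMap.ext h

@[simp] theorem ev_add (v w : Fn) (f : ℝ[X]) : (v + w).ev f = v.ev f + w.ev f := rfl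
@[simp] theorem ev_sub (v w : Fn) (f : ℝ[X]) : (v - w).ev f = v.ev f - w.ev f := rfl
@[simp] theorem ev_neg (v : Fn) (f : ℝ[X]) : (-v).ev f = - v.ev f := rfl
@[simp] theorem ev_zero (f : ℝ[X]) : (0 : Fn).ev f = 0 := rfl

/-- multiplication of a functional by a polynomial -/
noncomputable instance : SMul ℝ[X] Fn :=
  ⟨fun g v => v.ev ∘ₗ (LinearMap.mulLeft ℝ g)⟩

@[simp] theorem ev_smul (g : ℝ[X]) (v : Fn) (f : ℝ[X]) : (g • v).ev f = v.ev (g * f) := rfl

noncomputable instance : Module ℝ[X] Fn where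
  one_smul v := Fn.ext' fun f => by simp
  mul_smul a b v := Fn.ext' fun f => by simp [mul_left_comm, mul_assoc]
  smul_zero a := Fn.ext' fun f => by simp
  smul_add a v w := Fn.ext' fun f => by simp
  add_smul a b v := Fn.ext' fun f => by simp [add_mul]
  zero_smul v := Fn.ext' fun f => by simp

/-- the derivative of a functional -/
noncomputable def dd (v : Fn) : Fn := (-(v.ev ∘ₗ Polynomial.derivative) : ℝ[X] →ₗ[ℝ] ℝ)

@[simp] theorem ev_dd (v : Fn) (f : ℝ[X]) : (dd v).ev f = - v.ev (derivative f) := rfl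

theorem dd_add (v w : Fn) : dd (v + w) = dd v + dd w :=
  Fn.ext' fun f => by simp; ring

theorem dd_sub (v w : Fn) : dd (v - w) = dd v - dd w :=
  Fn.ext' fun f => by simp; ring

theorem dd_smul (g : ℝ[X]) (v : Fn) : dd (g • v) = derivative g • v + g • dd v :=
  Fn.ext' fun f => by simp [derivative_mul]

theorem coprime_zero {a b : ℝ[X]} (hab : IsCoprime a b) {v : Fn} (ha : a • v = 0)
    (hb : b • v = 0) : v = 0 := by
  obtain ⟨x, y, hxy⟩ := hab
  calc v = (1 : ℝ[X]) • v := by rw [one_smul]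
    _ = x • (a • v) + y • (b • v) := by rw [← hxy, add_smul, mul_smul, mul_smul]
    _ = 0 := by rw [ha, hb]; simp

end Pool.Agent.MP_dd438b_an
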