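import Pool.Agent.MP_dd438b_an.Functional

set_option autoImplicit false
open Polynomial

namespace Pool.Agent.MP_dd438b_an

/-- The basic data: a torsion free functional `φ` with the two equations. -/
structure Data (φ ψ : Fn) (q4 h q2 q1 : ℝ[X]) : Prop where
  tf : ∀ A : ℝ[X], A • φ = 0 → A = 0
  e1 : dd (q4 • φ) = h • φ
  epsi : ψ = dd (h • φ) - q2 • φ
  e2 : dd ψ = -(q1 • φ)

variable {φ ψ : Fn} {q4 h q2 q1 : ℝ[X]}

/-- the polynomial `N` with `q4 ψ = N φ` -/
noncomputable def NN (q4 h q2 : ℝ[X]) : ℝ[X] :=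
  q4 * derivative h + h * (h - derivative q4) - q4 * q2

theorem Data.a (D : Data φ ψ q4 h q2 q1) : q4 • dd φ = (h - derivative q4) • φ := by
  have := D.e1
  rw [dd_smul] at this
  linear_combination (norm := module) this

theorem Data.b (D : Data φ ψ q4 h q2 q1) : h • dd φ = ψ - (derivative h - q2) • φ := by
  have := D.epsi
  rw [dd_smul] at this
  linear_combination (norm := module) -this

theorem Data.d (D : Data φ ψ q4 h q2 q1) : q4 • ψ = (NN q4 h q2) • φ := by
  have h1 := D.a
  have h2 := D.b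
  unfold NN
  linear_combination (norm := module) h • h1 - q4 • h2

theorem Data.f (D : Data φ ψ q4 h q2 q1) :
    (NN q4 h q2) * (2 * derivative q4 - h) = q4 * (derivative (NN q4 h q2) + q4 * q1) := by
  have h1 := D.a
  have h2 := D.b
  have h3 := D.d
  have h4 := congrArg dd h3
  rw [dd_smul, dd_smul, D.e2] at h4
  rw [← sub_eq_zero]
  apply D.tf
  linear_combination (norm := module) q4 • h4 - derivative q4 • h3 + (NN q4 h q2) • h1

/-- membership in the module spanned by `φ` and `ψ` -/
def Mem (φ ψ τ : Fn) : Prop := ∃ α β : ℝ[X], τ = α • φ + β • ψ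

theorem Data.mem_torsion (D : Data φ ψ q4 h q2 q1) {τ : Fn} (hm : Mem φ ψ τ) {g : ℝ[X]}
    (hg : g ≠ 0) (h0 : g • τ = 0) : q4 • τ = 0 := by
  obtain ⟨α, β, rfl⟩ := hm
  have h3 := D.d
  have h4 : (α * q4 + β * NN q4 h q2) = 0 := by
    have : g * (α * q4 + β * NN q4 h q2) = 0 := by
      apply D.tf
      linear_combination (norm := module) q4 • h0 - (g * β) • h3
    exact (mul_eq_zero.mp this).resolve_left hg
  have h5 : (α * q4 + β * NN q4 h q2) • φ = 0 := by rw [h4, zero_smul]
  linear_combination (norm := module) β • h3 + h5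

theorem Data.mem_dd (D : Data φ ψ q4 h q2 q1) {τ : Fn} (hm : Mem φ ψ τ) :
    Mem φ ψ (h • dd τ) := by
  obtain ⟨α, β, rfl⟩ := hm
  have h2 := D.b
  have h3 := D.e2
  refine ⟨h * derivative α - α * (derivative h - q2) - h * β * q1, α + h * derivative β, ?_⟩
  rw [dd_add, dd_smul, dd_smul]
  linear_combination (norm := module) α • h2 + (h * β) • h3

theorem Mem.smul {τ : Fn} (g : ℝ[X]) (hm : Mem φ ψ τ) : Mem φ ψ (g • τ) := by
  obtain ⟨α, β, rfl⟩ := hm
  exact ⟨g * α, g * β, by module⟩

theorem Mem.sub {τ σ : Fn} (hm : Mem φ ψ τ) (hs : Mem φ ψ σ) : Mem φ ψ (τ - σ) := by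
  obtain ⟨α, β, rfl⟩ := hm
  obtain ⟨α', β', rfl⟩ := hs
  exact ⟨α - α', β - β', by module⟩

theorem Data.no_torsion (D : Data φ ψ q4 h q2 q1) {U Q' : ℝ[X]} (hU : q4 = U * Q')
    (hU0 : U ≠ 0) (c1 : IsCoprime U Q') (c2 : IsCoprime U (derivative U)) (c3 : IsCoprime U h)
    {τ : Fn} (hm : Mem φ ψ τ) (h0 : (U * U) • τ = 0) : τ = 0 := by
  have key : ∀ σ : Fn, Mem φ ψ σ → (U * U) • σ = 0 → U • σ = 0 := by
    intro σ hσ hσ0
    have h1 := D.mem_torsion hσ (mul_ne_zero hU0 hU0) hσ0
    apply coprime_zero c1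
    · rw [← mul_smul]; exact hσ0
    · rw [← mul_smul, mul_comm, ← hU]; exact h1
  have h1 := key τ hm h0
  have h2 := congrArg dd h1
  rw [dd_smul] at h2
  have h2' : derivative U • τ + U • dd τ = 0 := by
    rw [h2]; exact Fn.ext' fun f => by simp
  have h3 := D.mem_dd hm
  have h4 : (U * U) • (h • dd τ) = 0 := by
    linear_combination (norm := module) (U * h) • h2' - (h * derivative U) • h1
  have h5 := key _ h3 h4
  have h6 : (h * derivative U) • τ = 0 := by
    linear_combination (norm := module) h • h2' - h5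
  exact coprime_zero (IsCoprime.mul_right c3 c2) h1 h6

theorem sqf_split {U s : ℝ[X]} (hU : Squarefree U) :
    ∃ U0 V : ℝ[X], U = U0 * V ∧ U0 ∣ s ∧ IsCoprime V s := by
  have hU0 : U ≠ 0 := hU.ne_zero
  obtain ⟨V, hV⟩ := EuclideanDomain.gcd_dvd_left U s
  obtain ⟨t, ht⟩ := EuclideanDomain.gcd_dvd_right U s
  have hb := EuclideanDomain.gcd_eq_gcd_ab U s
  set g := EuclideanDomain.gcd U s with hg
  have hg0 : g ≠ 0 := by
    intro h0
    rw [h0, zero_mul] at hV
    exact hU0 hV
  refine ⟨g, V, hV, ⟨t, ht⟩, ?_⟩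
  have h1 : IsCoprime V t := by
    refine ⟨EuclideanDomain.gcdA U s, EuclideanDomain.gcdB U s, ?_⟩
    apply mul_left_cancel₀ hg0
    calc g * (EuclideanDomain.gcdA U s * V + EuclideanDomain.gcdB U s * t)
        = (g * V) * EuclideanDomain.gcdA U s + (g * t) * EuclideanDomain.gcdB U s := by ring
      _ = g := by rw [← hV, ← ht, ← hb]
      _ = g * 1 := by ring
  have h2 : IsCoprime g V := by
    rw [hV] at hU
    exact isRelPrime_iff_isCoprime.mp (squarefree_mul_iff.mp hU).1
  rw [ht]
  exact IsCoprime.mul_right h2.symm h1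

theorem sqf_coprime {a b : ℝ[X]} (h : Squarefree (a * b)) : IsCoprime a b :=
  isRelPrime_iff_isCoprime.mp (squarefree_mul_iff.mp h).1

theorem sqf_der {a : ℝ[X]} (h : Squarefree a) : IsCoprime a (derivative a) :=
  (separable_def a).mp (PerfectField.separable_iff_squarefree.mpr h)

/-- The gauge theorem: the simple part `U` of `q4` can be removed. -/
theorem Data.gauge (D : Data φ ψ q4 h q2 q1) {U Q : ℝ[X]} (hq : q4 = U * Q)
    (hU : Squarefree U) (hUQ : IsCoprime U Q) :
    ∃ (U0 U1 Um S : ℝ[X]) (w : Fn), U = U0 * U1 * Um ∧ (∀ A : ℝ[X], A • w = 0 → A = 0) ∧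
      Q • dd w = S • w ∧
      U0 * U1 * Um * S + U0 * Um * Q * derivative U1 - U0 * U1 * Q * derivative Um
        = h - derivative q4 ∧
      U1 • w = Um • φ := by
  obtain ⟨U0, V, hUV, hU0s, hVs⟩ := sqf_split (s := h - derivative q4) hU
  have hV : Squarefree V := by
    rw [hUV] at hU; exact (squarefree_mul_iff.mp hU).2.2
  obtain ⟨Um, U1, hV1, hUmh, hU1h⟩ := sqf_split (s := h) hV
  have hUe : U = U0 * U1 * Um := by rw [hUV, hV1]; ring
  have hf := D.f
  -- U1 divides 2 q4' - h
  have hU1s : IsCoprime U1 (h - derivative q4) :=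
    IsCoprime.of_isCoprime_of_dvd_left hVs ⟨Um, by rw [hV1]; ring⟩
  have hU1d : U1 ∣ (2 * derivative q4 - h) := by
    have h1 : U1 ∣ (h * (h - derivative q4)) * (2 * derivative q4 - h) := by
      have h2 : (h * (h - derivative q4)) * (2 * derivative q4 - h)
          = U1 * (U0 * Um * Q * ((derivative (NN q4 h q2) + q4 * q1)
            - (derivative h - q2) * (2 * derivative q4 - h))) := by
        have h3 : U1 * (U0 * Um * Q * ((derivative (NN q4 h q2) + q4 * q1)
            - (derivative h - q2) * (2 * derivative q4 - h)))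
            = q4 * (derivative (NN q4 h q2) + q4 * q1)
            - q4 * (derivative h - q2) * (2 * derivative q4 - h) := by
          rw [hq, hUe]; ring
        rw [h3, ← hf]; unfold NN; ring
      exact ⟨_, h2⟩
    exact (IsCoprime.mul_right hU1h hU1s).dvd_of_dvd_mul_left h1
  -- squarefree facts
  have hU' : Squarefree (U0 * U1 * Um) := hUe ▸ hU
  have sq01 : Squarefree (U0 * U1) := (squarefree_mul_iff.mp hU').2.1
  have c01 : IsCoprime U0 U1 := sqf_coprime sq01
  have c01m : IsCoprime (U0 * U1) Um := sqf_coprime hU'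
  have c0m : IsCoprime U0 Um := c01m.of_mul_left_left
  have c1m : IsCoprime U1 Um := c01m.of_mul_left_right
  have sq0 : Squarefree U0 := (squarefree_mul_iff.mp sq01).2.1
  have cQ : IsCoprime (U0 * U1 * Um) Q := hUe ▸ hUQ
  have cQ01 : IsCoprime (U0 * U1) Q := cQ.of_mul_left_left
  have hq' : q4 = U0 * U1 * Um * Q := by rw [hq, hUe]
  have dq : derivative q4 = derivative U0 * (U1 * Um * Q) + U0 * (derivative U1 * (Um * Q)
      + U1 * (derivative Um * Q + Um * derivative Q)) := by
    rw [hq', show U0 * U1 * Um * Q = U0 * (U1 * (Um * Q)) by ring]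
    rw [derivative_mul, derivative_mul, derivative_mul]
    ring
  have c0h : IsCoprime U0 h := by
    obtain ⟨t, ht⟩ := hU0s
    have h1 : h = derivative U0 * (U1 * Um * Q) + U0 * (t + (derivative U1 * (Um * Q)
      + U1 * (derivative Um * Q + Um * derivative Q))) := by
      have : h = (h - derivative q4) + derivative q4 := by ring
      rw [this, ht, dq]; ring
    rw [h1]
    apply IsCoprime.add_mul_left_right
    exact IsCoprime.mul_right (sqf_der sq0)
      (IsCoprime.mul_right (IsCoprime.mul_right c01 c0m) cQ01.of_mul_left_left)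
  have c01h : IsCoprime (U0 * U1) h := IsCoprime.mul_left c0h hU1h
  have hne : U0 * U1 * Um ≠ 0 := hU'.ne_zero
  have hUm0 : Um ≠ 0 := right_ne_zero_of_mul hne
  have h010 : U0 * U1 ≠ 0 := left_ne_zero_of_mul hne
  -- existence of v
  have cN : IsCoprime U1 (NN q4 h q2) := by
    have h1 : NN q4 h q2 = h * (h - derivative q4)
        + U1 * (U0 * Um * Q * (derivative h - q2)) := by
      unfold NN
      have : q4 * derivative h + h * (h - derivative q4) - q4 * q2
        = h * (h - derivative q4) + q4 * (derivative h - q2) := by ring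
      rw [this]
      congr 1
      rw [hq']; ring
    rw [h1]
    apply IsCoprime.add_mul_left_right
    exact IsCoprime.mul_right hU1h hU1s
  obtain ⟨α, β, hαβ⟩ := cN
  set v : Fn := (β * (U0 * Um * Q)) • ψ + α • φ with hv
  have hmv : Mem φ ψ v := ⟨α, β * (U0 * Um * Q), by rw [hv]; abel⟩
  have hv1 : U1 • v = φ := by
    have h1 := D.d
    have h2 : (α * U1 + β * NN q4 h q2) • φ = φ := by rw [hαβ, one_smul]
    have h3 : (β * q4) • ψ = U1 • ((β * (U0 * Um * Q)) • ψ) := by
      rw [← mul_smul, hq']; congr 1; ring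
    calc U1 • v = (β * q4) • ψ + (U1 * α) • φ := by rw [h3, hv, smul_add, mul_smul U1 α]
      _ = φ := by
        rw [mul_smul, h1, ← mul_smul, ← add_smul]
        rw [show β * NN q4 h q2 + U1 * α = α * U1 + β * NN q4 h q2 by ring, h2]
  -- the polynomial S
  have hT : (U0 * U1 * Um) ∣ ((h - derivative q4) - U0 * Um * Q * derivative U1
      + U0 * U1 * Q * derivative Um) := by
    apply c01m.mul_dvd
    · apply c01.mul_dvd
      · obtain ⟨t, ht⟩ := hU0s
        exact ⟨t - Um * Q * derivative U1 + U1 * Q * derivative Um, by rw [ht]; ring⟩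
      · obtain ⟨t, ht⟩ := hU1d
        refine ⟨-t + derivative U0 * (Um * Q) + U0 * (derivative Um * Q + Um * derivative Q)
          + U0 * Q * derivative Um, ?_⟩
        have : (h - derivative q4) = -(2 * derivative q4 - h) + derivative q4 := by ring
        rw [this, ht, dq]; ring
    · obtain ⟨t, ht⟩ := hUmh
      refine ⟨t - derivative U0 * (U1 * Q) - U0 * (derivative U1 * Q + U1 * derivative Q)
        - U0 * Q * derivative U1, ?_⟩
      rw [dq, ht]; ring
  obtain ⟨S, hS⟩ := hT
  have hS' : U0 * U1 * Um * S + U0 * Um * Q * derivative U1 - U0 * U1 * Q * derivative Um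
        = h - derivative q4 := by rw [← hS]; ring
  refine ⟨U0, U1, Um, S, Um • v, hUe, ?_, ?_, hS', ?_⟩
  · intro A hA
    have h1 : (A * Um) • φ = 0 := by
      rw [← hv1, ← mul_smul, show A * Um * U1 = U1 * (A * Um) by ring, mul_smul, mul_smul, hA,
        smul_zero]
    exact (mul_eq_zero.mp (D.tf _ h1)).resolve_right hUm0
  · rw [← sub_eq_zero]
    set W : Fn := Q • dd (Um • v) - S • Um • v with hW
    have ha := D.a
    rw [← hv1, dd_smul] at ha
    have hW0 : (U0 * (U1 * U1)) • W = 0 := by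
      have e1 : (U0 * (U1 * U1)) • W = (U0 * (U1 * U1) * Q * derivative Um) • v
          + U1 • (U0 * U1 * Um * Q) • dd v - (U0 * (U1 * U1) * S * Um) • v := by
        rw [hW, dd_smul]; module
      rw [e1, ← hq']
      have e2 : U1 • q4 • dd v = ((h - derivative q4) * U1 - q4 * derivative U1) • v := by
        linear_combination (norm := module) ha
      rw [e2, ← add_smul, ← sub_smul]
      have e3 : U0 * (U1 * U1) * Q * derivative Um
          + ((h - derivative q4) * U1 - q4 * derivative U1) - U0 * (U1 * U1) * S * Um = 0 := by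
        rw [← hS', hq']; ring
      rw [e3, zero_smul]
    have hmW : Mem φ ψ (h • W) := by
      have h1 : h • W = Q • (h • dd (Um • v)) - (h * S * Um) • v := by rw [hW]; module
      rw [h1]
      exact Mem.sub (Mem.smul _ (D.mem_dd (hmv.smul _))) (hmv.smul _)
    have h3 : (U0 * U1 * (U0 * U1)) • (h • W) = 0 := by
      linear_combination (norm := module) (U0 * h) • hW0
    have h4 : h • W = 0 :=
      D.no_torsion (Q' := Um * Q) (by rw [hq']; ring) h010
        (IsCoprime.mul_right c01m cQ01) (sqf_der sq01) c01h hmW h3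
    have h5 : IsCoprime (U0 * (U1 * U1)) h := IsCoprime.mul_left c0h (IsCoprime.mul_left hU1h hU1h)
    exact coprime_zero h5 hW0 h4
  · rw [← mul_smul, mul_comm, mul_smul, hv1]

end Pool.Agent.MP_dd438b_an
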