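import Pool.Agent.MP_dd438b_an.Measures

set_option autoImplicit false
open Polynomial MeasureTheory Set

namespace Pool.Agent.MP_dd438b_an

/-! ### Uniqueness of functionals satisfying a Pearson equation -/

theorem strong_ext {v : Fn} (h0 : v.ev 1 = 0)
    (hs : ∀ n : ℕ, (∀ m ≤ n, v.ev (X ^ m) = 0) → v.ev (X ^ (n + 1)) = 0) : v = 0 := by
  apply ext_mon
  intro n
  induction n using Nat.strong_induction_on with
  | _ n ih =>
    rcases n with _ | n
    · simpa using h0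
    · exact hs n fun m hm => ih m (Nat.lt_succ_of_le hm)

theorem zero_herm {v : Fn} (hv : ∀ g : ℝ[X], v.ev (derivative g - 2 * X * g) = 0)
    (h0 : v.ev 1 = 0) : v = 0 := by
  apply strong_ext h0
  intro n ih
  have h1 := hv (X ^ n)
  rw [map_sub, derivative_X_pow', ev_C_mul, show (2 * X * X ^ n : ℝ[X]) = C 2 * X ^ (n + 1) by
    rw [two_eq]; ring, ev_C_mul, ih (n - 1) (Nat.sub_le _ _)] at h1
  linarith

theorem zero_lag {v : Fn} {α : ℝ} (hv : ∀ g : ℝ[X], v.ev (X * derivative g + (C (α + 1) - X) * g) = 0)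
    (h0 : v.ev 1 = 0) : v = 0 := by
  apply strong_ext h0
  intro n ih
  have h1 := hv (X ^ n)
  have e1 : v.ev (X * derivative (X ^ n)) = n * v.ev (X ^ n) := by
    rw [derivative_X_pow']
    rcases n with _ | n
    · simp
    · rw [show X * (C ((n + 1 : ℕ) : ℝ) * X ^ (n + 1 - 1)) = C ((n + 1 : ℕ) : ℝ) * X ^ (n + 1) by
        rw [Nat.add_sub_cancel]; ring, ev_C_mul]
  rw [map_add, e1, sub_mul, map_sub, ev_C_mul, ih n le_rfl, ← pow_succ'] at h1
  linarith

theorem zero_jac {v : Fn} {α β : ℝ} (hα : -1 < α) (hβ : -1 < β)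
    (hv : ∀ g : ℝ[X], v.ev ((1 - X ^ 2) * derivative g + (C (β - α) - C (α + β + 2) * X) * g) = 0)
    (h0 : v.ev 1 = 0) : v = 0 := by
  apply strong_ext h0
  intro n ih
  have h1 := hv (X ^ n)
  have e1 : v.ev ((1 - X ^ 2) * derivative (X ^ n)) = - n * v.ev (X ^ (n + 1)) := by
    rw [derivative_X_pow']
    rcases n with _ | n
    · simp
    · rw [show ((1 - X ^ 2) * (C ((n + 1 : ℕ) : ℝ) * X ^ (n + 1 - 1)) : ℝ[X])
        = C ((n + 1 : ℕ) : ℝ) * X ^ n - C ((n + 1 : ℕ) : ℝ) * X ^ (n + 1 + 1) by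
        rw [Nat.add_sub_cancel]; ring, map_sub, ev_C_mul, ev_C_mul, ih n (Nat.le_succ n)]
      ring
  rw [map_add, e1, sub_mul, map_sub, ev_C_mul, ih n le_rfl, mul_assoc, ev_C_mul, ← pow_succ'] at h1
  have hn : (0:ℝ) ≤ n := Nat.cast_nonneg n
  have h2 : (n + (α + β + 2)) * v.ev (X ^ (n + 1)) = 0 := by linarith
  exact (mul_eq_zero.mp h2).resolve_left (by linarith)

theorem zero_leg {v : Fn} (hv : ∀ g : ℝ[X], v.ev ((1 - X ^ 2) * derivative g - 2 * X * g) = 0)
    (h0 : v.ev 1 = 0) : v = 0 := by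
  apply zero_jac (α := 0) (β := 0) (by norm_num) (by norm_num) _ h0
  intro g
  refine Eq.trans ?_ (hv g)
  have e1 : (C ((0:ℝ) - 0) : ℝ[X]) = 0 := by simp
  have e2 : (C ((0:ℝ) + 0 + 2) : ℝ[X]) = 2 := by rw [add_zero, zero_add, two_eq]
  rw [e1, e2]
  congr 1
  ring

theorem zero_jacK {v : Fn} {α : ℝ} (hα : -1 < α)
    (hv : ∀ g : ℝ[X], v.ev (X * (1 - X) * derivative g + (1 - C (α + 2) * X) * g) = 0)
    (h0 : v.ev 1 = 0) : v = 0 := by
  apply strong_ext h0
  intro n ih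
  have h1 := hv (X ^ n)
  have e1 : v.ev (X * (1 - X) * derivative (X ^ n)) = n * v.ev (X ^ n) - n * v.ev (X ^ (n + 1)) := by
    rw [derivative_X_pow']
    rcases n with _ | n
    · simp
    · rw [show (X * (1 - X) * (C ((n + 1 : ℕ) : ℝ) * X ^ (n + 1 - 1)) : ℝ[X])
        = C ((n + 1 : ℕ) : ℝ) * X ^ (n + 1) - C ((n + 1 : ℕ) : ℝ) * X ^ (n + 1 + 1) by
        rw [Nat.add_sub_cancel]; ring, map_sub, ev_C_mul, ev_C_mul]
  rw [map_add, e1, sub_mul, map_sub, one_mul, ih n le_rfl, mul_assoc, ev_C_mul, ← pow_succ'] at h1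
  have hn : (0:ℝ) ≤ n := Nat.cast_nonneg n
  have h2 : (n + (α + 2)) * v.ev (X ^ (n + 1)) = 0 := by linarith
  exact (mul_eq_zero.mp h2).resolve_left (by linarith)

theorem uniq (σ τ : ℝ[X])
    (hz : ∀ v : Fn, (∀ g : ℝ[X], v.ev (σ * derivative g + τ * g) = 0) → v.ev 1 = 0 → v = 0)
    {v w : Fn} (hv : ∀ g : ℝ[X], v.ev (σ * derivative g + τ * g) = 0)
    (hw : ∀ g : ℝ[X], w.ev (σ * derivative g + τ * g) = 0)
    (h1 : v.ev 1 ≠ 0) (g : ℝ[X]) : w.ev g = (w.ev 1 / v.ev 1) * v.ev g := by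
  have h2 : w - (C (w.ev 1 / v.ev 1) : ℝ[X]) • v = 0 := by
    apply hz
    · intro g
      rw [ev_sub, ev_smul, ev_C_mul, hv, hw]; ring
    · rw [ev_sub, ev_smul, ev_C_mul]; field_simp; ring
  have h3 := congrArg (fun u => Fn.ev u g) h2
  simp only [ev_sub, ev_smul, ev_zero, ev_C_mul] at h3
  linarith

/-! ### the final form -/

/-- The conclusion on a measure `μ`. -/
theorem final {p : ℕ → ℝ[X]} (hp : ∀ n : ℕ, (p n).degree = ((n : ℕ) : WithBot ℕ))
    {Φ φ' : Fn} (o1 : ∀ n m : ℕ, n ≠ m → Φ.ev (p n * p m) = 0)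
    (n1 : ∀ n : ℕ, Φ.ev (p n * p n) ≠ 0) {a b : ℝ} (ha : a ≠ 0)
    (hφ' : ∀ g : ℝ[X], φ'.ev (g.comp (lin a b)) = Φ.ev g) {μ : Measure ℝ} {c : ℝ} (hc : c ≠ 0)
    (hμ : ∀ g : ℝ[X], ∫ x, g.eval x ∂μ = c * φ'.ev g) :
    ∃ a b : ℝ, a ≠ 0 ∧
        (∀ n : ℕ, ((p n).comp (Polynomial.C a * Polynomial.X + Polynomial.C b)).degree
            = ((n : ℕ) : WithBot ℕ)) ∧
        (∀ n m : ℕ, n ≠ m →
          ∫ x, ((p n).comp (Polynomial.C a * Polynomial.X + Polynomial.C b)).eval x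
            * ((p m).comp (Polynomial.C a * Polynomial.X + Polynomial.C b)).eval x ∂μ = 0) ∧
        (∀ n : ℕ,
          ∫ x, ((p n).comp (Polynomial.C a * Polynomial.X + Polynomial.C b)).eval x
            * ((p n).comp (Polynomial.C a * Polynomial.X + Polynomial.C b)).eval x ∂μ ≠ 0) := by
  have key : ∀ n m : ℕ, ∫ x, ((p n).comp (C a * X + C b)).eval x
      * ((p m).comp (C a * X + C b)).eval x ∂μ = c * Φ.ev (p n * p m) := by
    intro n m
    rw [← hφ', ← hμ]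
    apply integral_congr_ae
    refine Filter.Eventually.of_forall fun x => ?_
    simp only [lin, mul_comp, eval_mul]
  refine ⟨a, b, ha, ?_, ?_, ?_⟩
  · intro n
    have h1 := hp n
    have h2 : p n ≠ 0 := by rintro h0; rw [h0] at h1; simp at h1
    have h3 : (p n).natDegree = n := by
      rw [degree_eq_natDegree h2] at h1; exact_mod_cast h1
    have h4 : (p n).comp (C a * X + C b) ≠ 0 := comp_lin_ne_zero ha b h2
    rw [degree_eq_natDegree h4, natDegree_comp, natDegree_linear ha, mul_one, h3]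
  · intro n m hnm
    rw [key, o1 n m hnm, mul_zero]
  · intro n
    rw [key]
    exact mul_ne_zero hc (n1 n)

theorem dirac_sum {μ : Measure ℝ} (hμ : ∀ k : ℕ, Integrable (fun x : ℝ => x ^ k) μ) {R : ℝ}
    (hR : 0 < R) (x0 : ℝ) (g : ℝ[X]) :
    ∫ x, g.eval x ∂(μ + ENNReal.ofReal (1 / R) • Measure.dirac x0)
      = (ofMeas μ hμ).ev g + (1 / R) * g.eval x0 := by
  rw [integral_add_measure (integrable_poly hμ g), integral_smul_measure, integral_dirac,
    ENNReal.toReal_ofReal (by positivity), smul_eq_mul, ev_ofMeas]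
  apply Integrable.smul_measure _ ENNReal.ofReal_ne_top
  exact integrable_dirac (by simp)

theorem dirac_sum2 {μ : Measure ℝ} (hμ : ∀ k : ℕ, Integrable (fun x : ℝ => x ^ k) μ) {R : ℝ}
    (hR : 0 < R) (x0 x1 : ℝ) (g : ℝ[X]) :
    ∫ x, g.eval x ∂(μ + ENNReal.ofReal (1 / R) • (Measure.dirac x0 + Measure.dirac x1))
      = (ofMeas μ hμ).ev g + (1 / R) * (g.eval x0 + g.eval x1) := by
  have i0 : Integrable (fun x => g.eval x) (Measure.dirac x0) := integrable_dirac (by simp)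
  have i1 : Integrable (fun x => g.eval x) (Measure.dirac x1) := integrable_dirac (by simp)
  rw [integral_add_measure (integrable_poly hμ g), integral_smul_measure,
    integral_add_measure i0 i1, integral_dirac, integral_dirac,
    ENNReal.toReal_ofReal (by positivity), smul_eq_mul, ev_ofMeas]
  exact Integrable.smul_measure (i0.add_measure i1) ENNReal.ofReal_ne_top

end Pool.Agent.MP_dd438b_an
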