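import Pool.Agent.MP_dd438b_an.Derive

set_option autoImplicit false
open Polynomial MeasureTheory Set

namespace Pool.Agent.MP_dd438b_an

theorem wd_integral {w : ℝ → ℝ} (hw : Measurable w) (h0 : ∀ x, 0 ≤ w x) (g : ℝ → ℝ) :
    ∫ x, g x ∂(volume.withDensity fun x => ENNReal.ofReal (w x)) = ∫ x, w x * g x := by
  rw [integral_withDensity_eq_integral_toReal_smul (by fun_prop)
    (Filter.Eventually.of_forall fun x => ENNReal.ofReal_lt_top)]
  apply integral_congr_ae
  refine Filter.Eventually.of_forall fun x => ?_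
  simp only [smul_eq_mul, ENNReal.toReal_ofReal (h0 x)]

theorem wd_integrable {w : ℝ → ℝ} (hw : Measurable w) (h0 : ∀ x, 0 ≤ w x) (g : ℝ → ℝ) :
    Integrable g (volume.withDensity fun x => ENNReal.ofReal (w x))
      ↔ Integrable (fun x => w x * g x) volume := by
  rw [integrable_withDensity_iff_integrable_smul' (by fun_prop)
    (Filter.Eventually.of_forall fun x => ENNReal.ofReal_lt_top)]
  apply integrable_congr
  refine Filter.Eventually.of_forall fun x => ?_
  simp only [smul_eq_mul, ENNReal.toReal_ofReal (h0 x)]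

/-! ### Hermite -/

/-- the Hermite measure -/
noncomputable def μH : Measure ℝ := volume.withDensity (fun x : ℝ => ENNReal.ofReal
            (Real.exp (-(x ^ 2))))

theorem μH_int_aux (k : ℕ) : Integrable (fun x : ℝ => Real.exp (-(x ^ 2)) * x ^ k) volume := by
  have := integrable_rpow_mul_exp_neg_mul_sq (b := 1) one_pos (s := k)
    (lt_of_lt_of_le (by norm_num) (Nat.cast_nonneg k))
  refine this.congr (Filter.Eventually.of_forall fun x => ?_)
  simp only [Real.rpow_natCast]
  rw [mul_comm]; congr 2; ring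

theorem μH_int (k : ℕ) : Integrable (fun x : ℝ => x ^ k) μH := by
  rw [μH, wd_integrable (by fun_prop) (fun x => (Real.exp_pos _).le)]
  exact μH_int_aux k

theorem μH_int_poly (g : ℝ[X]) : Integrable (fun x : ℝ => Real.exp (-(x ^ 2)) * g.eval x) volume := by
  have := integrable_poly μH_int g
  rwa [μH, wd_integrable (by fun_prop) (fun x => (Real.exp_pos _).le)] at this

theorem μH_pearson (g : ℝ[X]) : (ofMeas μH μH_int).ev (derivative g - 2 * X * g) = 0 := by
  rw [ev_ofMeas, μH, wd_integral (by fun_prop) (fun x => (Real.exp_pos _).le)]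
  apply integral_eq_zero_of_hasDerivAt_of_integrable (f := fun x => Real.exp (-(x ^ 2)) * g.eval x)
  · intro x
    have h1 : HasDerivAt (fun x : ℝ => -(x ^ 2)) (-(2 * x)) x := by
      refine (hasDerivAt_pow 2 x).fun_neg.congr_deriv ?_
      norm_num
    have h2 := h1.exp.fun_mul (g.hasDerivAt x)
    refine h2.congr_deriv ?_
    simp only [eval_sub, eval_mul, eval_X, eval_ofNat]
    ring
  · exact μH_int_poly _
  · exact μH_int_poly _

theorem μH_pos : 0 < (ofMeas μH μH_int).ev 1 := by
  apply ofMeas_one_pos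
  intro h0
  have h1 : (ofMeas μH μH_int).ev 1 = 0 := by rw [ev_ofMeas, h0]; simp
  rw [ev_ofMeas, μH, wd_integral (by fun_prop) (fun x => (Real.exp_pos _).le)] at h1
  have h2 := integral_gaussian 1
  have h3 : (fun x : ℝ => Real.exp (-(x ^ 2)) * eval x (1 : ℝ[X])) = fun x => Real.exp (-1 * x ^ 2) := by
    funext x; simp
  rw [h3, h2] at h1
  have : 0 < Real.sqrt (Real.pi / 1) := Real.sqrt_pos.mpr (by positivity)
  linarith

/-! ### Laguerre -/

/-- the Laguerre measure -/
noncomputable def μL (α : ℝ) : Measure ℝ := volume.withDensity (fun x : ℝ => ENNReal.ofReal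
            ((Set.Ioi (0 : ℝ)).indicator (fun y : ℝ => y ^ α * Real.exp (-y)) x))

theorem μL_meas (α : ℝ) : Measurable ((Set.Ioi (0 : ℝ)).indicator
    (fun y : ℝ => y ^ α * Real.exp (-y))) :=
  Measurable.indicator (by fun_prop) measurableSet_Ioi

theorem μL_nonneg (α : ℝ) (x : ℝ) : 0 ≤ (Set.Ioi (0 : ℝ)).indicator
    (fun y : ℝ => y ^ α * Real.exp (-y)) x := by
  apply indicator_nonneg
  intro y hy
  have : 0 < y := hy
  positivity

theorem μL_fun (α : ℝ) (k : ℕ) : (fun x => (Set.Ioi (0 : ℝ)).indicator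
    (fun y : ℝ => y ^ α * Real.exp (-y)) x * x ^ k)
    = (Set.Ioi (0 : ℝ)).indicator (fun y : ℝ => Real.exp (-y) * y ^ ((α + k + 1) - 1)) := by
  funext x
  by_cases hx : x ∈ Set.Ioi (0:ℝ)
  · rw [indicator_of_mem hx, indicator_of_mem hx]
    have : 0 < x := hx
    rw [show α + k + 1 - 1 = α + k by ring, Real.rpow_add this, Real.rpow_natCast]
    ring
  · rw [indicator_of_notMem hx, indicator_of_notMem hx, zero_mul]

theorem μL_int {α : ℝ} (hα : -1 < α) (k : ℕ) : Integrable (fun x : ℝ => x ^ k) (μL α) := by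
  rw [μL, wd_integrable (μL_meas α) (μL_nonneg α), μL_fun, integrable_indicator_iff measurableSet_Ioi]
  apply Real.GammaIntegral_convergent
  have : (0:ℝ) ≤ k := Nat.cast_nonneg k
  linarith

theorem μL_moment {α : ℝ} (hα : -1 < α) (k : ℕ) :
    (ofMeas (μL α) (μL_int hα)).ev (X ^ k) = Real.Gamma (α + k + 1) := by
  rw [ev_ofMeas]
  simp only [eval_pow, eval_X]
  rw [μL, wd_integral (μL_meas α) (μL_nonneg α), μL_fun, integral_indicator measurableSet_Ioi,
    Real.Gamma_eq_integral]
  have : (0:ℝ) ≤ k := Nat.cast_nonneg k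
  linarith

theorem μL_pearson {α : ℝ} (hα : -1 < α) (g : ℝ[X]) :
    (ofMeas (μL α) (μL_int hα)).ev (X * derivative g + (C (α + 1) - X) * g) = 0 := by
  set v := ofMeas (μL α) (μL_int hα) with hv
  have h1 : (C (α + 1) - X : ℝ[X]) • v - dd ((X : ℝ[X]) • v) = 0 := by
    apply ext_mon
    intro n
    rw [ev_sub, ev_smul, ev_dd, ev_smul]
    have e1 : v.ev (X * derivative (X ^ n)) = n * v.ev (X ^ n) := by
      rw [derivative_X_pow']
      rcases n with _ | n
      · simp
      · rw [show X * (C ((n + 1 : ℕ) : ℝ) * X ^ (n + 1 - 1)) = C ((n + 1 : ℕ) : ℝ) * X ^ (n + 1) by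
          rw [Nat.add_sub_cancel]; ring, ev_C_mul]
    rw [e1, sub_mul, map_sub, ev_C_mul, ← pow_succ', hv, μL_moment hα, μL_moment hα]
    have hn : (0:ℝ) ≤ n := Nat.cast_nonneg n
    have e2 := Real.Gamma_add_one (s := α + n + 1) (by linarith)
    push_cast
    rw [show α + (n + 1) + 1 = α + n + 1 + 1 by ring, e2]
    ring
  have h2 := congrArg (fun w => Fn.ev w g) h1
  simp only [ev_sub, ev_smul, ev_dd, ev_zero] at h2
  rw [map_add]
  linarith

theorem μL_pos {α : ℝ} (hα : -1 < α) : 0 < (ofMeas (μL α) (μL_int hα)).ev 1 := by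
  have := μL_moment hα 0
  rw [pow_zero] at this
  rw [this]
  apply Real.Gamma_pos_of_pos
  simp; linarith

/-! ### Densities on a bounded interval -/

theorem ind_integral {a b : ℝ} (hab : a ≤ b) {S : Set ℝ} (hS : MeasurableSet S)
    (hS2 : S =ᵐ[volume] Ioc a b) {w : ℝ → ℝ} (hw : Measurable w) (h0 : ∀ x ∈ S, 0 ≤ w x)
    (g : ℝ → ℝ) :
    ∫ x, g x ∂(volume.withDensity fun x => ENNReal.ofReal (S.indicator w x))
      = ∫ x in a..b, w x * g x := by
  rw [wd_integral (hw.indicator hS) (fun x => indicator_nonneg h0 x)]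
  have : (fun x => S.indicator w x * g x) = S.indicator (fun x => w x * g x) := by
    funext x
    by_cases hx : x ∈ S
    · rw [indicator_of_mem hx, indicator_of_mem hx]
    · rw [indicator_of_notMem hx, indicator_of_notMem hx, zero_mul]
  rw [this, integral_indicator hS, setIntegral_congr_set hS2, intervalIntegral.integral_of_le hab]

theorem ind_integrable {a b : ℝ} (hab : a ≤ b) {S : Set ℝ} (hS : MeasurableSet S)
    (hS2 : S =ᵐ[volume] Ioc a b) {w : ℝ → ℝ} (hw : Measurable w) (h0 : ∀ x ∈ S, 0 ≤ w x)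
    (g : ℝ → ℝ) :
    Integrable g (volume.withDensity fun x => ENNReal.ofReal (S.indicator w x))
      ↔ IntervalIntegrable (fun x => w x * g x) volume a b := by
  rw [wd_integrable (hw.indicator hS) (fun x => indicator_nonneg h0 x)]
  have : (fun x => S.indicator w x * g x) = S.indicator (fun x => w x * g x) := by
    funext x
    by_cases hx : x ∈ S
    · rw [indicator_of_mem hx, indicator_of_mem hx]
    · rw [indicator_of_notMem hx, indicator_of_notMem hx, zero_mul]
  rw [this, integrable_indicator_iff hS, integrableOn_congr_set_ae hS2,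
    intervalIntegrable_iff_integrableOn_Ioc_of_le hab]

/-! ### Jacobi -/

/-- the Jacobi measure -/
noncomputable def μJ (α β : ℝ) : Measure ℝ := volume.withDensity (fun x : ℝ => ENNReal.ofReal
            ((Set.Icc (-1 : ℝ) 1).indicator (fun y : ℝ => (1 - y) ^ α * (1 + y) ^ β) x))

theorem wJ_meas (α β : ℝ) : Measurable (fun y : ℝ => (1 - y) ^ α * (1 + y) ^ β) := by fun_prop

theorem wJ_nonneg (α β : ℝ) : ∀ x ∈ Set.Icc (-1 : ℝ) 1, 0 ≤ (1 - x) ^ α * (1 + x) ^ β := by
  intro x hx
  have h1 : 0 ≤ 1 - x := by linarith [hx.2]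
  have h2 : 0 ≤ 1 + x := by linarith [hx.1]
  positivity

theorem wJ_int {α β : ℝ} (hα : -1 < α) (hβ : -1 < β) :
    IntervalIntegrable (fun y : ℝ => (1 - y) ^ α * (1 + y) ^ β) volume (-1) 1 := by
  have hl : IntervalIntegrable (fun y : ℝ => (1 - y) ^ α * (1 + y) ^ β) volume (-1) 0 := by
    apply IntervalIntegrable.continuousOn_mul (f := fun y : ℝ => (1 + y) ^ β)
    · have h1 := intervalIntegral.intervalIntegrable_rpow' (a := 0) (b := 1) hβ
      have h2 := h1.comp_add_left 1
      simpa [add_comm] using h2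
    · apply ContinuousOn.rpow_const (by fun_prop)
      intro x hx
      left
      rw [uIcc_of_le (by norm_num)] at hx
      have := hx.2
      linarith
  have hr : IntervalIntegrable (fun y : ℝ => (1 - y) ^ α * (1 + y) ^ β) volume 0 1 := by
    apply IntervalIntegrable.mul_continuousOn (f := fun y : ℝ => (1 - y) ^ α)
    · have h1 := intervalIntegral.intervalIntegrable_rpow' (a := 0) (b := 1) hα
      have h2 := h1.comp_sub_left 1
      simpa using h2.symm
    · apply ContinuousOn.rpow_const (by fun_prop)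
      intro x hx
      left
      rw [uIcc_of_le (by norm_num)] at hx
      have := hx.1
      linarith
  exact hl.trans hr

theorem Icc_ae (a b : ℝ) : Icc a b =ᵐ[volume] Ioc a b := Ioc_ae_eq_Icc.symm
theorem Ico_ae (a b : ℝ) : Ico a b =ᵐ[volume] Ioc a b := Ico_ae_eq_Ioc

theorem μJ_int {α β : ℝ} (hα : -1 < α) (hβ : -1 < β) (k : ℕ) :
    Integrable (fun x : ℝ => x ^ k) (μJ α β) := by
  rw [μJ, ind_integrable (by norm_num) measurableSet_Icc (Icc_ae _ _) (wJ_meas α β) (wJ_nonneg α β)]
  exact (wJ_int hα hβ).mul_continuousOn (by fun_prop)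

theorem μJ_eval {α β : ℝ} (hα : -1 < α) (hβ : -1 < β) (g : ℝ[X]) :
    (ofMeas (μJ α β) (μJ_int hα hβ)).ev g
      = ∫ x in (-1)..1, ((1 - x) ^ α * (1 + x) ^ β) * g.eval x := by
  rw [ev_ofMeas, μJ, ind_integral (by norm_num) measurableSet_Icc (Icc_ae _ _) (wJ_meas α β)
    (wJ_nonneg α β)]

theorem μJ_pearson {α β : ℝ} (hα : -1 < α) (hβ : -1 < β) (g : ℝ[X]) :
    (ofMeas (μJ α β) (μJ_int hα hβ)).ev
      ((1 - X ^ 2) * derivative g + (C (β - α) - C (α + β + 2) * X) * g) = 0 := by
  rw [μJ_eval hα hβ]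
  have h1 := intervalIntegral.integral_eq_sub_of_hasDerivAt_of_le (a := (-1:ℝ)) (b := 1)
    (f := fun x => (1 - x) ^ (α + 1) * (1 + x) ^ (β + 1) * g.eval x)
    (f' := fun x => ((1 - x) ^ α * (1 + x) ^ β) * eval x
      ((1 - X ^ 2) * derivative g + (C (β - α) - C (α + β + 2) * X) * g)) (by norm_num)
    (by
      apply Continuous.continuousOn
      have c1 : Continuous (fun x : ℝ => (1 - x) ^ (α + 1)) :=
        Continuous.rpow_const (by fun_prop) (fun x => Or.inr (by linarith))
      have c2 : Continuous (fun x : ℝ => (1 + x) ^ (β + 1)) :=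
        Continuous.rpow_const (by fun_prop) (fun x => Or.inr (by linarith))
      exact (c1.mul c2).mul g.continuous)
    (by
      intro x hx
      have hx1 : 0 < 1 - x := by linarith [hx.2]
      have hx2 : 0 < 1 + x := by linarith [hx.1]
      have d1 : HasDerivAt (fun x : ℝ => (1 - x) ^ (α + 1)) (-1 * (α + 1) * (1 - x) ^ (α + 1 - 1)) x := by
        apply HasDerivAt.rpow_const _ (Or.inl hx1.ne')
        simpa using (hasDerivAt_id x).const_sub 1
      have d2 : HasDerivAt (fun x : ℝ => (1 + x) ^ (β + 1)) (1 * (β + 1) * (1 + x) ^ (β + 1 - 1)) x := by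
        apply HasDerivAt.rpow_const _ (Or.inl hx2.ne')
        simpa using (hasDerivAt_id x).const_add 1
      have d3 := (d1.fun_mul d2).fun_mul (g.hasDerivAt x)
      refine d3.congr_deriv ?_
      rw [show α + 1 - 1 = α by ring, show β + 1 - 1 = β by ring, Real.rpow_add_one hx1.ne',
        Real.rpow_add_one hx2.ne']
      simp only [eval_add, eval_mul, eval_sub, eval_one, eval_pow, eval_X, eval_C]
      ring)
    ((wJ_int hα hβ).mul_continuousOn (by fun_prop))
  rw [h1]
  have e1 : (1 - (1:ℝ)) ^ (α + 1) = 0 := by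
    rw [sub_self, Real.zero_rpow (by linarith)]
  have e2 : (1 + (-1:ℝ)) ^ (β + 1) = 0 := by
    rw [show (1 + (-1:ℝ)) = 0 by norm_num, Real.zero_rpow (by linarith)]
  simp only [e1, e2]
  ring

theorem μJ_pos {α β : ℝ} (hα : -1 < α) (hβ : -1 < β) :
    0 < (ofMeas (μJ α β) (μJ_int hα hβ)).ev 1 := by
  rw [μJ_eval hα hβ]
  apply intervalIntegral.intervalIntegral_pos_of_pos_on
  · exact (wJ_int hα hβ).mul_continuousOn (by fun_prop)
  · intro x hx
    have hx1 : 0 < 1 - x := by linarith [hx.2]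
    have hx2 : 0 < 1 + x := by linarith [hx.1]
    simp only [eval_one, mul_one]
    positivity
  · norm_num

/-! ### Lebesgue measure on `[-1,1]` -/

/-- Lebesgue measure on `[-1,1]` -/
noncomputable def μU : Measure ℝ := volume.restrict (Icc (-1 : ℝ) 1)

theorem μU_integral (g : ℝ → ℝ) : ∫ x, g x ∂μU = ∫ x in (-1)..1, g x := by
  rw [μU, intervalIntegral.integral_of_le (by norm_num), setIntegral_congr_set (Icc_ae _ _)]

theorem μU_int (k : ℕ) : Integrable (fun x : ℝ => x ^ k) μU := by
  have : IntegrableOn (fun x : ℝ => x ^ k) (Icc (-1 : ℝ) 1) volume :=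
    (Continuous.continuousOn (by fun_prop)).integrableOn_Icc
  exact this

theorem μU_pearson (g : ℝ[X]) :
    (ofMeas μU μU_int).ev ((1 - X ^ 2) * derivative g - 2 * X * g) = 0 := by
  rw [ev_ofMeas, μU_integral]
  rw [intervalIntegral.integral_eq_sub_of_hasDerivAt (f := fun x => (((1 - X ^ 2) * g : ℝ[X])).eval x)]
  · simp
  · intro x _
    refine (((1 - X ^ 2) * g : ℝ[X]).hasDerivAt x).congr_deriv ?_
    congr 1
    rw [derivative_mul, derivative_sub, derivative_one, derivative_X_pow']
    simp only [Nat.cast_ofNat, two_eq]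
    ring
  · apply Continuous.intervalIntegrable
    fun_prop

theorem μU_pos : 0 < (ofMeas μU μU_int).ev 1 := by
  rw [ev_ofMeas, μU_integral]
  simp

/-! ### The density `(1-y)^α` on `[0,1)` -/

/-- the Jacobi measure on `[0,1)` -/
noncomputable def μK (α : ℝ) : Measure ℝ := volume.withDensity (fun x : ℝ => ENNReal.ofReal
            ((Set.Ico (0 : ℝ) 1).indicator (fun y : ℝ => (1 - y) ^ α) x))

theorem wK_meas (α : ℝ) : Measurable (fun y : ℝ => (1 - y) ^ α) := by fun_prop

theorem wK_nonneg (α : ℝ) : ∀ x ∈ Set.Ico (0 : ℝ) 1, 0 ≤ (1 - x) ^ α := by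
  intro x hx
  have h1 : 0 < 1 - x := by linarith [hx.2]
  positivity

theorem wK_int {α : ℝ} (hα : -1 < α) :
    IntervalIntegrable (fun y : ℝ => (1 - y) ^ α) volume 0 1 := by
  have h1 := intervalIntegral.intervalIntegrable_rpow' (a := 0) (b := 1) hα
  have h2 := h1.comp_sub_left 1
  simpa using h2.symm

theorem μK_int {α : ℝ} (hα : -1 < α) (k : ℕ) :
    Integrable (fun x : ℝ => x ^ k) (μK α) := by
  rw [μK, ind_integrable (by norm_num) measurableSet_Ico (Ico_ae _ _) (wK_meas α) (wK_nonneg α)]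
  exact (wK_int hα).mul_continuousOn (by fun_prop)

theorem μK_eval {α : ℝ} (hα : -1 < α) (g : ℝ[X]) :
    (ofMeas (μK α) (μK_int hα)).ev g = ∫ x in (0:ℝ)..1, (1 - x) ^ α * g.eval x := by
  rw [ev_ofMeas, μK, ind_integral (by norm_num) measurableSet_Ico (Ico_ae _ _) (wK_meas α)
    (wK_nonneg α)]

theorem μK_pearson {α : ℝ} (hα : -1 < α) (g : ℝ[X]) :
    (ofMeas (μK α) (μK_int hα)).ev
      (X * (1 - X) * derivative g + (1 - C (α + 2) * X) * g) = 0 := by
  rw [μK_eval hα]
  have h1 := intervalIntegral.integral_eq_sub_of_hasDerivAt_of_le (a := (0:ℝ)) (b := 1)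
    (f := fun x => (1 - x) ^ (α + 1) * (x * g.eval x))
    (f' := fun x => (1 - x) ^ α * eval x
      (X * (1 - X) * derivative g + (1 - C (α + 2) * X) * g)) (by norm_num)
    (by
      apply Continuous.continuousOn
      have c1 : Continuous (fun x : ℝ => (1 - x) ^ (α + 1)) :=
        Continuous.rpow_const (by fun_prop) (fun x => Or.inr (by linarith))
      exact c1.mul (continuous_id.mul g.continuous))
    (by
      intro x hx
      have hx1 : 0 < 1 - x := by linarith [hx.2]
      have d1 : HasDerivAt (fun x : ℝ => (1 - x) ^ (α + 1)) (-1 * (α + 1) * (1 - x) ^ (α + 1 - 1)) x := by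
        apply HasDerivAt.rpow_const _ (Or.inl hx1.ne')
        simpa using (hasDerivAt_id x).const_sub 1
      have d3 := d1.fun_mul ((hasDerivAt_id' x).fun_mul (g.hasDerivAt x))
      refine d3.congr_deriv ?_
      rw [show α + 1 - 1 = α by ring, Real.rpow_add_one hx1.ne']
      simp only [eval_add, eval_mul, eval_sub, eval_one, eval_X, eval_C]
      ring)
    ((wK_int hα).mul_continuousOn (by fun_prop))
  rw [h1]
  have e1 : (1 - (1:ℝ)) ^ (α + 1) = 0 := by
    rw [sub_self, Real.zero_rpow (by linarith)]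
  simp only [e1]
  ring

theorem μK_pos {α : ℝ} (hα : -1 < α) : 0 < (ofMeas (μK α) (μK_int hα)).ev 1 := by
  rw [μK_eval hα]
  apply intervalIntegral.intervalIntegral_pos_of_pos_on
  · exact (wK_int hα).mul_continuousOn (by fun_prop)
  · intro x hx
    have hx1 : 0 < 1 - x := by linarith [hx.2]
    simp only [eval_one, mul_one]
    positivity
  · norm_num

end Pool.Agent.MP_dd438b_an
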