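import Pool.Agent.MP_dd438b_an.Gauge

set_option autoImplicit false
open Polynomial

namespace Pool.Agent.MP_dd438b_an

/-- Positive data: a positive definite functional with the two symmetry equations. -/
structure PData (φ : Fn) (q4 h q2 q1 : ℝ[X]) : Prop where
  pos : ∀ g : ℝ[X], g ≠ 0 → 0 < φ.ev (g * g)
  P1 : ∀ g : ℝ[X], φ.ev (q4 * derivative g + h * g) = 0
  P2 : ∀ g : ℝ[X], φ.ev (h * derivative (derivative g) + q2 * derivative g + q1 * g) = 0
  d4 : q4.natDegree ≤ 4
  d3 : h.natDegree ≤ 3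
  d2 : q2.natDegree ≤ 2
  d1 : q1.natDegree ≤ 1
  ne : q4 ≠ 0
  eta : ∀ g : ℝ[X], 0 ≤ φ.ev (q4 * (g * g))
  psi : ∀ g : ℝ[X], 0 ≤ - φ.ev (h * derivative (g * g) + q2 * (g * g))

/-- the functional `ψ` of the data -/
noncomputable def psiOf (φ : Fn) (h q2 : ℝ[X]) : Fn := dd (h • φ) - q2 • φ

variable {φ : Fn} {q4 h q2 q1 : ℝ[X]}

theorem PData.data (P : PData φ q4 h q2 q1) : Data φ (psiOf φ h q2) q4 h q2 q1 where
  tf A hA := by
    by_contra h0
    have h1 := P.pos A h0
    have h2 : (A • φ).ev A = 0 := by rw [hA]; rfl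
    rw [ev_smul] at h2
    linarith
  e1 := Fn.ext' fun g => by
    have h1 := P.P1 g
    simp only [ev_dd, ev_smul, map_add] at h1 ⊢
    linarith
  epsi := rfl
  e2 := Fn.ext' fun g => by
    have h1 := P.P2 g
    simp only [psiOf, ev_dd, ev_smul, map_add, ev_sub, ev_neg] at h1 ⊢
    linarith

/-- The composition of a polynomial with `a X + b`. -/
noncomputable def lin (a b : ℝ) : ℝ[X] := C a * X + C b

theorem lin_comp_inv {a : ℝ} (ha : a ≠ 0) (b : ℝ) :
    (lin a b).comp (lin a⁻¹ (-(a⁻¹ * b))) = X := by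
  simp only [lin, add_comp, mul_comp, C_comp, X_comp]
  rw [mul_add, ← mul_assoc, ← C_mul, mul_inv_cancel₀ ha, ← C_mul, mul_neg, ← mul_assoc,
    mul_inv_cancel₀ ha]
  simp

theorem inv_comp_lin {a : ℝ} (ha : a ≠ 0) (b : ℝ) :
    (lin a⁻¹ (-(a⁻¹ * b))).comp (lin a b) = X := by
  simp only [lin, add_comp, mul_comp, C_comp, X_comp]
  rw [mul_add, ← mul_assoc, ← C_mul, inv_mul_cancel₀ ha, ← C_mul]
  simp

/-- composition as a linear map -/
noncomputable def compL (q : ℝ[X]) : ℝ[X] →ₗ[ℝ] ℝ[X] where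
  toFun := fun g => g.comp q
  map_add' := fun f g => add_comp
  map_smul' := fun c g => by simp

/-- The functional `φ` in the new coordinate `y`, where `x = a y + b`. -/
noncomputable def pull (a b : ℝ) (φ : Fn) : Fn := φ.ev ∘ₗ compL (lin a⁻¹ (-(a⁻¹ * b)))

theorem ev_pull (a b : ℝ) (φ : Fn) (g : ℝ[X]) :
    (pull a b φ).ev g = φ.ev (g.comp (lin a⁻¹ (-(a⁻¹ * b)))) := rfl

theorem ev_pull_comp {a : ℝ} (ha : a ≠ 0) (b : ℝ) (φ : Fn) (g : ℝ[X]) :
    (pull a b φ).ev (g.comp (lin a b)) = φ.ev g := by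
  rw [ev_pull, comp_assoc, lin_comp_inv ha, comp_X]

theorem exists_comp {a : ℝ} (ha : a ≠ 0) (b : ℝ) (G : ℝ[X]) :
    ∃ g : ℝ[X], G = g.comp (lin a b) :=
  ⟨G.comp (lin a⁻¹ (-(a⁻¹ * b))), by rw [comp_assoc, inv_comp_lin ha, comp_X]⟩

theorem derivative_comp_lin (a b : ℝ) (g : ℝ[X]) :
    derivative (g.comp (lin a b)) = C a * (derivative g).comp (lin a b) := by
  rw [derivative_comp]
  simp [lin]

theorem natDegree_lin_le (a b : ℝ) : (lin a b).natDegree ≤ 1 := by
  unfold lin
  exact natDegree_linear_le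

theorem natDegree_comp_lin_le (a b c : ℝ) (g : ℝ[X]) :
    (C c * g.comp (lin a b)).natDegree ≤ g.natDegree := by
  calc (C c * g.comp (lin a b)).natDegree ≤ (g.comp (lin a b)).natDegree := natDegree_C_mul_le _ _
    _ ≤ g.natDegree * (lin a b).natDegree := natDegree_comp_le
    _ ≤ g.natDegree * 1 := Nat.mul_le_mul_left _ (natDegree_lin_le a b)
    _ = g.natDegree := by ring

theorem comp_lin_ne_zero {a : ℝ} (ha : a ≠ 0) (b : ℝ) {g : ℝ[X]} (hg : g ≠ 0) :
    g.comp (lin a b) ≠ 0 := by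
  intro h0
  apply hg
  have := congrArg (fun r => r.comp (lin a⁻¹ (-(a⁻¹ * b)))) h0
  simpa [comp_assoc, lin_comp_inv ha] using this

theorem ev_C_mul (φ : Fn) (c : ℝ) (g : ℝ[X]) : φ.ev (C c * g) = c * φ.ev g := by
  rw [← smul_eq_C_mul, map_smul, smul_eq_mul]

theorem PData.pull (P : PData φ q4 h q2 q1) {a : ℝ} (ha : a ≠ 0) (b : ℝ) :
    PData (pull a b φ) (C (a ^ 4)⁻¹ * q4.comp (lin a b)) (C (a ^ 3)⁻¹ * h.comp (lin a b))
      (C (a ^ 2)⁻¹ * q2.comp (lin a b)) (C a⁻¹ * q1.comp (lin a b)) where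
  pos G hG := by
    obtain ⟨g, rfl⟩ := exists_comp ha b G
    rw [← mul_comp, ev_pull_comp ha]
    apply P.pos
    rintro rfl
    simp at hG
  P1 G := by
    obtain ⟨g, rfl⟩ := exists_comp ha b G
    rw [derivative_comp_lin]
    have : C (a ^ 4)⁻¹ * q4.comp (lin a b) * (C a * (derivative g).comp (lin a b))
        + C (a ^ 3)⁻¹ * h.comp (lin a b) * g.comp (lin a b)
        = C (a ^ 3)⁻¹ * (q4 * derivative g + h * g).comp (lin a b) := by
      rw [add_comp, mul_comp, mul_comp]
      have : (C (a ^ 4)⁻¹ * C a : ℝ[X]) = C (a ^ 3)⁻¹ := by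
        rw [← C_mul]; congr 1; field_simp
      linear_combination (q4.comp (lin a b) * (derivative g).comp (lin a b)) * this
    rw [this, ev_C_mul, ev_pull_comp ha, P.P1, mul_zero]
  P2 G := by
    obtain ⟨g, rfl⟩ := exists_comp ha b G
    rw [derivative_comp_lin, derivative_C_mul, derivative_comp_lin]
    have : C (a ^ 3)⁻¹ * h.comp (lin a b) * (C a * (C a * (derivative (derivative g)).comp (lin a b)))
        + C (a ^ 2)⁻¹ * q2.comp (lin a b) * (C a * (derivative g).comp (lin a b))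
        + C a⁻¹ * q1.comp (lin a b) * g.comp (lin a b)
        = C a⁻¹ * (h * derivative (derivative g) + q2 * derivative g + q1 * g).comp (lin a b) := by
      rw [add_comp, add_comp, mul_comp, mul_comp, mul_comp]
      have e1 : (C (a ^ 3)⁻¹ * C a * C a : ℝ[X]) = C a⁻¹ := by
        rw [← C_mul, ← C_mul]; congr 1; field_simp
      have e2 : (C (a ^ 2)⁻¹ * C a : ℝ[X]) = C a⁻¹ := by
        rw [← C_mul]; congr 1; field_simp
      linear_combination (h.comp (lin a b) * (derivative (derivative g)).comp (lin a b)) * e1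
        + (q2.comp (lin a b) * (derivative g).comp (lin a b)) * e2
    rw [this, ev_C_mul, ev_pull_comp ha, P.P2, mul_zero]
  d4 := (natDegree_comp_lin_le _ _ _ _).trans P.d4
  d3 := (natDegree_comp_lin_le _ _ _ _).trans P.d3
  d2 := (natDegree_comp_lin_le _ _ _ _).trans P.d2
  d1 := (natDegree_comp_lin_le _ _ _ _).trans P.d1
  ne := mul_ne_zero (C_ne_zero.mpr (by positivity)) (comp_lin_ne_zero ha b P.ne)
  eta G := by
    obtain ⟨g, rfl⟩ := exists_comp ha b G
    rw [mul_assoc, ← mul_comp, ← mul_comp, ev_C_mul, ev_pull_comp ha]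
    have := P.eta g
    positivity
  psi G := by
    obtain ⟨g, rfl⟩ := exists_comp ha b G
    rw [← mul_comp, derivative_comp_lin]
    have : C (a ^ 3)⁻¹ * h.comp (lin a b) * (C a * (derivative (g * g)).comp (lin a b))
        + C (a ^ 2)⁻¹ * q2.comp (lin a b) * (g * g).comp (lin a b)
        = C (a ^ 2)⁻¹ * (h * derivative (g * g) + q2 * (g * g)).comp (lin a b) := by
      simp only [add_comp, mul_comp]
      have e1 : (C (a ^ 3)⁻¹ * C a : ℝ[X]) = C (a ^ 2)⁻¹ := by
        rw [← C_mul]; congr 1; field_simp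
      linear_combination (h.comp (lin a b) * (derivative (g * g)).comp (lin a b)) * e1
    rw [this, ev_C_mul, ev_pull_comp ha, ← mul_neg]
    have := P.psi g
    positivity

theorem PData.scale (P : PData φ q4 h q2 q1) {k : ℝ} (hk : 0 < k) :
    PData φ (C k * q4) (C k * h) (C k * q2) (C k * q1) where
  pos := P.pos
  P1 g := by
    have : C k * q4 * derivative g + C k * h * g = C k * (q4 * derivative g + h * g) := by ring
    rw [this, ev_C_mul, P.P1, mul_zero]
  P2 g := by
    have : C k * h * derivative (derivative g) + C k * q2 * derivative g + C k * q1 * g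
      = C k * (h * derivative (derivative g) + q2 * derivative g + q1 * g) := by ring
    rw [this, ev_C_mul, P.P2, mul_zero]
  d4 := (natDegree_C_mul_le _ _).trans P.d4
  d3 := (natDegree_C_mul_le _ _).trans P.d3
  d2 := (natDegree_C_mul_le _ _).trans P.d2
  d1 := (natDegree_C_mul_le _ _).trans P.d1
  ne := mul_ne_zero (C_ne_zero.mpr hk.ne') P.ne
  eta g := by
    rw [mul_assoc, ev_C_mul]
    have := P.eta g
    positivity
  psi g := by
    have : C k * h * derivative (g * g) + C k * q2 * (g * g)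
      = C k * (h * derivative (g * g) + q2 * (g * g)) := by ring
    rw [this, ev_C_mul, ← mul_neg]
    have := P.psi g
    positivity

/-- change of the names of the polynomials -/
theorem PData.congr (P : PData φ q4 h q2 q1) {q4' h' q2' q1' : ℝ[X]} (e4 : q4 = q4') (e3 : h = h')
    (e2 : q2 = q2') (e1 : q1 = q1') : PData φ q4' h' q2' q1' := by
  subst e4 e3 e2 e1; exact P

theorem ext_mon {v : Fn} (hv : ∀ n : ℕ, v.ev (X ^ n) = 0) : v = 0 := by
  apply Fn.ext'
  intro f
  rw [f.as_sum_range_C_mul_X_pow, map_sum]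
  simp only [ev_C_mul, hv, mul_zero, Finset.sum_const_zero, ev_zero]

/-- `w' = κ w` forces `w = 0` -/
theorem exp_zero {w : Fn} {κ : ℝ} (hw : dd w = (C κ : ℝ[X]) • w) : w = 0 := by
  have h1 : ∀ g : ℝ[X], - w.ev (derivative g) = κ * w.ev g := by
    intro g
    have := congrArg (fun v => Fn.ev v g) hw
    simpa [ev_C_mul] using this
  by_cases hk : κ = 0
  · subst hk
    apply ext_mon
    intro n
    have h2 := h1 (X ^ (n + 1))
    simp only [derivative_X_pow, zero_mul, neg_eq_zero] at h2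
    rw [map_natCast, ← map_natCast (C : ℝ →+* ℝ[X]), ev_C_mul] at h2
    have h3 : ((n + 1 : ℕ) : ℝ) ≠ 0 := by positivity
    have h4 := (mul_eq_zero.mp h2).resolve_left h3
    simpa using h4
  · apply ext_mon
    intro n
    induction n with
    | zero =>
      have h2 := h1 1
      simp only [derivative_one, map_zero, neg_zero] at h2
      have : w.ev 1 = 0 := by
        rcases mul_eq_zero.mp h2.symm with h | h
        · exact absurd h hk
        · exact h
      simpa using this
    | succ n ih =>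
      have h2 := h1 (X ^ (n + 1))
      rw [derivative_X_pow, map_natCast, ← map_natCast (C : ℝ →+* ℝ[X]), ev_C_mul] at h2
      simp only [Nat.add_sub_cancel, ih, mul_zero, neg_zero] at h2
      rcases mul_eq_zero.mp h2.symm with h | h
      · exact absurd h hk
      · exact h

/-- `x^(m+1) w' = κ x^m w` forces `w` to be torsion -/
theorem pow_torsion {w : Fn} {κ : ℝ} {m : ℕ} (hw : (X ^ (m + 1) : ℝ[X]) • dd w
    = (C κ * X ^ m : ℝ[X]) • w) : ∃ N : ℕ, (X ^ N : ℝ[X]) • w = 0 := by
  have h1 : ∀ n : ℕ, ((m + 1 + n : ℝ) + κ) * w.ev (X ^ (m + n)) = 0 := by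
    intro n
    have := congrArg (fun v => Fn.ev v (X ^ n)) hw
    simp only [ev_smul, ev_dd] at this
    rw [← pow_add, derivative_X_pow, map_natCast, ← map_natCast (C : ℝ →+* ℝ[X]), ev_C_mul,
      mul_assoc, ev_C_mul, ← pow_add] at this
    rw [show m + 1 + n - 1 = m + n by omega] at this
    push_cast at this
    linarith
  obtain ⟨N, hN⟩ := exists_nat_gt (-κ)
  refine ⟨m + N, ext_mon fun n => ?_⟩
  rw [ev_smul, ← pow_add, add_assoc]
  have h2 := h1 (N + n)
  push_cast at h2
  rcases mul_eq_zero.mp h2 with h | h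
  · exfalso
    have : (0:ℝ) ≤ m := by positivity
    have : (0:ℝ) ≤ n := by positivity
    linarith
  · exact h

end Pool.Agent.MP_dd438b_an
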