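import Pool.Agent.MP_dd438b_an.Cases2

set_option autoImplicit false
open Polynomial

namespace Pool.Agent.MP_dd438b_an

variable {φ : Fn} {q4 h q2 q1 : ℝ[X]}

/-- Hermite functional -/
def Herm (φ : Fn) : Prop := ∀ g : ℝ[X], φ.ev (derivative g - 2 * X * g) = 0

/-- Laguerre functional -/
def Lag (φ : Fn) : Prop := ∃ α : ℝ, -1 < α ∧
  ∀ g : ℝ[X], φ.ev (X * derivative g + (C (α + 1) - X) * g) = 0

/-- Jacobi functional -/
def Jac (φ : Fn) : Prop := ∃ α β : ℝ, -1 < α ∧ -1 < β ∧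
  ∀ g : ℝ[X], φ.ev ((1 - X ^ 2) * derivative g + (C (β - α) - C (α + β + 2) * X) * g) = 0

/-- Legendre type functional -/
def LegT (φ : Fn) : Prop := ∃ (Λ : Fn) (M : ℝ), 0 < M ∧ 0 < Λ.ev 1 ∧
  (∀ g : ℝ[X], Λ.ev ((1 - X ^ 2) * derivative g - 2 * X * g) = 0) ∧
  ∀ g : ℝ[X], φ.ev g = Λ.ev g + M * (g.eval (-1) + g.eval 1)

/-- Laguerre type functional -/
def LagT (φ : Fn) : Prop := ∃ (Λ : Fn) (M : ℝ), 0 < M ∧ 0 < Λ.ev 1 ∧
  (∀ g : ℝ[X], Λ.ev (X * derivative g + (1 - X) * g) = 0) ∧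
  ∀ g : ℝ[X], φ.ev g = Λ.ev g + M * g.eval 0

/-- Jacobi type functional -/
def JacT (φ : Fn) : Prop := ∃ (α : ℝ) (Λ : Fn) (M : ℝ), -1 < α ∧ 0 < M ∧ 0 < Λ.ev 1 ∧
  (∀ g : ℝ[X], Λ.ev (X * (1 - X) * derivative g + (1 - C (α + 2) * X) * g) = 0) ∧
  ∀ g : ℝ[X], φ.ev g = Λ.ev g + M * g.eval 0

/-- functionals in standard position -/
def Std0 (φ : Fn) : Prop := 0 < φ.ev 1 ∧ (Herm φ ∨ Lag φ ∨ Jac φ ∨ LegT φ ∨ LagT φ ∨ JacT φ)

/-- functionals that are standard after a linear change of variable -/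
def Std (φ : Fn) : Prop := ∃ (a b : ℝ) (φ' : Fn), a ≠ 0 ∧
  (∀ g : ℝ[X], φ'.ev (g.comp (lin a b)) = φ.ev g) ∧ Std0 φ'

theorem Std.of_std0 (h0 : Std0 φ) : Std φ :=
  ⟨1, 0, φ, one_ne_zero, fun g => by simp [lin], h0⟩

theorem Std.of_pull {a b : ℝ} (ha : a ≠ 0) (hs : Std (pull a b φ)) : Std φ := by
  obtain ⟨a', b', φ', ha', h1, h2⟩ := hs
  refine ⟨a * a', a * b' + b, φ', mul_ne_zero ha ha', fun g => ?_, h2⟩
  rw [← ev_pull_comp ha b φ g, ← h1, comp_assoc]
  congr 2
  simp only [lin, add_comp, mul_comp, C_comp, X_comp, C_mul, C_add]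
  ring

theorem Std.of_pull0 {a b : ℝ} (ha : a ≠ 0) (hs : Std0 (pull a b φ)) : Std φ :=
  Std.of_pull ha (Std.of_std0 hs)

theorem PosDef.one {v : Fn} (hv : PosDef v) : 0 < v.ev 1 := by
  have := hv 1 one_ne_zero
  simpa using this

theorem PosDef.pull {v : Fn} (hv : PosDef v) {a : ℝ} (ha : a ≠ 0) (b : ℝ) :
    PosDef (pull a b v) := by
  intro G hG
  obtain ⟨g, rfl⟩ := exists_comp ha b G
  rw [← mul_comp, ev_pull_comp ha]
  apply hv
  rintro rfl
  simp at hG

/-- case A -/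
theorem PData.case_const (P : PData φ q4 h q2 q1) {c : ℝ} (hc : q4 = C c) : Std φ := by
  have hc0 : c ≠ 0 := by
    rintro rfl
    exact P.ne (by rw [hc]; simp)
  have hd : h.natDegree ≤ 1 := by
    by_contra hcon
    push Not at hcon
    apply P.degree_lemma
    · rw [hc, natDegree_C]; omega
    · rw [hc, natDegree_C]; omega
  obtain ⟨u, t, hut⟩ : ∃ u t : ℝ, h = C u * X + C t :=
    ⟨_, _, eq_X_add_C_of_natDegree_le_one hd⟩
  have hu0 : u ≠ 0 := by
    rintro rfl
    have : φ = 0 := by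
      apply exp_zero (κ := t / c)
      apply Fn.ext'
      intro g
      have h1 := P.P1 g
      rw [hc, hut, map_zero, zero_mul, zero_add, map_add, ev_C_mul, ev_C_mul] at h1
      rw [ev_dd, ev_smul, ev_C_mul]
      field_simp
      linarith
    have h2 := P.posDef.one
    rw [this] at h2
    simp at h2
  have hsgn : u / c < 0 := by
    have h1 := P.P1 (X - C (-t / u))
    rw [hc, hut, derivative_sub, derivative_X, derivative_C, sub_zero, mul_one,
      show (C u * X + C t) = C u * (X - C (-t / u)) by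
        rw [mul_sub, ← C_mul]; rw [show u * (-t / u) = -t by field_simp]; simp,
      mul_assoc, map_add, ev_C_mul, ← mul_one (C c), ev_C_mul] at h1
    have h2 := P.posDef (X - C (-t / u)) (X_sub_C_ne_zero _)
    have h3 := P.posDef.one
    have h4 : u / c = - φ.ev 1 / φ.ev ((X - C (-t / u)) * (X - C (-t / u))) := by
      rw [div_eq_div_iff hc0 h2.ne']
      linarith
    rw [h4]
    apply div_neg_of_neg_of_pos <;> linarith
  set a : ℝ := Real.sqrt (-2 * c / u) with ha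
  have hpos : 0 < -2 * c / u := by
    have : -2 * c / u = -2 / (u / c) := by field_simp
    rw [this]
    exact div_pos_of_neg_of_neg (by norm_num) hsgn
  have ha0 : a ≠ 0 := (Real.sqrt_pos.mpr hpos).ne'
  have ha2 : a ^ 2 = -2 * c / u := Real.sq_sqrt hpos.le
  apply Std.of_pull0 (a := a) (b := -t / u) ha0
  refine ⟨(P.posDef.pull ha0 _).one, Or.inl ?_⟩
  intro G
  obtain ⟨g, rfl⟩ := exists_comp ha0 (-t / u) G
  have h1 := P.P1 g
  have e1 : derivative (g.comp (lin a (-t / u))) - 2 * X * g.comp (lin a (-t / u))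
      = C (a / c) * (q4 * derivative g + h * g).comp (lin a (-t / u)) := by
    rw [derivative_comp_lin, hc, hut]
    simp only [lin, add_comp, mul_comp, C_comp, X_comp]
    have e2 : (C (a / c) * C c : ℝ[X]) = C a := by rw [← C_mul]; congr 1; field_simp
    have e3 : (C (a / c) * C u * C a : ℝ[X]) = -2 := by
      rw [← C_mul, ← C_mul, show a / c * u * a = a ^ 2 * u / c by ring, ha2,
        show -2 * c / u * u / c = -2 by field_simp]
      simp
      rfl
    have e4 : (C u * C (-t / u) + C t : ℝ[X]) = 0 := by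
      rw [← C_mul, ← C_add, show u * (-t / u) + t = 0 by field_simp; ring, map_zero]
    linear_combination (-(derivative g).comp (C a * X + C (-t / u))) * e2
      - (X * g.comp (C a * X + C (-t / u))) * e3 - (C (a / c) * g.comp (C a * X + C (-t / u))) * e4
  rw [e1, ev_C_mul, ev_pull_comp ha0, h1, mul_zero]

theorem exists_X_mul (g : ℝ[X]) : ∃ (k : ℝ[X]) (s : ℝ), g = X * k + C s :=
  ⟨g.divX, g.coeff 0, (X_mul_divX_add g).symm⟩

end Pool.Agent.MP_dd438b_an
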